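import Pool.Agent.H75.RM.Reversal

universe u v w x

set_option linter.unusedSectionVars false

namespace Pool.Agent.H75.RM

section aca
variable {M : Type u} [Model M]
variable {α : Type v} {β : Type w} {γ : Type x} [Coded M α] [Coded M β] [Coded M γ]

theorem Rec.exM' (hJ : Jump M) {P : α → M → Prop} (h : Rec M (fun p : α × M => P p.1 p.2)) :
    Rec M (fun a => ∃ x, P a x) := by
  -- pass to codes
  have h1 : Rec M (fun p : M × M => ∃ a : α, RM.cd M a = p.1 ∧ P a p.2) := by
    have := Rec.ex_code (P := fun p : M × α => P p.2 p.1) (h.comp (f := fun p : M × α => (p.2, p.1)) (by fun_prop))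
    exact this.comp (f := fun p : M × M => (p.2, p.1)) (by fun_prop)
  have h2 := hJ _ h1
  have h3 : Rec M (fun a : α => ∃ u, ∃ a' : α, RM.cd M a' = RM.cd M a ∧ P a' u) :=
    h2.comp (f := fun a : α => RM.cd M a) (by fun_prop)
  refine Rec.congr h3 ?_
  intro a
  rw [eq_iff_iff]
  constructor
  · rintro ⟨u, a', h4, h5⟩
    rw [cd_inj] at h4
    subst h4
    exact ⟨u, h5⟩
  · rintro ⟨u, hu⟩
    exact ⟨u, a, rfl, hu⟩

theorem Rec.ex' (hJ : Jump M) {P : α → β → Prop} (h : Rec M (fun p : α × β => P p.1 p.2)) :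
    Rec M (fun a => ∃ b, P a b) := by
  have h1 := Rec.ex_code h
  have h2 := Rec.exM' hJ (P := fun a x => ∃ b, RM.cd M b = x ∧ P a b) h1
  refine Rec.congr h2 ?_
  intro a
  rw [eq_iff_iff]
  constructor
  · rintro ⟨x, b, _, hb⟩
    exact ⟨b, hb⟩
  · rintro ⟨b, hb⟩
    exact ⟨_, b, rfl, hb⟩

/-- a model of `ACA₀` -/
class ACAModel (M : Type u) extends Model M where
  jump : Jump M

end aca

section aca2
variable {M : Type u} [ACAModel M]
variable {α : Type v} {β : Type w} {γ : Type x} [Coded M α] [Coded M β] [Coded M γ]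

@[fun_prop]
theorem Rec.ex {P : α → β → Prop} (h : Rec M (fun p : α × β => P p.1 p.2)) :
    Rec M (fun a => ∃ b, P a b) := Rec.ex' ACAModel.jump h

@[fun_prop]
theorem Rec.all {P : α → β → Prop} (h : Rec M (fun p : α × β => P p.1 p.2)) :
    Rec M (fun a => ∀ b, P a b) := by
  refine Rec.congr (f := fun a => ¬ ∃ b, ¬ P a b) (by fun_prop) ?_
  intro a
  simp

example : Rec M (fun p : M × M => ∀ x : M, p.1 + x = p.2) := by fun_prop
example : Rec M (fun p : M × M => ∀ x : M, x < p.1 → p.1 + x = p.2) := by fun_prop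
example (f : M → M → M) (hf : Rec M (fun p : M × M => f p.1 p.2)) :
  Rec M (fun p : M × M => ∃ x y : M, f (p.1 + x) y = p.2 ∧ x < y) := by fun_prop
example (f : M → M → Prop) (hf : Rec M (fun p : M × M => f p.1 p.2)) :
  Rec M (fun p : M × M => ∃ x y : M, f (p.1 + x) y ∧ x < y) := by fun_prop
example (f : Sq M → M → Prop) (hf : Rec M (fun p : Sq M × M => f p.1 p.2)) :
  Rec M (fun p : Sq M × M => ∃ x : Sq M, ∃ y : M, ∀ i < x.len, f x y ∧ p.2 < y) := by fun_prop

theorem Tm.rec_eval {n : ℕ} (t : Tm M n) : Rec M (fun v : Fin n → M => t.eval v) := by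
  induction t with
  | var i => simp only [Tm.eval]; fun_prop
  | par a => simp only [Tm.eval]; fun_prop
  | add s t hs ht => simp only [Tm.eval]; fun_prop
  | mul s t hs ht => simp only [Tm.eval]; fun_prop

theorem rec_cons {n : ℕ} {f : α → M} {g : α → Fin n → M} (hf : Rec M f) (hg : Rec M g) :
    Rec M (fun a => (Fin.cons (f a) (g a) : Fin (n + 1) → M)) := by
  refine Rec.pi (fun i => ?_)
  refine Fin.cases ?_ (fun j => ?_) i
  · simpa using hf
  · simp only [Fin.cons_succ]
    fun_prop

theorem Fm.rec_eval {n : ℕ} (φ : Fm M (Model.sets (M := M)) n) :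
    Rec M (fun v : Fin n → M => φ.eval v) := by
  induction φ with
  | eq s t =>
    have := Tm.rec_eval s
    have := Tm.rec_eval t
    simp only [Fm.eval_eq]; fun_prop
  | lt s t =>
    have := Tm.rec_eval s
    have := Tm.rec_eval t
    simp only [Fm.eval_lt]; fun_prop
  | mem s X =>
    simp only [Fm.eval_mem]
    exact Rec.mem_of_inS (show InS X.1 from X.2) (Tm.rec_eval s)
  | neg φ h => simp only [Fm.eval_neg]; fun_prop
  | and φ ψ h h' => simp only [Fm.eval_and]; fun_prop
  | all φ h =>
    simp only [Fm.eval_all]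
    exact Rec.all (P := fun v a => φ.eval (Fin.cons a v))
      (h.comp (f := fun p : (Fin _ → M) × M => (Fin.cons p.2 p.1 : Fin (_ + 1) → M))
        (rec_cons (by fun_prop) (by fun_prop)))
  | ball t φ h =>
    simp only [Fm.eval_ball]
    have ht := Tm.rec_eval t
    refine Rec.ball (b := fun v => t.eval v) (P := fun v a => φ.eval (Fin.cons a v)) (by fun_prop)
      (h.comp (f := fun p : (Fin _ → M) × M => (Fin.cons p.2 p.1 : Fin (_ + 1) → M))
        (rec_cons (by fun_prop) (by fun_prop)))

theorem arithmeticalComprehension : ArithmeticalComprehension M (Model.sets (M := M)) := by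
  intro φ
  have h : Rec M (fun x : M => φ.eval ![x]) := by
    have := Fm.rec_eval φ
    exact this.comp (f := fun x : M => ![x]) (rec_cons (by fun_prop) (by fun_prop))
  exact inS_iff_rec.2 h

end aca2

section aca3
variable {M : Type u} [Model M]

theorem jump_of_ac (h : ArithmeticalComprehension M (Model.sets (M := M))) : Jump M := by
  intro R hR
  have := h (.neg (.all (.neg (.mem (.pr (.var 1) (.var 0)) (InS.p hR.recP)))))
  have key : ∀ x m, pr x m ∈ cset M R ↔ R (x, m) := by
    intro x m
    have := cd_mem_cset (M := M) (P := R) (a := (x, m))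
    simpa using this
  refine Rec.congr (inS_iff_rec.1 (show InS _ from this)) ?_
  intro n
  simp [key]

theorem ac_of_jump (h : Jump M) : ArithmeticalComprehension M (Model.sets (M := M)) :=
  letI : ACAModel M := { jump := h }
  arithmeticalComprehension

end aca3

end Pool.Agent.H75.RM
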