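import Pool.Agent.H75.RM.Order

universe u v w x

set_option linter.unusedSectionVars false

namespace Pool.Agent.H75.RM

/-- A model of `RCA₀`, bundled. -/
class Model (M : Type u) extends PAminus M where
  sets : Set (Set M)
  rca : RCA0 M sets

section formulas
variable {M : Type u} {S : Set (Set M)} {n : ℕ}

/-- the pairing term -/
def Tm.pr (s t : Tm M n) : Tm M n := .add (.mul (.add s t) (.add s t)) s

/-- disjunction -/
def Fm.or (φ ψ : Fm M S n) : Fm M S n := .neg (.and (.neg φ) (.neg ψ))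

end formulas

section formulas2
variable {M : Type u} [PAminus M] {S : Set (Set M)} {n : ℕ}

/-- `∃ x ≤ t, φ` -/
def Fm.exle (t : Tm M n) (φ : Fm M S (n + 1)) : Fm M S n := .neg (.ball (.add t (.par 1)) (.neg φ))

@[simp] theorem Tm.eval_var (v : Fin n → M) (i : Fin n) : (Tm.var i : Tm M n).eval v = v i := rfl
@[simp] theorem Tm.eval_par (v : Fin n → M) (a : M) : (Tm.par a : Tm M n).eval v = a := rfl
@[simp] theorem Tm.eval_add (v : Fin n → M) (s t : Tm M n) :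
    (Tm.add s t).eval v = s.eval v + t.eval v := rfl
@[simp] theorem Tm.eval_mul (v : Fin n → M) (s t : Tm M n) :
    (Tm.mul s t).eval v = s.eval v * t.eval v := rfl
@[simp] theorem Tm.eval_pr (v : Fin n → M) (s t : Tm M n) :
    (Tm.pr s t).eval v = RM.pr (s.eval v) (t.eval v) := rfl
@[simp] theorem Fm.eval_eq (v : Fin n → M) (s t : Tm M n) :
    (Fm.eq s t : Fm M S n).eval v ↔ s.eval v = t.eval v := Iff.rfl
@[simp] theorem Fm.eval_lt (v : Fin n → M) (s t : Tm M n) :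
    (Fm.lt s t : Fm M S n).eval v ↔ s.eval v < t.eval v := Iff.rfl
@[simp] theorem Fm.eval_mem (v : Fin n → M) (s : Tm M n) (X : S) :
    (Fm.mem s X : Fm M S n).eval v ↔ s.eval v ∈ X.1 := Iff.rfl
@[simp] theorem Fm.eval_neg (v : Fin n → M) (φ : Fm M S n) :
    (Fm.neg φ).eval v ↔ ¬ φ.eval v := Iff.rfl
@[simp] theorem Fm.eval_and (v : Fin n → M) (φ ψ : Fm M S n) :
    (Fm.and φ ψ).eval v ↔ φ.eval v ∧ ψ.eval v := Iff.rfl
@[simp] theorem Fm.eval_all (v : Fin n → M) (φ : Fm M S (n + 1)) :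
    (Fm.all φ).eval v ↔ ∀ a, φ.eval (Fin.cons a v) := Iff.rfl
@[simp] theorem Fm.eval_ball (v : Fin n → M) (t : Tm M n) (φ : Fm M S (n + 1)) :
    (Fm.ball t φ).eval v ↔ ∀ a, a < t.eval v → φ.eval (Fin.cons a v) := Iff.rfl
@[simp] theorem Fm.eval_or (v : Fin n → M) (φ ψ : Fm M S n) :
    (Fm.or φ ψ).eval v ↔ φ.eval v ∨ ψ.eval v := by simp [Fm.or]; tauto
@[simp] theorem Fm.eval_exle (v : Fin n → M) (t : Tm M n) (φ : Fm M S (n + 1)) :
    (Fm.exle t φ).eval v ↔ ∃ a, a ≤ t.eval v ∧ φ.eval (Fin.cons a v) := by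
  simp [Fm.exle, lt_succ_iff]

@[simp] theorem Fm.d_eq (s t : Tm M n) : (Fm.eq s t : Fm M S n).IsDelta0 ↔ True := Iff.rfl
@[simp] theorem Fm.d_lt (s t : Tm M n) : (Fm.lt s t : Fm M S n).IsDelta0 ↔ True := Iff.rfl
@[simp] theorem Fm.d_mem (s : Tm M n) (X : S) : (Fm.mem s X : Fm M S n).IsDelta0 ↔ True := Iff.rfl
@[simp] theorem Fm.d_neg (φ : Fm M S n) : (Fm.neg φ).IsDelta0 ↔ φ.IsDelta0 := Iff.rfl
@[simp] theorem Fm.d_and (φ ψ : Fm M S n) : (Fm.and φ ψ).IsDelta0 ↔ φ.IsDelta0 ∧ ψ.IsDelta0 := Iff.rfl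
@[simp] theorem Fm.d_ball (t : Tm M n) (φ : Fm M S (n + 1)) :
    (Fm.ball t φ).IsDelta0 ↔ φ.IsDelta0 := Iff.rfl
@[simp] theorem Fm.d_or (φ ψ : Fm M S n) : (Fm.or φ ψ).IsDelta0 ↔ φ.IsDelta0 ∧ ψ.IsDelta0 := Iff.rfl
@[simp] theorem Fm.d_exle (t : Tm M n) (φ : Fm M S (n + 1)) :
    (Fm.exle t φ).IsDelta0 ↔ φ.IsDelta0 := Iff.rfl

end formulas2

section raw
variable {M : Type u} [Model M]

/-- `X` is one of the sets of the model. -/
def InS (X : Set M) : Prop := X ∈ Model.sets (M := M)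

/-- a set of the model as a parameter -/
abbrev InS.p {X : Set M} (h : InS X) : (Model.sets (M := M) : Set (Set M)) := ⟨X, h⟩

theorem mkSet (θ : Fm M (Model.sets (M := M)) 2) (hθ : θ.IsDelta0) {X : Set M}
    (h : ∀ x y, θ.eval ![y, x] ↔ x ∈ X) : InS X := by
  have := Model.rca.comprehension θ θ hθ hθ (by
    intro x
    simp [h])
  have e : {x | ∃ y, θ.eval ![y, x]} = X := by
    ext x
    simp [h]
  rw [e] at this
  exact this

theorem mkSet1 {X Y : Set M} (hX : InS X) (hY : InS Y)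
    (h : ∀ x, (∃ y, pr x y ∈ X) ↔ ¬ ∃ y, pr x y ∈ Y) : InS {x | ∃ y, pr x y ∈ X} := by
  have := Model.rca.comprehension (.mem (.pr (.var 1) (.var 0)) hX.p)
    (.neg (.mem (.pr (.var 1) (.var 0)) hY.p)) trivial trivial (by
    intro x
    simpa using h x)
  simpa [InS] using this

theorem sigma_ind {X : Set M} (hX : InS X) (h0 : ∃ y, pr 0 y ∈ X)
    (hs : ∀ x, (∃ y, pr x y ∈ X) → ∃ y, pr (x + 1) y ∈ X) : ∀ x, ∃ y, pr x y ∈ X := by
  have := Model.rca.induction (M := M) (.mem (.pr (.var 1) (.var 0)) hX.p) trivial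
    (by simpa using h0) (by simpa using hs)
  simpa using this

theorem InS.compl {X : Set M} (hX : InS X) : InS Xᶜ :=
  mkSet (.neg (.mem (.var 1) hX.p)) trivial (by intro x y; simp)

theorem InS.inter {X Y : Set M} (hX : InS X) (hY : InS Y) : InS (X ∩ Y) :=
  mkSet (.and (.mem (.var 1) hX.p) (.mem (.var 1) hY.p)) (by simp) (by intro x y; simp)

theorem InS.union {X Y : Set M} (hX : InS X) (hY : InS Y) : InS (X ∪ Y) :=
  mkSet (.or (.mem (.var 1) hX.p) (.mem (.var 1) hY.p)) (by simp) (by intro x y; simp)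

theorem InS.univ : InS (Set.univ : Set M) :=
  mkSet (.eq (.var 1) (.var 1)) (by simp) (by intro x y; simp)

theorem InS.empty : InS (∅ : Set M) :=
  mkSet (.neg (.eq (.var 1) (.var 1))) (by simp) (by intro x y; simp)

theorem raw_prod {A B : Set M} (hA : InS A) (hB : InS B) :
    InS {z | ∃ x y, z = pr x y ∧ x ∈ A ∧ y ∈ B} := by
  refine mkSet (.exle (.var 1) (.exle (.var 2) (.and (.eq (.var 3) (.pr (.var 1) (.var 0)))
    (.and (.mem (.var 1) hA.p) (.mem (.var 0) hB.p))))) (by simp) ?_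
  intro z _
  simp
  constructor
  · rintro ⟨a, _, b, _, h⟩
    exact ⟨a, b, h⟩
  · rintro ⟨a, b, h⟩
    exact ⟨a, h.1 ▸ le_pr_left a b, b, h.1 ▸ le_pr_right a b, h⟩

theorem raw_zero_one : InS {x : M | x = 0 ∨ x = 1} :=
  mkSet (.or (.eq (.var 1) (.par 0)) (.eq (.var 1) (.par 1))) (by simp) (by intro x y; simp)

theorem raw_comp {A G P : Set M} (hA : InS A) (hG : InS G) (hP : InS P)
    (h1 : ∀ m ∈ A, ∃! b, pr m b ∈ G) (h2 : ∀ m b, pr m b ∈ G → m ∈ A) :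
    InS {m | ∃ b, pr m b ∈ G ∧ b ∈ P} := by
  have hX : InS {z | ∃ m b, z = pr m b ∧ pr m b ∈ G ∧ b ∈ P} := by
    refine mkSet (.exle (.var 1) (.exle (.var 2) (.and (.eq (.var 3) (.pr (.var 1) (.var 0)))
      (.and (.mem (.pr (.var 1) (.var 0)) hG.p) (.mem (.var 0) hP.p))))) (by simp) ?_
    intro z _
    simp
    constructor
    · rintro ⟨a, _, b, _, h⟩
      exact ⟨a, b, h⟩
    · rintro ⟨a, b, h⟩
      exact ⟨a, h.1 ▸ le_pr_left a b, b, h.1 ▸ le_pr_right a b, h⟩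
  have hY : InS {z | ∃ m b, z = pr m b ∧ (m ∉ A ∨ (pr m b ∈ G ∧ b ∉ P))} := by
    refine mkSet (.exle (.var 1) (.exle (.var 2) (.and (.eq (.var 3) (.pr (.var 1) (.var 0)))
      (.or (.neg (.mem (.var 1) hA.p)) (.and (.mem (.pr (.var 1) (.var 0)) hG.p)
      (.neg (.mem (.var 0) hP.p))))))) (by simp) ?_
    intro z _
    simp
    constructor
    · rintro ⟨a, _, b, _, h⟩
      exact ⟨a, b, h⟩
    · rintro ⟨a, b, h⟩
      exact ⟨a, h.1 ▸ le_pr_left a b, b, h.1 ▸ le_pr_right a b, h⟩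
  have := mkSet1 hX hY (by
    intro x
    simp only [Set.mem_ofPred_eq, pr_inj_iff]
    constructor
    · rintro ⟨y, m, b, ⟨rfl, rfl⟩, h, h'⟩ ⟨y', m', b', ⟨rfl, rfl⟩, h''⟩
      rcases h'' with h'' | h''
      · exact h'' (h2 _ _ h)
      · obtain ⟨b, hb, hu⟩ := h1 _ (h2 _ _ h)
        have e1 := hu _ h
        have e2 := hu _ h''.1
        subst e1; subst e2
        exact h''.2 h'
    · intro h
      push Not at h
      have hx : x ∈ A := (h 0 x 0 ⟨rfl, rfl⟩).1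
      obtain ⟨b, hb, hu⟩ := h1 _ hx
      exact ⟨b, x, b, ⟨rfl, rfl⟩, hb, (h b x b ⟨rfl, rfl⟩).2 hb⟩)
  convert this using 1
  ext m
  simp only [Set.mem_ofPred_eq, pr_inj_iff]
  constructor
  · rintro ⟨b, h⟩
    exact ⟨b, m, b, ⟨rfl, rfl⟩, h⟩
  · rintro ⟨y, m, b, ⟨rfl, rfl⟩, h⟩
    exact ⟨y, h⟩

theorem raw_pair {G H : Set M} (hG : InS G) (hH : InS H) :
    InS {z | ∃ c a b, z = pr c (pr a b) ∧ pr c a ∈ G ∧ pr c b ∈ H} := by
  refine mkSet (.exle (.var 1) (.exle (.var 2) (.exle (.var 3)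
    (.and (.eq (.var 4) (.pr (.var 2) (.pr (.var 1) (.var 0))))
    (.and (.mem (.pr (.var 2) (.var 1)) hG.p) (.mem (.pr (.var 2) (.var 0)) hH.p)))))) (by simp) ?_
  intro z _
  simp
  constructor
  · rintro ⟨c, _, a, _, b, _, h⟩
    exact ⟨c, a, b, h⟩
  · rintro ⟨c, a, b, h⟩
    refine ⟨c, h.1 ▸ le_pr_left c _, a, ?_, b, ?_, h⟩
    · rw [h.1]; exact (le_pr_left a b).trans (le_pr_right c _)
    · rw [h.1]; exact (le_pr_right a b).trans (le_pr_right c _)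

theorem raw_comp_fst {G C : Set M} (hG : InS G) (hC : InS C) :
    InS {z | ∃ a c b, z = pr (pr a c) b ∧ pr a b ∈ G ∧ c ∈ C} := by
  refine mkSet (.exle (.var 1) (.exle (.var 2) (.exle (.var 3)
    (.and (.eq (.var 4) (.pr (.pr (.var 2) (.var 1)) (.var 0)))
    (.and (.mem (.pr (.var 2) (.var 0)) hG.p) (.mem (.var 1) hC.p)))))) (by simp) ?_
  intro z _
  simp
  constructor
  · rintro ⟨c, _, a, _, b, _, h⟩
    exact ⟨c, a, b, h⟩
  · rintro ⟨c, a, b, h⟩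
    refine ⟨c, ?_, a, ?_, b, h.1 ▸ le_pr_right _ b, h⟩
    · rw [h.1]; exact (le_pr_left c a).trans (le_pr_left _ _)
    · rw [h.1]; exact (le_pr_right c a).trans (le_pr_left _ _)

theorem raw_fst {A B : Set M} (hA : InS A) (hB : InS B) :
    InS {z | ∃ a b, z = pr (pr a b) a ∧ a ∈ A ∧ b ∈ B} := by
  refine mkSet (.exle (.var 1) (.exle (.var 2)
    (.and (.eq (.var 3) (.pr (.pr (.var 1) (.var 0)) (.var 1)))
    (.and (.mem (.var 1) hA.p) (.mem (.var 0) hB.p))))) (by simp) ?_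
  intro z _
  simp
  constructor
  · rintro ⟨a, _, b, _, h⟩
    exact ⟨a, b, h⟩
  · rintro ⟨a, b, h⟩
    refine ⟨a, ?_, b, ?_, h⟩
    · rw [h.1]; exact (le_pr_left a b).trans (le_pr_left _ _)
    · rw [h.1]; exact (le_pr_right a b).trans (le_pr_left _ _)

theorem raw_snd {A B : Set M} (hA : InS A) (hB : InS B) :
    InS {z | ∃ a b, z = pr (pr a b) b ∧ a ∈ A ∧ b ∈ B} := by
  refine mkSet (.exle (.var 1) (.exle (.var 2)
    (.and (.eq (.var 3) (.pr (.pr (.var 1) (.var 0)) (.var 0)))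
    (.and (.mem (.var 1) hA.p) (.mem (.var 0) hB.p))))) (by simp) ?_
  intro z _
  simp
  constructor
  · rintro ⟨a, _, b, _, h⟩
    exact ⟨a, b, h⟩
  · rintro ⟨a, b, h⟩
    refine ⟨a, ?_, b, ?_, h⟩
    · rw [h.1]; exact (le_pr_left a b).trans (le_pr_left _ _)
    · rw [h.1]; exact (le_pr_right a b).trans (le_pr_left _ _)

theorem raw_diag {A : Set M} (hA : InS A) : InS {z | ∃ a, z = pr a a ∧ a ∈ A} := by
  refine mkSet (.exle (.var 1) (.and (.eq (.var 2) (.pr (.var 0) (.var 0)))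
    (.mem (.var 0) hA.p))) (by simp) ?_
  intro z _
  simp
  constructor
  · rintro ⟨a, _, h⟩
    exact ⟨a, h⟩
  · rintro ⟨a, h⟩
    exact ⟨a, h.1 ▸ le_pr_left a a, h⟩

theorem raw_const {A : Set M} (hA : InS A) (c : M) : InS {z | ∃ a, z = pr a c ∧ a ∈ A} := by
  refine mkSet (.exle (.var 1) (.and (.eq (.var 2) (.pr (.var 0) (.par c)))
    (.mem (.var 0) hA.p))) (by simp) ?_
  intro z _
  simp
  constructor
  · rintro ⟨a, _, h⟩
    exact ⟨a, h⟩
  · rintro ⟨a, h⟩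
    exact ⟨a, h.1 ▸ le_pr_left a c, h⟩

theorem raw_add : InS {z : M | ∃ a b, z = pr (pr a b) (a + b)} := by
  refine mkSet (.exle (.var 1) (.exle (.var 2)
    (.eq (.var 3) (.pr (.pr (.var 1) (.var 0)) (.add (.var 1) (.var 0)))))) (by simp) ?_
  intro z _
  simp
  constructor
  · rintro ⟨a, _, b, _, h⟩
    exact ⟨a, b, h⟩
  · rintro ⟨a, b, h⟩
    refine ⟨a, ?_, b, ?_, h⟩
    · rw [h]; exact (le_pr_left a b).trans (le_pr_left _ _)
    · rw [h]; exact (le_pr_right a b).trans (le_pr_left _ _)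

theorem raw_mul : InS {z : M | ∃ a b, z = pr (pr a b) (a * b)} := by
  refine mkSet (.exle (.var 1) (.exle (.var 2)
    (.eq (.var 3) (.pr (.pr (.var 1) (.var 0)) (.mul (.var 1) (.var 0)))))) (by simp) ?_
  intro z _
  simp
  constructor
  · rintro ⟨a, _, b, _, h⟩
    exact ⟨a, b, h⟩
  · rintro ⟨a, b, h⟩
    refine ⟨a, ?_, b, ?_, h⟩
    · rw [h]; exact (le_pr_left a b).trans (le_pr_left _ _)
    · rw [h]; exact (le_pr_right a b).trans (le_pr_left _ _)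

theorem raw_lt : InS {z : M | ∃ a b, z = pr a b ∧ a < b} := by
  refine mkSet (.exle (.var 1) (.exle (.var 2)
    (.and (.eq (.var 3) (.pr (.var 1) (.var 0))) (.lt (.var 1) (.var 0))))) (by simp) ?_
  intro z _
  simp
  constructor
  · rintro ⟨a, _, b, _, h⟩
    exact ⟨a, b, h⟩
  · rintro ⟨a, b, h⟩
    exact ⟨a, h.1 ▸ le_pr_left a b, b, h.1 ▸ le_pr_right a b, h⟩

theorem raw_ball {P : Set M} (hP : InS P) :
    InS {z : M | ∃ a b, z = pr a b ∧ ∀ x, x < b → pr a x ∈ P} := by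
  refine mkSet (.exle (.var 1) (.exle (.var 2)
    (.and (.eq (.var 3) (.pr (.var 1) (.var 0)))
    (.ball (.var 0) (.mem (.pr (.var 2) (.var 0)) hP.p))))) (by simp) ?_
  intro z _
  simp
  constructor
  · rintro ⟨a, _, b, _, h⟩
    exact ⟨a, b, h⟩
  · rintro ⟨a, b, h⟩
    exact ⟨a, h.1 ▸ le_pr_left a b, b, h.1 ▸ le_pr_right a b, h⟩

theorem raw_prop {A P : Set M} (hA : InS A) (hP : InS P) :
    InS {z : M | ∃ a, a ∈ A ∧ ((z = pr a 1 ∧ a ∈ P) ∨ (z = pr a 0 ∧ a ∉ P))} := by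
  refine mkSet (.exle (.var 1) (.and (.mem (.var 0) hA.p)
    (.or (.and (.eq (.var 2) (.pr (.var 0) (.par 1))) (.mem (.var 0) hP.p))
    (.and (.eq (.var 2) (.pr (.var 0) (.par 0))) (.neg (.mem (.var 0) hP.p)))))) (by simp) ?_
  intro z _
  simp
  constructor
  · rintro ⟨a, _, h⟩
    exact ⟨a, h⟩
  · rintro ⟨a, h1, h2⟩
    refine ⟨a, ?_, h1, h2⟩
    rcases h2 with h2 | h2
    · rw [h2.1]; exact le_pr_left _ _
    · rw [h2.1]; exact le_pr_left _ _

theorem raw_section {P : Set M} (hP : InS P) (c : M) : InS {a : M | pr a c ∈ P} :=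
  mkSet (.mem (.pr (.var 1) (.par c)) hP.p) trivial (by intro x y; simp)

end raw

end Pool.Agent.H75.RM
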