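import Pool.Agent.H75.RM.Sigma

universe u v w x

set_option linter.unusedSectionVars false

namespace Pool.Agent.H75.RM

section rem
variable {M : Type u} [Model M]
variable {α : Type v} {β : Type w} {γ : Type x} [Coded M α] [Coded M β] [Coded M γ]

theorem le_mul_of_pos_right' {q m : M} (h : 0 < m) : q ≤ q * m :=
  le_mul_of_one_le_right zero_le (one_le_iff.2 h)

theorem isRem_unique {a m r r' : M} (h : IsRem a m r) (h' : IsRem a m r') : r = r' := by
  have key : ∀ q q' r r' : M, r < m → q * m + r = q' * m + r' → ¬ q < q' := by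
    intro q q' r r' hr he hq
    have h1 : (q + 1) * m ≤ q' * m := by
      have := succ_le_iff.2 hq
      gcongr
    have h2 : q * m + r < (q + 1) * m := by
      rw [add_mul, one_mul]
      gcongr
    have h3 : q' * m ≤ q' * m + r' := le_add_of_nonneg_right zero_le
    have := (h2.trans_le h1).trans_le h3
    exact absurd he (ne_of_lt this)
  obtain ⟨h1, q, hq⟩ := h
  obtain ⟨h1', q', hq'⟩ := h'
  have he : q * m + r = q' * m + r' := hq.symm.trans hq'
  have : q = q' := by
    rcases lt_trichotomy q q' with h2 | h2 | h2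
    · exact absurd h2 (key _ _ _ _ h1 he)
    · exact h2
    · exact absurd h2 (key _ _ _ _ h1' he.symm)
  rw [this] at he
  exact add_left_cancel he

theorem isRem_iff {a m r : M} : IsRem a m r ↔ r < m ∧ ∃ q, q ≤ a ∧ a = q * m + r := by
  constructor
  · rintro ⟨h, q, hq⟩
    refine ⟨h, q, ?_, hq⟩
    rw [hq]
    calc q ≤ q * m := le_mul_of_pos_right' (lt_of_le_of_lt zero_le h)
      _ ≤ _ := le_add_of_nonneg_right zero_le
  · rintro ⟨h, q, _, hq⟩
    exact ⟨h, q, hq⟩

@[fun_prop]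
theorem Rec.isRem {a m r : α → M} (ha : Rec M a) (hm : Rec M m) (hr : Rec M r) :
    Rec M (fun z => IsRem (a z) (m z) (r z)) := by
  refine Rec.congr (f := fun z => r z < m z ∧ ∃ q, q ≤ a z ∧ a z = q * m z + r z) (by fun_prop) ?_
  intro z
  rw [isRem_iff]

theorem exists_rem {m : M} (hm : 0 < m) (a : M) : ∃ r, IsRem a m r := by
  have : ∀ a, ∃ r, r < m ∧ IsRem a m r := by
    refine rec_induction (P := fun a => ∃ r, r < m ∧ IsRem a m r) (by fun_prop) ?_ ?_
    · exact ⟨0, hm, hm, 0, by simp⟩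
    · rintro a ⟨r, _, hr, q, hq⟩
      rcases (succ_le_iff.2 hr).lt_or_eq with h | h
      · exact ⟨r + 1, h, h, q, by rw [hq]; ring⟩
      · refine ⟨0, hm, hm, q + 1, ?_⟩
        rw [hq, ← h]; ring
  obtain ⟨r, _, hr⟩ := this a
  exact ⟨r, hr⟩

/-- common multiples -/
theorem exists_common_multiple (n : M) :
    ∃ B, 0 < B ∧ ∀ i, i ≤ n → 0 < i → ∃ q, B = q * i := by
  have : ∀ n : M, ∃ B, 0 < B ∧ ∀ i, i ≤ n → 0 < i → ∃ q, q ≤ B ∧ B = q * i := by
    refine sg_induction (P := fun n => ∃ B, 0 < B ∧ ∀ i, i ≤ n → 0 < i → ∃ q, q ≤ B ∧ B = q * i)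
      (Sg.exM (Rec.sg (by fun_prop))) ?_ ?_
    · exact ⟨1, zero_lt_one, fun i hi hi' => absurd hi (not_le.2 hi')⟩
    · rintro n ⟨B, hB, h⟩
      refine ⟨B * (n + 1), mul_pos hB (lt_of_le_of_lt zero_le (lt_succ_self n)), ?_⟩
      intro i hi hi'
      rcases hi.lt_or_eq with h1 | rfl
      · obtain ⟨q, _, hq⟩ := h i (lt_succ_iff.1 h1) hi'
        have he : B * (n + 1) = q * (n + 1) * i := by rw [hq]; ring
        exact ⟨q * (n + 1), by rw [he]; exact le_mul_of_pos_right' hi', he⟩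
      · exact ⟨B, le_mul_of_pos_right' hi', rfl⟩
  obtain ⟨B, hB, h⟩ := this n
  exact ⟨B, hB, fun i hi hi' => by obtain ⟨q, _, hq⟩ := h i hi hi'; exact ⟨q, hq⟩⟩

theorem beta_coprime {b i j δ e : M} (hi : i = j + δ) (hb : b = δ * e) :
    ∃ u q, u * (1 + (j + 1) * b) = q * (1 + (i + 1) * b) + 1 := by
  refine ⟨1 + (j + 1) * (i + 1) * e * ((i + 1) * b),
    (j + 1) * e * (δ + (i + 1) * (j + 1) * b), ?_⟩
  subst hi; subst hb
  ring

/-- the product modulus -/
theorem exists_modulus (n b : M) (hb : ∀ i, i ≤ n → 0 < i → ∃ q, b = q * i) (j : M) (hj : j ≤ n) :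
    ∃ P, (∀ i, i < j → ∃ q, P = q * (1 + (i + 1) * b)) ∧
      (∀ i, i < n → j ≤ i → ∃ u q, u * P = q * (1 + (i + 1) * b) + 1) := by
  have : ∀ j : M, j ≤ n → ∃ P, (∀ i, i < j → ∃ q, P = q * (1 + (i + 1) * b)) ∧
      (∀ i, i < n → j ≤ i → ∃ u q, u * P = q * (1 + (i + 1) * b) + 1) := by
    refine sg_induction (P := fun j => j ≤ n → ∃ P, (∀ i, i < j → ∃ q, P = q * (1 + (i + 1) * b)) ∧
      (∀ i, i < n → j ≤ i → ∃ u q, u * P = q * (1 + (i + 1) * b) + 1)) ?_ ?_ ?_
    · have h1 : Sg M (fun j : M => n < j ∨ ∃ P, (∀ i, i < j → ∃ q, P = q * (1 + (i + 1) * b)) ∧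
          (∀ i, i < n → (i < j ∨ ∃ u q, u * P = q * (1 + (i + 1) * b) + 1))) := by
        refine Sg.or (Rec.sg (by fun_prop)) (Sg.exM (Sg.and ?_ ?_))
        · refine Sg.ball (b := fun p : M × M => p.1)
            (P := fun (p : M × M) i => ∃ q, p.2 = q * (1 + (i + 1) * b)) (by fun_prop) ?_
          exact Sg.exM (Rec.sg (by fun_prop))
        · refine Sg.ball (b := fun p : M × M => n)
            (P := fun (p : M × M) i => (i < p.1 ∨ ∃ u q, u * p.2 = q * (1 + (i + 1) * b) + 1))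
            (by fun_prop) ?_
          refine Sg.or (Rec.sg (by fun_prop)) (Sg.exM (Sg.exM (Rec.sg (by fun_prop))))
      refine h1.congr ?_
      intro j
      constructor
      · rintro (h2 | ⟨P, h2, h3⟩) h4
        · exact absurd h4 (not_le.2 h2)
        · refine ⟨P, h2, fun i hi hi' => ?_⟩
          rcases h3 i hi with h5 | h5
          · exact absurd hi' (not_le.2 h5)
          · exact h5
      · intro h2
        by_cases h4 : j ≤ n
        · obtain ⟨P, h5, h6⟩ := h2 h4
          right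
          refine ⟨P, h5, fun i hi => ?_⟩
          by_cases h7 : i < j
          · exact Or.inl h7
          · exact Or.inr (h6 i hi (not_lt.1 h7))
        · exact Or.inl (not_le.1 h4)
    · intro _
      exact ⟨1, fun i hi => absurd hi (not_lt_zero' i), fun i _ _ => ⟨1, 0, by ring⟩⟩
    · intro j ih hj
      obtain ⟨P, h1, h2⟩ := ih ((le_of_lt (lt_succ_self j)).trans hj)
      refine ⟨P * (1 + (j + 1) * b), ?_, ?_⟩
      · intro i hi
        rcases (lt_succ_iff.1 hi).lt_or_eq with h3 | rfl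
        · obtain ⟨q, hq⟩ := h1 i h3
          exact ⟨q * (1 + (j + 1) * b), by rw [hq]; ring⟩
        · exact ⟨P, rfl⟩
      · intro i hi hi'
        have hji : j < i := succ_le_iff.1 hi'
        obtain ⟨u, q, huq⟩ := h2 i hi (le_of_lt hji)
        obtain ⟨δ, hδ⟩ := exists_add_of_le (le_of_lt hji)
        have hδ0 : 0 < δ := by
          rw [pos_iff]
          rintro rfl
          rw [add_zero] at hδ
          exact absurd hδ (ne_of_gt hji)
        have hδn : δ ≤ n := by
          have : δ ≤ i := by rw [hδ]; exact le_add_of_nonneg_left zero_le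
          exact this.trans (le_of_lt hi)
        obtain ⟨e, he⟩ := hb δ hδn hδ0
        obtain ⟨u', q', huq'⟩ := beta_coprime (b := b) hδ (he.trans (mul_comm e δ))
        refine ⟨u * u', q * q' * (1 + (i + 1) * b) + q + q', ?_⟩
        calc u * u' * (P * (1 + (j + 1) * b)) = (u * P) * (u' * (1 + (j + 1) * b)) := by ring
          _ = (q * (1 + (i + 1) * b) + 1) * (q' * (1 + (i + 1) * b) + 1) := by rw [huq, huq']
          _ = _ := by ring
  exact this j hj

/-- Gödel's beta lemma in a model of `RCA₀`. -/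
theorem beta_lemma {f : M → M} (hf : Rec M f) (n : M) :
    ∃ a b, ∀ i, i < n → IsRem a (1 + (i + 1) * b) (f i) := by
  obtain ⟨B, hB0, hB⟩ := exists_common_multiple n
  obtain ⟨F, hF⟩ := sg_collection (P := fun i m => f i = m) (Rec.sg (by fun_prop)) n
    (fun x _ => ⟨f x, rfl⟩)
  have hF' : ∀ i, i < n → f i < F := by
    intro i hi
    obtain ⟨m, hm, h⟩ := hF i hi
    rw [h]; exact hm
  obtain ⟨b, hb⟩ : ∃ b, b = B * (F + 1) := ⟨_, rfl⟩
  have hbF : F < b := by
    rw [hb, mul_comm]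
    exact lt_of_lt_of_le (lt_succ_self F) (le_mul_of_pos_right' hB0)
  have hdiv : ∀ i, i ≤ n → 0 < i → ∃ q, b = q * i := by
    intro i hi hi'
    obtain ⟨q, hq⟩ := hB i hi hi'
    exact ⟨q * (F + 1), by rw [hb, hq]; ring⟩
  have hlt : ∀ i, i < n → f i < 1 + (i + 1) * b := by
    intro i hi
    calc f i < F := hF' i hi
      _ ≤ b := le_of_lt hbF
      _ ≤ (i + 1) * b := le_mul_of_one_le_left zero_le (le_add_of_nonneg_left zero_le)
      _ ≤ _ := le_add_of_nonneg_left zero_le
  have main : ∀ j : M, ∃ a, ∀ i, i < n → i < j → IsRem a (1 + (i + 1) * b) (f i) := by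
    refine sg_induction (P := fun j => ∃ a, ∀ i, i < n → i < j → IsRem a (1 + (i + 1) * b) (f i)) ?_ ?_ ?_
    · exact Sg.exM (Rec.sg (by fun_prop))
    · exact ⟨0, fun i _ hi => absurd hi (not_lt_zero' i)⟩
    · rintro j ⟨a, ha⟩
      by_cases hj : j < n
      · obtain ⟨P, h1, h2⟩ := exists_modulus n b hdiv j (le_of_lt hj)
        obtain ⟨u, q, huq⟩ := h2 j hj le_rfl
        refine ⟨a + P * (u * (f j + (j + 1) * b * a)), ?_⟩
        intro i hi hij
        rcases (lt_succ_iff.1 hij).lt_or_eq with h3 | rfl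
        · obtain ⟨hr, q', hq'⟩ := ha i hi h3
          obtain ⟨q'', hq''⟩ := h1 i h3
          obtain ⟨z, hz⟩ : ∃ z, z = u * (f j + (j + 1) * b * a) := ⟨_, rfl⟩
          rw [← hz]
          refine ⟨hr, q' + q'' * z, ?_⟩
          calc a + P * z = (q' * (1 + (i + 1) * b) + f i) + q'' * (1 + (i + 1) * b) * z := by
                rw [← hq', ← hq'']
            _ = _ := by ring
        · refine ⟨hlt i hi, a + q * (f i + (i + 1) * b * a), ?_⟩
          calc a + P * (u * (f i + (i + 1) * b * a))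
              = a + (u * P) * (f i + (i + 1) * b * a) := by ring
            _ = a + (q * (1 + (i + 1) * b) + 1) * (f i + (i + 1) * b * a) := by rw [huq]
            _ = _ := by ring
      · exact ⟨a, fun i hi _ => ha i hi (lt_of_lt_of_le hi (not_lt.1 hj))⟩
  obtain ⟨a, ha⟩ := main n
  exact ⟨a, b, fun i hi => ha i hi hi⟩

end rem

end Pool.Agent.H75.RM
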