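import Pool.Agent.H75.RM.Strong

universe u v w x

set_option linter.unusedSectionVars false

namespace Pool.Agent.H75.RM

section fsadd
variable {M : Type u} [ACAModel M]
variable {α : Type v} {β : Type w} [Coded M α] [Coded M β]

/-- adding an element to a finite set -/
noncomputable def FS.add (X : FS M α) (a : α) : FS M α := fs M (fun x => x ∈ X ∨ x = a)

theorem FS.mem_add {X : FS M α} {a x : α} : x ∈ X.add a ↔ x ∈ X ∨ x = a :=
  mem_fs (by fun_prop) (X.bdd_mem.or (Bdd.eq a))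

@[fun_prop]
theorem FS.rec_add {f : β → FS M α} {g : β → α} (hf : Rec M f) (hg : Rec M g) :
    Rec M (fun b => (f b).add (g b)) := by
  unfold FS.add
  fun_prop

/-- separation -/
noncomputable def FS.sep (X : FS M α) (P : α → Prop) : FS M α := fs M (fun x => x ∈ X ∧ P x)

theorem FS.mem_sep {X : FS M α} {P : α → Prop} (hP : Rec M P) {x : α} :
    x ∈ X.sep P ↔ x ∈ X ∧ P x :=
  mem_fs (by fun_prop) (X.bdd_mem.mono fun _ h => h.1)

theorem rec_cons' {n : ℕ} {f : α → β} {g : α → Fin n → β} (hf : Rec M f) (hg : Rec M g) :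
    Rec M (fun a => (Fin.cons (f a) (g a) : Fin (n + 1) → β)) := by
  refine Rec.pi (fun i => ?_)
  refine Fin.cases ?_ (fun j => ?_) i
  · simpa using hf
  · simp only [Fin.cons_succ]
    fun_prop

end fsadd

/-- the data: trees `T_i`, a further tree `W` and a colouring of their level product -/
structure Setup (M : Type u) [ACAModel M] (d : ℕ) where
  T : Fin d → Sq M → Prop
  W : Sq M → Prop
  c : (Fin d → Sq M) × Sq M → M
  k : M
  hT : ∀ i, TreeP (T i)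
  hW : TreeP W
  hc : Rec M c
  hk : ∀ s w n, (∀ i, T i (s i) ∧ (s i).len = n) → W w → w.len = n → c (s, w) < k

/-- matrices -/
abbrev Mtx (M : Type u) [ACAModel M] (d : ℕ) := Fin d → FS M (Sq M)

/-- conditions: pairs of a matrix and a finite set of constraints -/
abbrev Cnd (M : Type u) [ACAModel M] (d : ℕ) :=
  (Fin d → FS M (Sq M)) × FS M ((Fin d → Sq M) × Sq M × M)

namespace Setup
variable {M : Type u} [ACAModel M] {d : ℕ} (E : Setup M d)
variable {α : Type v} [Coded M α]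

@[fun_prop]
theorem rec_T (i : Fin d) {f : α → Sq M} (hf : Rec M f) : Rec M (fun a => E.T i (f a)) :=
  (E.hT i).hrec.comp hf

@[fun_prop]
theorem rec_W {f : α → Sq M} (hf : Rec M f) : Rec M (fun a => E.W (f a)) :=
  E.hW.hrec.comp hf

@[fun_prop]
theorem rec_c {f : α → (Fin d → Sq M) × Sq M} (hf : Rec M f) : Rec M (fun a => E.c (f a)) :=
  E.hc.comp hf

/-- `X` is `n`-dense above `U` -/
def Dense (i : Fin d) (U : FS M (Sq M)) (n : M) (X : FS M (Sq M)) : Prop :=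
  ∀ u, u ∈ U → ∀ v, E.T i v → u ≤ v → v.len = max n u.len → ∃ x, x ∈ X ∧ v ≤ x

/-- the constraints in `Q` are satisfied by the matrix `X` of level `m` -/
def Good (Q : FS M ((Fin d → Sq M) × Sq M × M)) (m : M) (X : Fin d → FS M (Sq M)) : Prop :=
  ∀ w, E.W w → w.len ≤ m → ∃ w', E.W w' ∧ w ≤ w' ∧ w'.len = m ∧
    ∀ (t : Fin d → Sq M) (j : M), (t, w, j) ∈ Q →
      ∀ s : Fin d → Sq M, (∀ i, s i ∈ X i) → (∀ i, t i ≤ s i) → E.c (s, w') = j

/-- `X` is a matrix of level `m` for the condition `p` and `n` -/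
def Mat (p : Cnd M d) (n m : M) (X : Fin d → FS M (Sq M)) : Prop :=
  n ≤ m ∧ (∀ i x, x ∈ X i → E.T i x ∧ x.len = m) ∧ (∀ i, E.Dense i (p.1 i) n (X i)) ∧
    E.Good p.2 m X

/-- conditions -/
def IsCond (p : Cnd M d) : Prop :=
  (∀ i u, u ∈ p.1 i → E.T i u) ∧ (∀ i u u', u ∈ p.1 i → u' ∈ p.1 i → u ≤ u' → u = u') ∧
    ∀ n, ∃ m X, E.Mat p n m X

theorem Rec.Dense (i : Fin d) {U X : α → FS M (Sq M)} {n : α → M} (hU : Rec M U) (hX : Rec M X)
    (hn : Rec M n) : Rec M (fun a => E.Dense i (U a) (n a) (X a)) := by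
  unfold Setup.Dense
  fun_prop

@[fun_prop]
theorem Rec.Mat {p : α → Cnd M d} {n m : α → M} {X : α → Fin d → FS M (Sq M)}
    (hp : Rec M p) (hn : Rec M n) (hm : Rec M m) (hX : Rec M X) :
    Rec M (fun a => E.Mat (p a) (n a) (m a) (X a)) := by
  unfold Setup.Mat Setup.Dense Setup.Good
  fun_prop

@[fun_prop]
theorem Rec.IsCond {p : α → Cnd M d} (hp : Rec M p) : Rec M (fun a => E.IsCond (p a)) := by
  unfold Setup.IsCond
  fun_prop

end Setup

/-- `p'` refines `p` -/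
def Ref {M : Type u} [ACAModel M] {d : ℕ} (p' p : Cnd M d) : Prop :=
  (∀ i u', u' ∈ p'.1 i → ∃ u, u ∈ p.1 i ∧ u ≤ u') ∧
    (∀ i u, u ∈ p.1 i → ∃ u', u' ∈ p'.1 i ∧ u ≤ u') ∧ ∀ q, q ∈ p.2 → q ∈ p'.2

/-- every node of `p` has at most one node of `p'` above it -/
def One {M : Type u} [ACAModel M] {d : ℕ} (p' p : Cnd M d) : Prop :=
  ∀ i u u' u'', u ∈ p.1 i → u' ∈ p'.1 i → u'' ∈ p'.1 i → u ≤ u' → u ≤ u'' → u' = u''

section ref
variable {M : Type u} [ACAModel M] {d : ℕ} (E : Setup M d)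
variable {α : Type v} [Coded M α]

@[fun_prop]
theorem Rec.Ref {p q : α → Cnd M d} (hp : Rec M p) (hq : Rec M q) :
    Rec M (fun a => RM.Ref (p a) (q a)) := by
  unfold RM.Ref
  fun_prop

@[fun_prop]
theorem Rec.One {p q : α → Cnd M d} (hp : Rec M p) (hq : Rec M q) :
    Rec M (fun a => RM.One (p a) (q a)) := by
  unfold RM.One
  fun_prop

theorem Ref.refl (p : Cnd M d) : Ref p p :=
  ⟨fun _ u hu => ⟨u, hu, le_rfl⟩, fun _ u hu => ⟨u, hu, le_rfl⟩, fun _ h => h⟩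

theorem Ref.trans {p q r : Cnd M d} (h : Ref p q) (h' : Ref q r) : Ref p r := by
  refine ⟨?_, ?_, fun x hx => h.2.2 x (h'.2.2 x hx)⟩
  · intro i u hu
    obtain ⟨v, hv, hvu⟩ := h.1 i u hu
    obtain ⟨w, hw, hwv⟩ := h'.1 i v hv
    exact ⟨w, hw, hwv.trans hvu⟩
  · intro i u hu
    obtain ⟨v, hv, hvu⟩ := h'.2.1 i u hu
    obtain ⟨w, hw, hwv⟩ := h.2.1 i v hv
    exact ⟨w, hw, hvu.trans hwv⟩

theorem One.refl {p : Cnd M d} (hp : E.IsCond p) : One p p := by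
  intro i u u' u'' h h' h'' h1 h2
  rw [← hp.2.1 i u u' h h' h1, ← hp.2.1 i u u'' h h'' h2]

theorem One.trans {p q r : Cnd M d} (hr : E.IsCond r) (h1 : Ref p q) (h2 : Ref q r)
    (h : One p q) (h' : One q r) : One p r := by
  have key : ∀ i u u', u ∈ r.1 i → u' ∈ p.1 i → u ≤ u' → ∃ v, v ∈ q.1 i ∧ u ≤ v ∧ v ≤ u' := by
    intro i u u' hu hu' hle
    obtain ⟨v, hv, hvu⟩ := h1.1 i u' hu'
    obtain ⟨u0, hu0, hu0v⟩ := h2.1 i v hv
    have : u0 = u := by
      rcases Sq.le_total' (hu0v.trans hvu) hle with h3 | h3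
      · exact hr.2.1 i _ _ hu0 hu h3
      · exact (hr.2.1 i _ _ hu hu0 h3).symm
    exact ⟨v, hv, this ▸ hu0v, hvu⟩
  intro i u u' u'' hu hu' hu'' hle hle'
  obtain ⟨v, hv, h3, h4⟩ := key i u u' hu hu' hle
  obtain ⟨v', hv', h5, h6⟩ := key i u u'' hu hu'' hle'
  have := h' i u v v' hu hv hv' h3 h5
  subst this
  exact h i v u' u'' hv hu' hu'' h4 h6

end ref

namespace Setup
variable {M : Type u} [ACAModel M] {d : ℕ} {E : Setup M d}

theorem Dense.le {i : Fin d} {U X : FS M (Sq M)} {n : M} (h : E.Dense i U n X) {u v : Sq M}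
    (hu : u ∈ U) (hv : E.T i v) (huv : u ≤ v) (hl : v.len ≤ max n u.len) :
    ∃ x, x ∈ X ∧ v ≤ x := by
  obtain ⟨v', h1, h2, h3⟩ := (E.hT i).extend hv _ hl
  obtain ⟨x, h4, h5⟩ := h u hu v' h1 (huv.trans h2) h3
  exact ⟨x, h4, h2.trans h5⟩

theorem Mat.mono {p : Cnd M d} {n m n' : M} {X : Fin d → FS M (Sq M)} (h : E.Mat p n m X)
    (hn : n' ≤ n) : E.Mat p n' m X := by
  refine ⟨hn.trans h.1, h.2.1, ?_, h.2.2.2⟩
  intro i u hu v hv huv hl
  exact (h.2.2.1 i).le hu hv huv (hl ▸ max_le_max hn le_rfl)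

/-- Refining the nodes of a condition gives a condition. -/
theorem IsCond.refine' {p : Cnd M d} (hp : E.IsCond p) {U : Fin d → FS M (Sq M)}
    (h1 : ∀ i u', u' ∈ U i → E.T i u' ∧ ∃ u, u ∈ p.1 i ∧ u ≤ u')
    (h2 : ∀ i u u', u ∈ U i → u' ∈ U i → u ≤ u' → u = u') : E.IsCond (U, p.2) := by
  refine ⟨fun i u hu => (h1 i u hu).1, h2, ?_⟩
  intro n
  obtain ⟨b, hb⟩ : ∃ b, ∀ i, ∀ u, u ∈ U i → u.len ≤ b := exists_bound_fin
    (P := fun i b => ∀ u, u ∈ U i → u.len ≤ b) (fun i => (U i).exists_len_bound)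
    (fun i b b' h3 h4 u hu => (h4 u hu).trans h3)
  obtain ⟨m, X, hX⟩ := hp.2.2 (max n b)
  refine ⟨m, X, (le_max_left _ _).trans hX.1, hX.2.1, ?_, hX.2.2.2⟩
  intro i u' hu' v hv huv hl
  obtain ⟨h3, u, hu, huu'⟩ := h1 i u' hu'
  refine (hX.2.2.1 i).le hu hv (huu'.trans huv) ?_
  rw [hl]
  exact (max_le_max le_rfl (hb i u' hu')).trans (le_max_left _ _)

/-- Decide one constraint. -/
theorem IsCond.decide (hF : FHL M d) {p : Cnd M d} (hp : E.IsCond p) (u : Fin d → Sq M)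
    (hu : ∀ i, u i ∈ p.1 i) (w : Sq M) (hw : E.W w) :
    ∃ p', E.IsCond p' ∧ Ref p' p ∧ One p' p ∧ ∃ (t : Fin d → Sq M) (j : M),
      (∀ i, t i ∈ p'.1 i) ∧ (∀ i, u i ≤ t i) ∧ j < E.k ∧ (t, w, j) ∈ p'.2 := by
  by_contra hcon
  let ex : (Fin d → Sq M) → M → Cnd M d := fun t j =>
    (fun i => fs M (fun x => (x ∈ p.1 i ∧ x ≠ u i) ∨ x = t i), p.2.add (t, w, j))
  have hex : Rec M (fun q : (Fin d → Sq M) × M => ex q.1 q.2) := by
    simp only [ex]
    fun_prop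
  have hmemU : ∀ (t : Fin d → Sq M) i x, x ∈ fs M (fun x => (x ∈ p.1 i ∧ x ≠ u i) ∨ x = t i) ↔
      ((x ∈ p.1 i ∧ x ≠ u i) ∨ x = t i) := fun t i x =>
    mem_fs (by fun_prop) (((p.1 i).bdd_mem.mono fun x h => h.1).or (Bdd.eq (t i)))
  have hTu : ∀ i, E.T i (u i) := fun i => hp.1 i _ (hu i)
  -- no extension is a condition
  have hno : ∀ (t : Fin d → Sq M) (j : M), (∀ i, E.T i (t i) ∧ u i ≤ t i) → j < E.k →
      ∃ n, ∀ m X, ¬ E.Mat (ex t j) n m X := by
    intro t j ht hj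
    by_contra h1
    push Not at h1
    have hanti : ∀ i u' u'', u' ∈ (ex t j).1 i → u'' ∈ (ex t j).1 i → u' ≤ u'' → u' = u'' := by
      intro i u' u'' h2 h3 h4
      rw [hmemU] at h2 h3
      rcases h2 with ⟨h2, h2'⟩ | h2
      · rcases h3 with ⟨h3, h3'⟩ | h3
        · exact hp.2.1 i _ _ h2 h3 h4
        · subst h3
          exfalso
          apply h2'
          rcases Sq.le_total' h4 (ht i).2 with h5 | h5
          · exact hp.2.1 i _ _ h2 (hu i) h5
          · exact (hp.2.1 i _ _ (hu i) h2 h5).symm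
      · rcases h3 with ⟨h3, h3'⟩ | h3
        · subst h2
          exact absurd (hp.2.1 i _ _ (hu i) h3 ((ht i).2.trans h4)).symm h3'
        · rw [h2, h3]
    apply hcon
    refine ⟨ex t j, ⟨?_, hanti, ?_⟩, ⟨?_, ?_, ?_⟩, ?_, t, j, ?_, fun i => (ht i).2, hj, ?_⟩
    · intro i x hx
      rw [hmemU] at hx
      rcases hx with hx | hx
      · exact hp.1 i x hx.1
      · rw [hx]; exact (ht i).1
    · intro n
      obtain ⟨m, X, h⟩ := h1 n
      exact ⟨m, X, h⟩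
    · intro i x hx
      rw [hmemU] at hx
      rcases hx with hx | hx
      · exact ⟨x, hx.1, le_rfl⟩
      · exact ⟨u i, hu i, hx ▸ (ht i).2⟩
    · intro i x hx
      by_cases h : x = u i
      · exact ⟨t i, (hmemU t i _).2 (Or.inr rfl), h ▸ (ht i).2⟩
      · exact ⟨x, (hmemU t i _).2 (Or.inl ⟨hx, h⟩), le_rfl⟩
    · intro q hq
      exact FS.mem_add.2 (Or.inl hq)
    · intro i x x' x'' hx hx' hx'' h3 h4
      rw [hmemU] at hx' hx''
      by_cases h : x = u i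
      · have h5 : ∀ y, ((y ∈ p.1 i ∧ y ≠ u i) ∨ y = t i) → x ≤ y → y = t i := by
          intro y hy hxy
          rcases hy with ⟨hy, hy'⟩ | hy
          · exact absurd ((hp.2.1 i _ _ hx hy hxy).symm.trans h) hy'
          · exact hy
        rw [h5 x' hx' h3, h5 x'' hx'' h4]
      · have h5 : ∀ y, ((y ∈ p.1 i ∧ y ≠ u i) ∨ y = t i) → x ≤ y → y = x := by
          intro y hy hxy
          rcases hy with ⟨hy, hy'⟩ | hy
          · exact (hp.2.1 i _ _ hx hy hxy).symm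
          · subst hy
            exfalso
            apply h
            rcases Sq.le_total' hxy (ht i).2 with h6 | h6
            · exact hp.2.1 i _ _ hx (hu i) h6
            · exact (hp.2.1 i _ _ (hu i) hx h6).symm
        rw [h5 x' hx' h3, h5 x'' hx'' h4]
    · intro i
      exact (hmemU t i _).2 (Or.inr rfl)
    · exact FS.mem_add.2 (Or.inr rfl)
  -- the function `G`
  have hGex : ∀ l : M, ∃ g, l < g ∧ ∀ t : Fin d → Sq M,
      (∀ i, (E.T i (t i) ∧ (t i).len = max l (u i).len) ∧ u i ≤ t i) →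
      ∀ j, j < E.k → ∀ m X, ¬ E.Mat (ex t j) g m X := by
    intro l
    have hb : Bdd M (fun q : (Fin d → Sq M) × M =>
        (∀ i, (E.T i (q.1 i) ∧ (q.1 i).len = max l (u i).len) ∧ u i ≤ q.1 i) ∧ q.2 < E.k) :=
      Bdd.prod (P := fun t : Fin d → Sq M =>
        (∀ i, (E.T i (t i) ∧ (t i).len = max l (u i).len) ∧ u i ≤ t i)) (Q := fun j => j < E.k)
        (Bdd.pi (P := fun i x => (E.T i x ∧ x.len = max l (u i).len) ∧ u i ≤ x) fun i =>
          ((E.hT i).bdd_level (max l (u i).len)).mono fun x hx => hx.1) (Bdd.lt E.k)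
    obtain ⟨B, hB⟩ := Bdd.collection (M := M) (P := fun q : (Fin d → Sq M) × M =>
        (∀ i, (E.T i (q.1 i) ∧ (q.1 i).len = max l (u i).len) ∧ u i ≤ q.1 i) ∧ q.2 < E.k)
        (by fun_prop) hb (R := fun (q : (Fin d → Sq M) × M) (n : M) =>
          ∀ m X, ¬ E.Mat (ex q.1 q.2) n m X) (by fun_prop) (by
          rintro ⟨t, j⟩ ⟨h1, h2⟩
          exact hno t j (fun i => ⟨(h1 i).1.1, (h1 i).2⟩) h2)
    refine ⟨max (l + 1) B, (lt_succ_self l).trans_le (le_max_left _ _), ?_⟩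
    intro t ht j hj m X hM
    obtain ⟨n, hn, h3⟩ := hB (t, j) ⟨ht, hj⟩
    exact h3 m X (hM.mono (hn.le.trans (le_max_right _ _)))
  have hInh : Inhabited M := ⟨0⟩
  have hInh' : Inhabited (Sq M) := ⟨Sq.nil⟩
  obtain ⟨G, hG, hG'⟩ := rec_choice (M := M) (R := fun l g : M => l < g ∧ ∀ t : Fin d → Sq M,
      (∀ i, (E.T i (t i) ∧ (t i).len = max l (u i).len) ∧ u i ≤ t i) →
      ∀ j, j < E.k → ∀ m X, ¬ E.Mat (ex t j) g m X) (by fun_prop)
  replace hG' := fun l => hG' l (hGex l)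
  obtain ⟨l, hl, hl0, hls⟩ := exists_rec_fun' (M := M) (x0 := (0 : M))
    (h := fun q : M × M => G q.2) (by fun_prop)
  have hlt1 : ∀ r, l r < l (r + 1) := by
    intro r
    rw [hls]
    exact (hG' (l r)).1
  have hlt : ∀ r' r, r < r' → l r < l r' := by
    refine rec_induction (P := fun r' => ∀ r, r < r' → l r < l r') (by fun_prop) ?_ ?_
    · intro r hr
      exact absurd hr (not_lt_zero' _)
    · intro r' ih r hr
      rcases (lt_succ_iff.1 hr).lt_or_eq with h1 | h1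
      · exact (ih r h1).trans (hlt1 r')
      · rw [h1]; exact hlt1 r'
  have hle : ∀ r r', r ≤ r' → l r ≤ l r' := by
    intro r r' h
    rcases h.lt_or_eq with h1 | h1
    · exact (hlt r' r h1).le
    · rw [h1]
  -- matrices
  obtain ⟨K, hK, hK'⟩ := rec_choice (M := M)
    (R := fun (r : M) (q : M × (Fin d → FS M (Sq M))) => E.Mat p (max (l r) w.len) q.1 q.2)
    (by fun_prop)
  replace hK' : ∀ r, E.Mat p (max (l r) w.len) (K r).1 (K r).2 := by
    intro r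
    obtain ⟨m, X, h⟩ := hp.2.2 (max (l r) w.len)
    exact hK' r ⟨(m, X), h⟩
  -- extensions of `w`
  obtain ⟨ω, hω, hω'⟩ := rec_choice (M := M) (R := fun (r : M) (w' : Sq M) => E.W w' ∧ w ≤ w' ∧
      w'.len = (K r).1 ∧ ∀ (t : Fin d → Sq M) (j : M), (t, w, j) ∈ p.2 →
      ∀ s : Fin d → Sq M, (∀ i, s i ∈ (K r).2 i) → (∀ i, t i ≤ s i) → E.c (s, w') = j)
    (by fun_prop)
  replace hω' := fun r => hω' r ((hK' r).2.2.2 w hw ((le_max_right _ _).trans (hK' r).1))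
  -- elements of the matrices
  have hφ : ∀ i, ∃ f : M × Sq M → Sq M, Rec M f ∧ ∀ q : M × Sq M,
      (∃ x, x ∈ (K q.1).2 i ∧ q.2 ≤ x) → f q ∈ (K q.1).2 i ∧ q.2 ≤ f q := by
    intro i
    exact rec_choice (M := M) (R := fun (q : M × Sq M) (x : Sq M) => x ∈ (K q.1).2 i ∧ q.2 ≤ x)
      (by fun_prop)
  choose φ hφ hφ' using hφ
  -- the levels
  let L : Fin d → M → FS M (Sq M) := fun i r =>
    fs M (fun v => (E.T i v ∧ v.len = max (l r) (u i).len) ∧ u i ≤ v)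
  have hL : ∀ i r v, v ∈ L i r ↔ (E.T i v ∧ v.len = max (l r) (u i).len) ∧ u i ≤ v := by
    intro i r v
    exact mem_fs (P := fun v => (E.T i v ∧ v.len = max (l r) (u i).len) ∧ u i ≤ v) (by fun_prop)
      (Bdd.mono (P := fun v => E.T i v ∧ v.len = max (l r) (u i).len)
        ((E.hT i).bdd_level (max (l r) (u i).len)) (by rintro x ⟨h, _⟩; exact h))
  have hLev : ∀ i, Lev (L i) (u i) := by
    intro i
    refine ⟨by simp only [L]; fun_prop, ?_, ?_, ?_, ?_⟩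
    · intro x
      rw [hL, hl0, max_eq_right zero_le]
      constructor
      · rintro ⟨⟨_, h1⟩, h2⟩
        exact (Sq.eq_of_le' h2 h1.symm).symm
      · rintro rfl
        exact ⟨⟨hTu i, rfl⟩, le_rfl⟩
    · intro r v hv
      rw [hL] at hv
      have h1 : max (l r) (u i).len ≤ v.len := by
        rw [hv.1.2]
        exact max_le_max (hlt1 r).le le_rfl
      obtain ⟨v', h2, h3, h4⟩ := (E.hT i).exists_take hv.1.1 h1
      refine ⟨v', (hL i r v').2 ⟨⟨h2, h4⟩, ?_⟩, h3⟩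
      exact Sq.comparable hv.2 h3 (by rw [h4]; exact le_max_right _ _)
    · intro r v hv
      rw [hL] at hv
      obtain ⟨v', h2, h3, h4⟩ := (E.hT i).extend hv.1.1 (max (l (r + 1)) (u i).len) (by
        rw [hv.1.2]
        exact max_le_max (hlt1 r).le le_rfl)
      exact ⟨v', (hL i _ v').2 ⟨⟨h2, h4⟩, hv.2.trans h3⟩, h3⟩
    · intro r x y hx hy hxy
      rw [hL] at hx hy
      exact Sq.eq_of_le' hxy (by rw [hx.1.2, hy.1.2])
  have hφL : ∀ i r v, v ∈ L i r → φ i (r, v) ∈ (K r).2 i ∧ v ≤ φ i (r, v) := by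
    intro i r v hv
    rw [hL] at hv
    refine hφ' i (r, v) (((hK' r).2.2.1 i).le (hu i) hv.1.1 hv.2 ?_)
    rw [hv.1.2]
    exact max_le_max (le_max_left _ _) le_rfl
  obtain ⟨r0, r1, hr, t, ht, j, hj, Y, hY1, hY2, hY3⟩ := hF L u hLev E.k
    (fun q : M × (Fin d → Sq M) => E.c (fun i => φ i (q.1, q.2 i), ω q.1)) (by fun_prop) (by
      intro r v hv
      refine E.hk _ _ (K r).1 ?_ (hω' r).1 (hω' r).2.2.1
      intro i
      exact (hK' r).2.1 i _ (hφL i r _ (hv i)).1)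
  have ht' : ∀ i, (E.T i (t i) ∧ (t i).len = max (l r0) (u i).len) ∧ u i ≤ t i := fun i =>
    (hL i r0 _).1 (ht i)
  refine (hG' (l r0)).2 t ht' j hj (K r1).1
    (fun i => fs M (fun x => x ∈ (K r1).2 i ∧ (t i ≤ x → ∃ v, v ∈ Y i ∧ φ i (r1, v) = x))) ?_
  have hX' : ∀ i x, x ∈ fs M (fun x => x ∈ (K r1).2 i ∧ (t i ≤ x → ∃ v, v ∈ Y i ∧ φ i (r1, v) = x)) ↔
      (x ∈ (K r1).2 i ∧ (t i ≤ x → ∃ v, v ∈ Y i ∧ φ i (r1, v) = x)) := fun i x =>
    mem_fs (by fun_prop) (((K r1).2 i).bdd_mem.mono fun x hx => hx.1)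
  have hGl : G (l r0) ≤ l r1 := by
    rw [← hls]
    exact hle _ _ (succ_le_iff.2 hr)
  refine ⟨?_, ?_, ?_, ?_⟩
  · exact (hGl.trans (le_max_left _ _)).trans (hK' r1).1
  · intro i x hx
    exact (hK' r1).2.1 i x ((hX' i x).1 hx).1
  · intro i u' hu' v hv huv hvl
    rw [hmemU] at hu'
    rcases hu' with ⟨h1, h2⟩ | h1
    · obtain ⟨x, hx, hvx⟩ := ((hK' r1).2.2.1 i).le h1 hv huv (by
        rw [hvl]
        exact max_le_max (hGl.trans (le_max_left _ _)) le_rfl)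
      refine ⟨x, (hX' i x).2 ⟨hx, fun h3 => ?_⟩, hvx⟩
      exfalso
      apply h2
      rcases Sq.le_total' (huv.trans hvx) ((ht' i).2.trans h3) with h6 | h6
      · exact hp.2.1 i _ _ h1 (hu i) h6
      · exact (hp.2.1 i _ _ (hu i) h1 h6).symm
    · subst h1
      have h3 : v ∈ L i (r0 + 1) := by
        rw [hL]
        refine ⟨⟨hv, ?_⟩, (ht' i).2.trans huv⟩
        rw [hvl, (ht' i).1.2, ← max_assoc, ← hls, max_eq_left (hlt1 r0).le]
      obtain ⟨y, hy, hvy⟩ := hY2 i v h3 huv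
      have h4 := hφL i r1 y (hY1 i y hy).1
      exact ⟨φ i (r1, y), (hX' i _).2 ⟨h4.1, fun _ => ⟨y, hy, rfl⟩⟩, hvy.trans h4.2⟩
  · intro w' hw' hwl
    have hin : ∀ s : Fin d → Sq M, (∀ i, s i ∈ fs M (fun x => x ∈ (K r1).2 i ∧
        (t i ≤ x → ∃ v, v ∈ Y i ∧ φ i (r1, v) = x))) → ∀ i, s i ∈ (K r1).2 i := fun s hs i =>
      ((hX' i _).1 (hs i)).1
    by_cases hww : w' = w
    · subst hww
      refine ⟨ω r1, (hω' r1).1, (hω' r1).2.1, (hω' r1).2.2.1, ?_⟩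
      intro t' j' hq s hs hts
      rcases FS.mem_add.1 hq with h1 | h1
      · exact (hω' r1).2.2.2 t' j' h1 s (hin s hs) hts
      · simp only [Prod.mk.injEq] at h1
        obtain ⟨rfl, _, rfl⟩ := h1
        have h2 : ∀ i, ∃ v, v ∈ Y i ∧ φ i (r1, v) = s i := fun i =>
          ((hX' i _).1 (hs i)).2 (hts i)
        choose v hv hv' using h2
        have h3 := hY3 v hv
        simp only [hv'] at h3
        exact h3
    · obtain ⟨w'', h1, h2, h3, h4⟩ := (hK' r1).2.2.2 w' hw' hwl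
      refine ⟨w'', h1, h2, h3, ?_⟩
      intro t' j' hq s hs hts
      rcases FS.mem_add.1 hq with h5 | h5
      · exact h4 t' j' h5 s (hin s hs) hts
      · simp only [Prod.mk.injEq] at h5
        exact absurd h5.2.1 hww

end Setup

end Pool.Agent.H75.RM
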