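import Mathlib

/-!
# Second-order arithmetic, `RCA₀`, `ACA₀` and the strong tree form of the Halpern-Lauchli theorem

Everything is formulated for an arbitrary (possibly nonstandard) structure for the language of
second-order arithmetic: a discretely ordered commutative semiring `M` (the numbers)
together with a family `S` of subsets of `M` (the sets).
-/

universe u

namespace Pool.Agent.H75.RM

/-- `PAminus M`: `M` is a (nontrivial) discretely ordered commutative semiring in which `a ≤ b`
iff `b = a + c` for some `c`, that is, the non-negative part of a discretely ordered ring.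
These are the basic axioms `PA⁻` for the numbers. -/
class PAminus (M : Type u) extends CommSemiring M, LinearOrder M, IsStrictOrderedRing M,
    CanonicallyOrderedAdd M where
  /-- the order is discrete -/
  succ_le_of_lt' : ∀ a b : M, a < b → a + 1 ≤ b

/-- Number terms with number variables `x_0, …, x_{n-1}` and with elements of `M` as parameters. -/
inductive Tm (M : Type u) (n : ℕ) : Type u
  | var : Fin n → Tm M n
  | par : M → Tm M n
  | add : Tm M n → Tm M n → Tm M n
  | mul : Tm M n → Tm M n → Tm M n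

/-- Arithmetical formulas of second-order arithmetic (no set quantifiers) with number variables
`x_0, …, x_{n-1}`, with elements of `M` and members of `S` as parameters.  In `all φ` and
`ball t φ` the variable `x_0` of `φ` is bound and the variable `x_{i+1}` of `φ` is the variable
`x_i` outside. `all φ` is `∀ x, φ` and `ball t φ` is `∀ x < t, φ`. -/
inductive Fm (M : Type u) (S : Set (Set M)) : ℕ → Type u
  | eq {n : ℕ} : Tm M n → Tm M n → Fm M S n
  | lt {n : ℕ} : Tm M n → Tm M n → Fm M S n
  | mem {n : ℕ} : Tm M n → S → Fm M S n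
  | neg {n : ℕ} : Fm M S n → Fm M S n
  | and {n : ℕ} : Fm M S n → Fm M S n → Fm M S n
  | all {n : ℕ} : Fm M S (n + 1) → Fm M S n
  | ball {n : ℕ} : Tm M n → Fm M S (n + 1) → Fm M S n

/-- The value of a term. -/
def Tm.eval {M : Type u} [Add M] [Mul M] {n : ℕ} (v : Fin n → M) : Tm M n → M
  | .var i => v i
  | .par a => a
  | .add s t => s.eval v + t.eval v
  | .mul s t => s.eval v * t.eval v

/-- Truth of an arithmetical formula in `(M, S)`. -/
def Fm.eval {M : Type u} [Add M] [Mul M] [LT M] {S : Set (Set M)} :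
    {n : ℕ} → Fm M S n → (Fin n → M) → Prop
  | _, .eq s t, v => s.eval v = t.eval v
  | _, .lt s t, v => s.eval v < t.eval v
  | _, .mem t X, v => t.eval v ∈ X.1
  | _, .neg φ, v => ¬ φ.eval v
  | _, .and φ ψ, v => φ.eval v ∧ ψ.eval v
  | _, .all φ, v => ∀ a : M, φ.eval (Fin.cons a v)
  | _, .ball t φ, v => ∀ a : M, a < t.eval v → φ.eval (Fin.cons a v)

/-- `Δ⁰₀` formulas: all number quantifiers are bounded. -/
def Fm.IsDelta0 {M : Type u} {S : Set (Set M)} : {n : ℕ} → Fm M S n → Prop
  | _, .eq _ _ => True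
  | _, .lt _ _ => True
  | _, .mem _ _ => True
  | _, .neg φ => φ.IsDelta0
  | _, .and φ ψ => φ.IsDelta0 ∧ ψ.IsDelta0
  | _, .all _ => False
  | _, .ball _ φ => φ.IsDelta0

/-- `(M, S)` is a model of `RCA₀`: the basic axioms `PA⁻` (the class `PAminus`), induction for
`Σ⁰₁` formulas `∃ y, θ(y, x)` and comprehension for `Δ⁰₁` formulas, with parameters. -/
structure RCA0 (M : Type u) [PAminus M] (S : Set (Set M)) : Prop where
  /-- `Σ⁰₁` induction -/
  induction : ∀ θ : Fm M S 2, θ.IsDelta0 → (∃ y, θ.eval ![y, 0]) →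
    (∀ x, (∃ y, θ.eval ![y, x]) → ∃ y, θ.eval ![y, x + 1]) → ∀ x, ∃ y, θ.eval ![y, x]
  /-- `Δ⁰₁` comprehension -/
  comprehension : ∀ θ ψ : Fm M S 2, θ.IsDelta0 → ψ.IsDelta0 →
    (∀ x, (∃ y, θ.eval ![y, x]) ↔ ∀ y, ψ.eval ![y, x]) → {x | ∃ y, θ.eval ![y, x]} ∈ S

/-- Arithmetical comprehension (with parameters).  A model of `RCA₀` satisfies it iff it is a
model of `ACA₀`. -/
def ArithmeticalComprehension (M : Type u) [PAminus M] (S : Set (Set M)) : Prop :=
  ∀ φ : Fm M S 1, {x | φ.eval ![x]} ∈ S

section coding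
variable {M : Type u} [PAminus M]

/-- The pairing function `(x, y) ↦ (x + y)² + x`. -/
def pr (x y : M) : M := (x + y) * (x + y) + x

/-- `r` is the remainder of the division of `a` by `m`. -/
def IsRem (a m r : M) : Prop := r < m ∧ ∃ q, a = q * m + r

/-- `s` is of the form `⟨l, ⟨a, b⟩⟩`: it codes a finite sequence of length `l`. -/
def Len (s l : M) : Prop := ∃ a b, s = pr l (pr a b)

/-- The entry with index `i < l` of the sequence coded by `s = ⟨l, ⟨a, b⟩⟩` is `x`, where `x` is
the value of Gödel's beta function: the remainder of `a` modulo `1 + (i + 1) b`. -/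
def Ent (s i x : M) : Prop :=
  ∃ l a b, s = pr l (pr a b) ∧ i < l ∧ IsRem a (1 + (i + 1) * b) x

/-- `s` codes an initial segment of the sequence coded by `t` (possibly all of it). -/
def Ext (s t : M) : Prop :=
  ∃ l k, Len s l ∧ Len t k ∧ l ≤ k ∧ ∀ i, i < l → ∀ x, Ent s i x ↔ Ent t i x

/-- `s` is the (canonical) code of a finite sequence: the least number coding this sequence.
The set of these codes is `ω^{<ω}` in the sense of the structure. -/
def IsSeq (s : M) : Prop :=
  (∃ l, Len s l) ∧ ∀ t, t < s → ¬ (Ext s t ∧ Ext t s)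

/-- `t` is obtained from the sequence `s` by appending one entry. -/
def IsSucc (s t : M) : Prop := Ext s t ∧ ∃ l, Len s l ∧ Len t (l + 1)

/-- `T` is a tree: a nonempty set of finite sequences, closed under initial segments, finitely
branching (the set of immediate successors in `T` of each `s ∈ T` is finite, that is, bounded),
and without terminal nodes. -/
structure IsTree (T : Set M) : Prop where
  seq : ∀ s ∈ T, IsSeq s
  nonempty : T.Nonempty
  closed : ∀ t ∈ T, ∀ s, IsSeq s → Ext s t → s ∈ T
  finite_branching : ∀ s ∈ T, ∃ b, ∀ t ∈ T, IsSucc s t → t < b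
  no_terminal : ∀ s ∈ T, ∃ t ∈ T, IsSucc s t

/-- `a, b` are consecutive elements of `A`. -/
def Consecutive (A : Set M) (a b : M) : Prop := a ∈ A ∧ b ∈ A ∧ a < b ∧ ∀ x ∈ A, ¬ (a < x ∧ x < b)

/-- `S'` is a strong subtree of `T` with level set `A`.  The clauses are those of the definition
in the problem file; the last one, present when `full = true`, is the clause of the usual
definition that every node of `S'` extends a node of `S'` of the preceding level. -/
structure IsStrongSubtree (full : Bool) (T A S' : Set M) : Prop where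
  subset : S' ⊆ T
  level : ∀ s ∈ S', ∃ a ∈ A, Len s a
  nonempty_level : ∀ a ∈ A, ∃ s ∈ S', Len s a
  root : ∀ a ∈ A, (∀ x ∈ A, a ≤ x) → ∀ s ∈ S', ∀ t ∈ S', Len s a → Len t a → s = t
  branching : ∀ a b, Consecutive A a b → ∀ s ∈ S', Len s a → ∀ t ∈ T, IsSucc s t →
    ∃! u, u ∈ S' ∧ Len u b ∧ Ext t u
  down : full = true → ∀ a b, Consecutive A a b → ∀ u ∈ S', Len u b → ∃ s ∈ S', Len s a ∧ Ext s u

/-- The code of a tuple `(v_0, …, v_{d-1})`: `⟨v_0, ⟨v_1, … ⟨v_{d-1}, 0⟩ … ⟩⟩`. -/
def tup : {d : ℕ} → (Fin d → M) → M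
  | 0, _ => 0
  | _ + 1, v => pr (v 0) (tup (Fin.tail v))

/-- `v = (v_0, …, v_{d-1})` belongs to the level product `⋃ₙ T_0(n) × … × T_{d-1}(n)`. -/
def InLevelProduct {d : ℕ} (T : Fin d → Set M) (v : Fin d → M) : Prop :=
  (∀ i, v i ∈ T i) ∧ ∃ n, ∀ i, Len (v i) n

/-- `C` codes a function from the level product of the trees `T_i` to `{0, …, k-1}`. -/
def IsColoring {d : ℕ} (T : Fin d → Set M) (k : M) (C : Set M) : Prop :=
  ∀ v, InLevelProduct T v → ∃! j, j < k ∧ pr (tup v) j ∈ C

end coding

/-- The principle `HL_d` in the structure `(M, S)`: for all trees `T_0, …, T_{d-1}` in `S`, all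
`k ≥ 1` and every colouring `C ∈ S` of their level product with colours `< k` there are
an infinite (that is, unbounded) set `A ∈ S` and strong subtrees `S_i ∈ S` of the `T_i`, all with
level set `A`, such that the colouring is constant on the level product of the `S_i`.
For `full` see `IsStrongSubtree`. -/
def HL (M : Type u) [PAminus M] (S : Set (Set M)) (full : Bool) (d : ℕ) : Prop :=
  ∀ T : Fin d → Set M, (∀ i, T i ∈ S ∧ IsTree (T i)) → ∀ k : M, 1 ≤ k →
    ∀ C ∈ S, IsColoring T k C →
      ∃ A ∈ S, (∀ b, ∃ a ∈ A, b < a) ∧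
        ∃ S' : Fin d → Set M, (∀ i, S' i ∈ S ∧ IsStrongSubtree full (T i) A (S' i)) ∧
          ∃ j, j < k ∧ ∀ v, InLevelProduct S' v → pr (tup v) j ∈ C

end Pool.Agent.H75.RM
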