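import Pool.Agent.H75.RM.Cond

universe u v w x

set_option linter.unusedSectionVars false

namespace Pool.Agent.H75.RM

namespace Setup
variable {M : Type u} [ACAModel M] {d : ℕ} {E : Setup M d}

/-- Decide all constraints with a given `w`. -/
theorem IsCond.decide_all (hF : FHL M d) {p : Cnd M d} (hp : E.IsCond p) (w : Sq M) (hw : E.W w) :
    ∃ p', E.IsCond p' ∧ Ref p' p ∧ One p' p ∧ ∀ v : Fin d → Sq M, (∀ i, v i ∈ p'.1 i) →
      ∃ (t : Fin d → Sq M) (j : M), (∀ i, t i ≤ v i) ∧ j < E.k ∧ (t, w, j) ∈ p'.2 := by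
  obtain ⟨p', h1, ⟨h2, h2'⟩, h3⟩ := finite_iteration (M := M) (C := E.IsCond)
    (le := fun p' q : Cnd M d => Ref p' q ∧ One p' q)
    (D := fun (p' : Cnd M d) (u : Fin d → Sq M) => ∃ (v t : Fin d → Sq M) (j : M),
      (∀ i, v i ∈ p'.1 i) ∧ (∀ i, u i ≤ v i) ∧ (∀ i, t i ≤ v i) ∧ j < E.k ∧ (t, w, j) ∈ p'.2)
    (X := fun u : Fin d → Sq M => ∀ i, u i ∈ p.1 i) (by fun_prop) (by fun_prop) (by fun_prop)
    (by fun_prop) (Bdd.pi (P := fun i x => x ∈ p.1 i) fun i => (p.1 i).bdd_mem)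
    (fun p hp => ⟨Ref.refl p, One.refl E hp⟩)
    (fun p q r _ _ hr h1 h2 => ⟨h1.1.trans h2.1, One.trans E hr h1.1 h2.1 h1.2 h2.2⟩)
    (by
      rintro p' q u _ _ ⟨h1, _⟩ ⟨v, t, j, h3, h4, h5, h6, h7⟩
      have h8 : ∀ i, ∃ v', v' ∈ p'.1 i ∧ v i ≤ v' := fun i => h1.2.1 i _ (h3 i)
      choose v' h9 h10 using h8
      exact ⟨v', t, j, h9, fun i => (h4 i).trans (h10 i), fun i => (h5 i).trans (h10 i), h6,
        h1.2.2 _ h7⟩)
    p hp
    (by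
      rintro q u hq ⟨h1, _⟩ hu
      have h8 : ∀ i, ∃ v', v' ∈ q.1 i ∧ u i ≤ v' := fun i => h1.2.1 i _ (hu i)
      choose u' h9 h10 using h8
      obtain ⟨q', k1, k2, k3, t, j, k4, k5, k6, k7⟩ := hq.decide hF u' h9 w hw
      exact ⟨q', k1, ⟨k2, k3⟩, t, t, j, k4, fun i => (h10 i).trans (k5 i), fun i => le_rfl, k6, k7⟩)
  refine ⟨p', h1, h2, h2', ?_⟩
  intro v hv
  have h4 : ∀ i, ∃ u, u ∈ p.1 i ∧ u ≤ v i := fun i => h2.1 i _ (hv i)
  choose u hu huv using h4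
  obtain ⟨v', t, j, k1, k2, k3, k4, k5⟩ := h3 u hu
  refine ⟨t, j, ?_, k4, k5⟩
  intro i
  rw [h2' i (u i) (v i) (v' i) (hu i) (hv i) (k1 i) (huv i) (k2 i)]
  exact k3 i

/-- `(p, w)` forbids all constraints `(t, w'', j)` with `w'' ≥ w` -/
def Kill (E : Setup M d) (a : Cnd M d × Sq M) (t : Fin d → Sq M) (j : M) : Prop :=
  ∀ (p' : Cnd M d) (w' : Sq M), E.IsCond p' → Ref p' a.1 → E.W w' → a.2 ≤ w' →
    ¬ E.IsCond (p'.1, p'.2.add (t, w', j))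

@[fun_prop]
theorem Rec.Kill {α : Type v} [Coded M α] {a : α → Cnd M d × Sq M} {t : α → Fin d → Sq M}
    {j : α → M} (ha : Rec M a) (ht : Rec M t) (hj : Rec M j) :
    Rec M (fun x => E.Kill (a x) (t x) (j x)) := by
  unfold Setup.Kill
  fun_prop

/-- the trivial condition -/
theorem isCond_zero : E.IsCond (fun _ => fs M (fun x => x = Sq.nil), FS.empty) := by
  have hmem : ∀ x : Sq M, x ∈ fs M (fun x : Sq M => x = Sq.nil) ↔ x = Sq.nil := fun x =>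
    mem_fs (by fun_prop) (Bdd.eq _)
  refine ⟨?_, ?_, ?_⟩
  · intro i u hu
    rw [(hmem u).1 hu]
    exact (E.hT i).nil_mem
  · intro i u u' hu hu' _
    rw [(hmem u).1 hu, (hmem u').1 hu']
  · intro n
    have hX : ∀ i x, x ∈ fs M (fun x => E.T i x ∧ x.len = n) ↔ E.T i x ∧ x.len = n := fun i x =>
      mem_fs (by fun_prop) ((E.hT i).bdd_level n)
    refine ⟨n, fun i => fs M (fun x => E.T i x ∧ x.len = n), le_rfl, ?_, ?_, ?_⟩
    · intro i x hx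
      exact (hX i x).1 hx
    · intro i u hu v hv huv hl
      rw [(hmem u).1 hu, Sq.nil_len, max_eq_left zero_le] at hl
      exact ⟨v, (hX i v).2 ⟨hv, hl⟩, le_rfl⟩
    · intro w hw hwl
      obtain ⟨w', h1, h2, h3⟩ := E.hW.extend hw n hwl
      exact ⟨w', h1, h2, h3, fun t j h => absurd h (FS.not_mem_empty _)⟩

theorem pos_k : 0 < E.k := by
  refine lt_of_le_of_lt zero_le (E.hk (fun _ => Sq.nil) Sq.nil 0 ?_ E.hW.nil_mem Sq.nil_len)
  intro i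
  exact ⟨(E.hT i).nil_mem, Sq.nil_len⟩

/-- There is a situation in which a constraint can be added over and over again. -/
theorem exists_unkillable (hF : FHL M d) (E : Setup M d) :
    ∃ (p : Cnd M d) (w : Sq M) (t : Fin d → Sq M) (j : M), E.IsCond p ∧ E.W w ∧
      (∀ i, ∃ u, u ∈ p.1 i ∧ t i ≤ u) ∧ j < E.k ∧
      ∀ (p' : Cnd M d) (w' : Sq M), E.IsCond p' → Ref p' p → E.W w' → w ≤ w' →
        ¬ E.Kill (p', w') t j := by
  by_contra hcon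
  push Not at hcon
  have hCrec : Rec M (fun a : Cnd M d × Sq M => E.IsCond a.1 ∧ E.W a.2) := by fun_prop
  -- one step
  have hstep : ∀ a : Cnd M d × Sq M, E.IsCond a.1 ∧ E.W a.2 → ∃ a' : Cnd M d × Sq M,
      (E.IsCond a'.1 ∧ E.W a'.2) ∧ (∃ b : Cnd M d × Sq M, (Ref b.1 a.1 ∧ a.2 ≤ b.2) ∧
        (∀ (t : Fin d → Sq M) (j : M), (∀ i, t i ∈ a.1.1 i) → j < E.k → E.Kill b t j) ∧
        b.2 ≤ a'.2 ∧ Ref a'.1 b.1) ∧
      ∀ v : Fin d → Sq M, (∀ i, v i ∈ a'.1.1 i) → ∃ (t : Fin d → Sq M) (j : M),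
        (∀ i, t i ≤ v i) ∧ j < E.k ∧ (t, a'.2, j) ∈ a'.1.2 := by
    rintro ⟨p, w⟩ ⟨hp, hw⟩
    obtain ⟨⟨p1, w1⟩, ⟨h1, h1'⟩, ⟨h2, h2'⟩, h3⟩ := finite_iteration (M := M)
      (C := fun a : Cnd M d × Sq M => E.IsCond a.1 ∧ E.W a.2)
      (le := fun a b : Cnd M d × Sq M => Ref a.1 b.1 ∧ b.2 ≤ a.2)
      (D := fun (a : Cnd M d × Sq M) (q : (Fin d → Sq M) × M) => E.Kill a q.1 q.2)
      (X := fun q : (Fin d → Sq M) × M => (∀ i, q.1 i ∈ p.1 i) ∧ q.2 < E.k) (by fun_prop)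
      (by fun_prop) (by fun_prop) (by fun_prop)
      (Bdd.prod (P := fun t : Fin d → Sq M => ∀ i, t i ∈ p.1 i) (Q := fun j => j < E.k)
        (Bdd.pi (P := fun i x => x ∈ p.1 i) fun i => (p.1 i).bdd_mem) (Bdd.lt E.k))
      (fun a _ => ⟨Ref.refl _, le_rfl⟩)
      (fun a b c _ _ _ h h' => ⟨h.1.trans h'.1, h'.2.trans h.2⟩)
      (fun a b q _ _ h hK p' w' k1 k2 k3 k4 => hK p' w' k1 (k2.trans h.1) k3 (h.2.trans k4))
      (p, w) ⟨hp, hw⟩
      (by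
        rintro ⟨q, v⟩ ⟨t, j⟩ ⟨hq, hv⟩ ⟨k1, k2⟩ ⟨k3, k4⟩
        obtain ⟨p', w', l1, l2, l3, l4, l5⟩ := hcon q v t j hq hv (fun i => k1.2.1 i _ (k3 i)) k4
        exact ⟨(p', w'), ⟨l1, l3⟩, ⟨l2, l4⟩, l5⟩)
    obtain ⟨p2, k1, k2, k3, k4⟩ := h1.decide_all hF w1 h1'
    refine ⟨(p2, w1), ⟨k1, h1'⟩, ⟨(p1, w1), ⟨h2, h2'⟩, ?_, le_rfl, k2⟩, k4⟩
    intro t j ht hj
    exact h3 (t, j) ⟨ht, hj⟩
  have hInh : Inhabited M := ⟨0⟩
  have hInh' : Inhabited (Sq M) := ⟨Sq.nil⟩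
  obtain ⟨g, hg, hg'⟩ := rec_choice (M := M) (R := fun a a' : Cnd M d × Sq M =>
      (E.IsCond a'.1 ∧ E.W a'.2) ∧ (∃ b : Cnd M d × Sq M, (Ref b.1 a.1 ∧ a.2 ≤ b.2) ∧
        (∀ (t : Fin d → Sq M) (j : M), (∀ i, t i ∈ a.1.1 i) → j < E.k → E.Kill b t j) ∧
        b.2 ≤ a'.2 ∧ Ref a'.1 b.1) ∧
      ∀ v : Fin d → Sq M, (∀ i, v i ∈ a'.1.1 i) → ∃ (t : Fin d → Sq M) (j : M),
        (∀ i, t i ≤ v i) ∧ j < E.k ∧ (t, a'.2, j) ∈ a'.1.2) (by fun_prop)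
  replace hg' := fun a ha => hg' a (hstep a ha)
  obtain ⟨F, hFr, hF0, hFs⟩ := exists_rec_fun' (M := M)
    (x0 := ((fun _ => fs M (fun x => x = Sq.nil), FS.empty), Sq.nil))
    (h := fun q : M × (Cnd M d × Sq M) => g q.2) (by fun_prop)
  have hC : ∀ r, E.IsCond (F r).1 ∧ E.W (F r).2 := by
    refine rec_induction (P := fun r => E.IsCond (F r).1 ∧ E.W (F r).2) (by fun_prop) ?_ ?_
    · rw [hF0]
      exact ⟨isCond_zero, E.hW.nil_mem⟩
    · intro r ih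
      rw [hFs]
      exact (hg' _ ih).1
  have hSt := fun r => hg' (F r) (hC r)
  simp only [← hFs (_ : M)] at hSt
  have hle1 : ∀ r, Ref (F (r + 1)).1 (F r).1 ∧ (F r).2 ≤ (F (r + 1)).2 := by
    intro r
    obtain ⟨_, ⟨b, h1, _, h3, h4⟩, _⟩ := hSt r
    exact ⟨h4.trans h1.1, h1.2.trans h3⟩
  have hle : ∀ r' r, r ≤ r' → Ref (F r').1 (F r).1 ∧ (F r).2 ≤ (F r').2 := by
    refine rec_induction (P := fun r' => ∀ r, r ≤ r' → Ref (F r').1 (F r).1 ∧ (F r).2 ≤ (F r').2)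
      (by fun_prop) ?_ ?_
    · intro r hr
      rw [le_antisymm hr zero_le]
      exact ⟨Ref.refl _, le_rfl⟩
    · intro r' ih r hr
      rcases hr.lt_or_eq with h1 | h1
      · have h2 := ih r (lt_succ_iff.1 h1)
        exact ⟨(hle1 r').1.trans h2.1, h2.2.trans (hle1 r').2⟩
      · rw [h1]
        exact ⟨Ref.refl _, le_rfl⟩
  -- colours
  obtain ⟨cc, hcc, hcc'⟩ := rec_choice (M := M) (R := fun (q : M × (Fin d → Sq M)) (j : M) =>
      j < E.k ∧ (1 ≤ q.1 → (∀ i, q.2 i ∈ (F q.1).1.1 i) → ∃ t : Fin d → Sq M,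
        (∀ i, t i ≤ q.2 i) ∧ (t, (F q.1).2, j) ∈ (F q.1).1.2)) (by fun_prop)
  replace hcc' : ∀ r (v : Fin d → Sq M), cc (r, v) < E.k ∧
      (1 ≤ r → (∀ i, v i ∈ (F r).1.1 i) → ∃ t : Fin d → Sq M,
        (∀ i, t i ≤ v i) ∧ (t, (F r).2, cc (r, v)) ∈ (F r).1.2) := by
    intro r v
    refine hcc' (r, v) ?_
    rcases zero_or_succ r with h1 | ⟨r', h1⟩
    · subst h1
      refine ⟨0, E.pos_k, fun h => ?_⟩
      exact absurd h (not_le.2 zero_lt_one)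
    · subst h1
      by_cases hv : ∀ i, v i ∈ (F (r' + 1)).1.1 i
      · obtain ⟨t, j, h2, h3, h4⟩ := (hSt r').2.2 v hv
        exact ⟨j, h3, fun _ _ => ⟨t, h2, h4⟩⟩
      · exact ⟨0, E.pos_k, fun _ h => absurd h hv⟩
  have hmem0 : ∀ x : Sq M, x ∈ fs M (fun x : Sq M => x = Sq.nil) ↔ x = Sq.nil := fun x =>
    mem_fs (by fun_prop) (Bdd.eq _)
  have hLev : ∀ i, Lev (fun r => (F r).1.1 i) Sq.nil := by
    intro i
    refine ⟨by fun_prop, ?_, ?_, ?_, ?_⟩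
    · intro x
      rw [hF0]
      exact hmem0 x
    · intro r v hv
      exact (hle1 r).1.1 i v hv
    · intro r u hu
      exact (hle1 r).1.2.1 i u hu
    · intro r u v hu hv huv
      exact (hC r).1.2.1 i u v hu hv huv
  obtain ⟨r0, r1, hr, t, ht, j, hj, Y, hY1, hY2, hY3⟩ := hF (fun i r => (F r).1.1 i)
    (fun _ => Sq.nil) hLev E.k cc hcc (fun r v _ => (hcc' r v).1)
  obtain ⟨_, ⟨b, hb1, hb2, hb3, hb4⟩, _⟩ := hSt r0
  have hr1 : 1 ≤ r1 := one_le_iff.2 (zero_le.trans_lt hr)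
  have hK := hb2 t j ht hj
  have h01 := hle r1 r0 hr.le
  have h11 := hle r1 (r0 + 1) (succ_le_iff.2 hr)
  have hRb : Ref (F r1).1 b.1 := h11.1.trans hb4
  -- elements above `t i`
  have habv : ∀ i u, u ∈ (F r1).1.1 i → ∀ s, u ≤ s → t i ≤ s → t i ≤ u := by
    intro i u hu s hus hts
    obtain ⟨t', ht', htu⟩ := h01.1.1 i u hu
    rcases Sq.le_total' (htu.trans hus) hts with h6 | h6
    · rw [← (hC r0).1.2.1 i _ _ ht' (ht i) h6]; exact htu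
    · rw [(hC r0).1.2.1 i _ _ (ht i) ht' h6]; exact htu
  have hU : ∀ i x, x ∈ fs M (fun x => x ∈ (F r1).1.1 i ∧ (t i ≤ x → x ∈ Y i)) ↔
      (x ∈ (F r1).1.1 i ∧ (t i ≤ x → x ∈ Y i)) := fun i x =>
    mem_fs (by fun_prop) (((F r1).1.1 i).bdd_mem.mono fun x hx => hx.1)
  have hT'' : ∀ i u, u ∈ fs M (fun x => x ∈ (F r1).1.1 i ∧ (t i ≤ x → x ∈ Y i)) → E.T i u :=
    fun i u hu => (hC r1).1.1 i u ((hU i u).1 hu).1
  have hA'' : ∀ i u u', u ∈ fs M (fun x => x ∈ (F r1).1.1 i ∧ (t i ≤ x → x ∈ Y i)) →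
      u' ∈ fs M (fun x => x ∈ (F r1).1.1 i ∧ (t i ≤ x → x ∈ Y i)) → u ≤ u' → u = u' :=
    fun i u u' hu hu' h => (hC r1).1.2.1 i u u' ((hU i u).1 hu).1 ((hU i u').1 hu').1 h
  have hcond : E.IsCond ((fun i => fs M (fun x => x ∈ (F r1).1.1 i ∧ (t i ≤ x → x ∈ Y i))),
      (F r1).1.2) := by
    refine (hC r1).1.refine' ?_ hA''
    intro i u hu
    exact ⟨hT'' i u hu, u, ((hU i u).1 hu).1, le_rfl⟩
  refine hK _ (F r1).2 hcond ⟨?_, ?_, ?_⟩ (hC r1).2 (hb3.trans h11.2) ⟨hT'', hA'', ?_⟩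
  · intro i u hu
    exact hRb.1 i u ((hU i u).1 hu).1
  · intro i u hu
    by_cases htu : t i ≤ u
    · obtain ⟨v, hv, huv⟩ := hb4.2.1 i u hu
      obtain ⟨y, hy, hvy⟩ := hY2 i v hv (htu.trans huv)
      exact ⟨y, (hU i y).2 ⟨(hY1 i y hy).1, fun _ => hy⟩, huv.trans hvy⟩
    · obtain ⟨u', hu', huu'⟩ := hRb.2.1 i u hu
      refine ⟨u', (hU i u').2 ⟨hu', fun h => ?_⟩, huu'⟩
      exfalso
      obtain ⟨t', ht', htu'⟩ := hb1.1.1 i u hu
      apply htu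
      rcases Sq.le_total' (htu'.trans huu') h with h6 | h6
      · rw [← (hC r0).1.2.1 i _ _ ht' (ht i) h6]; exact htu'
      · rw [(hC r0).1.2.1 i _ _ (ht i) ht' h6]; exact htu'
  · intro q hq
    exact hRb.2.2 q hq
  · intro n
    obtain ⟨m, X, hX⟩ := (hC r1).1.2.2 n
    have hX' : ∀ i x, x ∈ fs M (fun x => x ∈ X i ∧ ∃ u, u ∈ fs M (fun x => x ∈ (F r1).1.1 i ∧
        (t i ≤ x → x ∈ Y i)) ∧ u ≤ x) ↔ (x ∈ X i ∧ ∃ u, u ∈ fs M (fun x => x ∈ (F r1).1.1 i ∧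
        (t i ≤ x → x ∈ Y i)) ∧ u ≤ x) := fun i x =>
      mem_fs (by fun_prop) ((X i).bdd_mem.mono fun x hx => hx.1)
    refine ⟨m, fun i => fs M (fun x => x ∈ X i ∧ ∃ u, u ∈ fs M (fun x => x ∈ (F r1).1.1 i ∧
        (t i ≤ x → x ∈ Y i)) ∧ u ≤ x), hX.1, ?_, ?_, ?_⟩
    · intro i x hx
      exact hX.2.1 i x ((hX' i x).1 hx).1
    · intro i u hu v hv huv hvl
      obtain ⟨x, hx, hvx⟩ := hX.2.2.1 i u ((hU i u).1 hu).1 v hv huv hvl
      exact ⟨x, (hX' i x).2 ⟨hx, u, hu, huv.trans hvx⟩, hvx⟩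
    · intro w hw hwl
      obtain ⟨w', k1, k2, k3, k4⟩ := hX.2.2.2 w hw hwl
      refine ⟨w', k1, k2, k3, ?_⟩
      intro t' j' hq s hs hts
      have hs' : ∀ i, s i ∈ X i := fun i => ((hX' i _).1 (hs i)).1
      rcases FS.mem_add.1 hq with h5 | h5
      · exact k4 t' j' h5 s hs' hts
      · simp only [Prod.mk.injEq] at h5
        obtain ⟨rfl, rfl, rfl⟩ := h5
        have h6 : ∀ i, ∃ u, u ∈ fs M (fun x => x ∈ (F r1).1.1 i ∧
          (t' i ≤ x → x ∈ Y i)) ∧ u ≤ s i := fun i => ((hX' i _).1 (hs i)).2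
        choose u hu hus using h6
        have h7 : ∀ i, u i ∈ (F r1).1.1 i := fun i => ((hU i _).1 (hu i)).1
        have h8 : ∀ i, u i ∈ Y i := fun i => ((hU i _).1 (hu i)).2
          (habv i (u i) (h7 i) (s i) (hus i) (hts i))
        obtain ⟨t'', l1, l2⟩ := (hcc' r1 u).2 hr1 h7
        rw [hY3 u h8] at l2
        exact k4 t'' j' l2 s hs' (fun i => (l1 i).trans (hus i))

/-- The dense-matrix theorem for `E`. -/
theorem exists_dense (hF : FHL M d) (E : Setup M d) :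
    ∃ (t : Fin d → Sq M) (w : Sq M) (j : M), (∀ i, E.T i (t i)) ∧ E.W w ∧ j < E.k ∧
      ∀ n, ∃ (m : M) (X : Fin d → FS M (Sq M)) (Y : FS M (Sq M)), n ≤ m ∧
        (∀ i x, x ∈ X i → E.T i x ∧ x.len = m) ∧ (∀ y, y ∈ Y → E.W y ∧ y.len = m) ∧
        (∀ i v, E.T i v → t i ≤ v → v.len = max n (t i).len → ∃ x, x ∈ X i ∧ v ≤ x) ∧
        (∀ v, E.W v → w ≤ v → v.len = max n w.len → ∃ y, y ∈ Y ∧ v ≤ y) ∧
        ∀ (s : Fin d → Sq M) (y : Sq M), (∀ i, s i ∈ X i) → y ∈ Y → E.c (s, y) = j := by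
  obtain ⟨p, w, t, j, hp, hw, ht, hj, hK⟩ := exists_unkillable hF E
  choose t' ht' htt' using ht
  refine ⟨t', w, j, fun i => hp.1 i _ (ht' i), hw, hj, ?_⟩
  intro n
  -- split the nodes `t' i`
  let U : Fin d → FS M (Sq M) := fun i => fs M (fun x =>
    ((E.T i x ∧ x.len = max n (t' i).len) ∧ t' i ≤ x) ∨ (x ∈ p.1 i ∧ x ≠ t' i))
  have hU : ∀ i x, x ∈ U i ↔
      (((E.T i x ∧ x.len = max n (t' i).len) ∧ t' i ≤ x) ∨ (x ∈ p.1 i ∧ x ≠ t' i)) := by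
    intro i x
    refine mem_fs (P := fun x => ((E.T i x ∧ x.len = max n (t' i).len) ∧ t' i ≤ x) ∨
      (x ∈ p.1 i ∧ x ≠ t' i)) (by fun_prop) ?_
    refine Bdd.or (P := fun x => (E.T i x ∧ x.len = max n (t' i).len) ∧ t' i ≤ x)
      (Q := fun x => x ∈ p.1 i ∧ x ≠ t' i)
      (((E.hT i).bdd_level (max n (t' i).len)).mono fun x hx => hx.1) ?_
    exact (p.1 i).bdd_mem.mono fun x hx => hx.1
  have hU1 : E.IsCond (U, p.2) := by
    refine hp.refine' ?_ ?_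
    · intro i u hu
      rcases (hU i u).1 hu with h1 | h1
      · exact ⟨h1.1.1, t' i, ht' i, h1.2⟩
      · exact ⟨hp.1 i u h1.1, u, h1.1, le_rfl⟩
    · intro i u u' hu hu' hle
      rcases (hU i u).1 hu with h1 | h1
      · rcases (hU i u').1 hu' with h2 | h2
        · exact Sq.eq_of_le' hle (by rw [h1.1.2, h2.1.2])
        · exact absurd (hp.2.1 i _ _ (ht' i) h2.1 (h1.2.trans hle)).symm h2.2
      · rcases (hU i u').1 hu' with h2 | h2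
        · exfalso
          apply h1.2
          rcases Sq.le_total' hle h2.2 with h6 | h6
          · exact hp.2.1 i _ _ h1.1 (ht' i) h6
          · exact (hp.2.1 i _ _ (ht' i) h1.1 h6).symm
        · exact hp.2.1 i _ _ h1.1 h2.1 hle
  have hU2 : Ref ((U, p.2) : Cnd M d) p := by
    refine ⟨?_, ?_, fun q hq => hq⟩
    · intro i u hu
      rcases (hU i u).1 hu with h1 | h1
      · exact ⟨t' i, ht' i, h1.2⟩
      · exact ⟨u, h1.1, le_rfl⟩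
    · intro i u hu
      by_cases h : u = t' i
      · subst h
        obtain ⟨v, h1, h2, h3⟩ := (E.hT i).extend (hp.1 i _ hu) (max n (t' i).len)
          (le_max_right _ _)
        exact ⟨v, (hU i v).2 (Or.inl ⟨⟨h1, h3⟩, h2⟩), h2⟩
      · exact ⟨u, (hU i u).2 (Or.inr ⟨hu, h⟩), le_rfl⟩
  obtain ⟨p1, h1, h2, h3⟩ := finite_iteration (M := M) (C := E.IsCond)
    (le := fun p' q : Cnd M d => Ref p' q)
    (D := fun (p' : Cnd M d) (v : Sq M) => ∃ v', E.W v' ∧ v ≤ v' ∧ (t, v', j) ∈ p'.2)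
    (X := fun v : Sq M => (E.W v ∧ v.len = max n w.len) ∧ w ≤ v) (by fun_prop) (by fun_prop)
    (by fun_prop) (by fun_prop) (Bdd.mono (P := fun v => E.W v ∧ v.len = max n w.len)
      (E.hW.bdd_level (max n w.len)) (by rintro x ⟨h, _⟩; exact h))
    (fun q _ => Ref.refl q) (fun _ _ _ _ _ _ h h' => h.trans h')
    (by
      rintro q q' v _ _ h ⟨v', k1, k2, k3⟩
      exact ⟨v', k1, k2, h.2.2 _ k3⟩)
    (U, p.2) hU1
    (by
      rintro q v hq hqU ⟨⟨hv, _⟩, hwv⟩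
      have hqp := hqU.trans hU2
      have h4 := hK q v hq hqp hv hwv
      unfold Kill at h4
      push Not at h4
      obtain ⟨p', v', k1, k2, k3, k4, k5⟩ := h4
      refine ⟨_, k5, ⟨k2.1, k2.2.1, ?_⟩, v', k3, k4, FS.mem_add.2 (Or.inr rfl)⟩
      intro x hx
      exact FS.mem_add.2 (Or.inl (k2.2.2 x hx)))
  obtain ⟨B, hB⟩ := Bdd.collection (M := M) (P := fun v : Sq M => (E.W v ∧ v.len = max n w.len) ∧
      w ≤ v) (by fun_prop) (Bdd.mono (P := fun v => E.W v ∧ v.len = max n w.len)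
      (E.hW.bdd_level (max n w.len)) (by rintro x ⟨h, _⟩; exact h))
    (R := fun (v : Sq M) (N : M) => ∃ v', E.W v' ∧ v ≤ v' ∧ (t, v', j) ∈ p1.2 ∧ v'.len ≤ N)
    (by fun_prop) (by
      intro v hv
      obtain ⟨v', k1, k2, k3⟩ := h3 v hv
      exact ⟨v'.len, v', k1, k2, k3, le_rfl⟩)
  obtain ⟨m, X, hX⟩ := h1.2.2 (max n B)
  have hX' : ∀ i x, x ∈ fs M (fun x => x ∈ X i ∧ t' i ≤ x) ↔ (x ∈ X i ∧ t' i ≤ x) := fun i x =>
    mem_fs (by fun_prop) ((X i).bdd_mem.mono fun x hx => hx.1)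
  have hY : ∀ y, y ∈ fs M (fun y => (E.W y ∧ y.len = m) ∧ ∀ s : Fin d → Sq M,
      (∀ i, s i ∈ fs M (fun x => x ∈ X i ∧ t' i ≤ x)) → E.c (s, y) = j) ↔
      ((E.W y ∧ y.len = m) ∧ ∀ s : Fin d → Sq M,
      (∀ i, s i ∈ fs M (fun x => x ∈ X i ∧ t' i ≤ x)) → E.c (s, y) = j) := fun y =>
    mem_fs (by fun_prop) ((E.hW.bdd_level m).mono fun x hx => hx.1)
  refine ⟨m, fun i => fs M (fun x => x ∈ X i ∧ t' i ≤ x), fs M (fun y => (E.W y ∧ y.len = m) ∧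
    ∀ s : Fin d → Sq M, (∀ i, s i ∈ fs M (fun x => x ∈ X i ∧ t' i ≤ x)) → E.c (s, y) = j),
    (le_max_left _ _).trans hX.1, ?_, ?_, ?_, ?_, ?_⟩
  · intro i x hx
    exact hX.2.1 i x ((hX' i x).1 hx).1
  · intro y hy
    exact ((hY y).1 hy).1
  · intro i z hz hz' hzl
    obtain ⟨u, hu, hzu⟩ := h2.2.1 i z ((hU i z).2 (Or.inl ⟨⟨hz, hzl⟩, hz'⟩))
    obtain ⟨x, hx, hux⟩ := (hX.2.2.1 i).le hu (h1.1 i u hu) le_rfl (le_max_right _ _)
    exact ⟨x, (hX' i x).2 ⟨hx, (hz'.trans hzu).trans hux⟩, hzu.trans hux⟩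
  · intro v hv hwv hvl
    obtain ⟨N, hN, v', k1, k2, k3, k4⟩ := hB v ⟨⟨hv, hvl⟩, hwv⟩
    obtain ⟨y, l1, l2, l3, l4⟩ := hX.2.2.2 v' k1
      (((k4.trans (show N ≤ B from hN.le)).trans (le_max_right _ _)).trans hX.1)
    refine ⟨y, (hY y).2 ⟨⟨l1, l3⟩, ?_⟩, k2.trans l2⟩
    intro s hs
    exact l4 t j k3 s (fun i => ((hX' i _).1 (hs i)).1)
      (fun i => (htt' i).trans ((hX' i _).1 (hs i)).2)
  · intro s y hs hy
    exact ((hY y).1 hy).2 s hs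

end Setup

section final
variable {M : Type u} [ACAModel M]

theorem dm_succ {d : ℕ} (hF : FHL M d) : DM M (d + 1) := by
  intro T hT k c hc hck
  have hrec : Rec M (fun q : (Fin d → Sq M) × Sq M => c (Fin.cons q.2 q.1)) :=
    hc.comp (rec_cons' (by fun_prop) (by fun_prop))
  let E : Setup M d :=
    { T := fun i => T i.succ
      W := T 0
      c := fun q => c (Fin.cons q.2 q.1)
      k := k
      hT := fun i => hT i.succ
      hW := hT 0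
      hc := hrec
      hk := by
        intro s w n hs hw hwl
        refine hck _ ⟨?_, n, ?_⟩
        · refine Fin.cases ?_ (fun i => ?_)
          · exact hw
          · exact (hs i).1
        · refine Fin.cases ?_ (fun i => ?_)
          · exact hwl
          · exact (hs i).2 }
  obtain ⟨t, w, j, ht, hw, hj, h⟩ := Setup.exists_dense hF E
  refine ⟨Fin.cons w t, ?_, j, hj, ?_⟩
  · refine Fin.cases ?_ (fun i => ?_)
    · exact hw
    · exact ht i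
  · intro n
    obtain ⟨m, X, Y, h1, h2, h3, h4, h5, h6⟩ := h n
    refine ⟨m, Fin.cons Y X, h1, ?_, ?_, ?_⟩
    · refine Fin.cases ?_ (fun i => ?_)
      · exact h3
      · exact h2 i
    · refine Fin.cases ?_ (fun i => ?_)
      · exact h5
      · exact h4 i
    · intro v hv
      have := h6 (fun i => v i.succ) (v 0) (fun i => hv i.succ) (hv 0)
      have h7 : (Fin.cons (v 0) (fun i : Fin d => v i.succ) : Fin (d + 1) → Sq M) = v :=
        Fin.cons_self_tail v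
      change c (Fin.cons (v 0) (fun i : Fin d => v i.succ)) = j at this
      rwa [h7] at this

theorem hli_and_fhl : ∀ d : ℕ, HLi M true (d + 1) ∧ FHL M d := by
  intro d
  induction d with
  | zero => exact ⟨hli_of_dm (dm_succ fhl_zero), fhl_zero⟩
  | succ d ih =>
    have h := fhl_of_hli ih.1
    exact ⟨hli_of_dm (dm_succ h), h⟩

theorem hli_of_aca (full : Bool) (d : ℕ) : HLi M full (d + 1) := hli_of_dm (dm_succ (hli_and_fhl d).2)

end final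

end Pool.Agent.H75.RM
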