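import Pool.Agent.H75.RM.Tree

universe u v w x

set_option linter.unusedSectionVars false

namespace Pool.Agent.H75.RM

section fhl
variable {M : Type u} [ACAModel M]

/-- `L 0, L 1, …` are the levels of a rooted tree (ordered by the initial segment relation) -/
structure Lev (L : M → FS M (Sq M)) (root : Sq M) : Prop where
  hrec : Rec M L
  h0 : ∀ x, x ∈ L 0 ↔ x = root
  h1 : ∀ r v, v ∈ L (r + 1) → ∃ u, u ∈ L r ∧ u ≤ v
  h2 : ∀ r u, u ∈ L r → ∃ v, v ∈ L (r + 1) ∧ u ≤ v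
  h3 : ∀ r u v, u ∈ L r → v ∈ L r → u ≤ v → u = v

variable (M) in
/-- the one-step form of the Halpern-Läuchli theorem -/
def FHL (d : ℕ) : Prop :=
  ∀ (L : Fin d → M → FS M (Sq M)) (root : Fin d → Sq M), (∀ i, Lev (L i) (root i)) → ∀ k : M,
    ∀ c : M × (Fin d → Sq M) → M, Rec M c → (∀ r v, (∀ i, v i ∈ L i r) → c (r, v) < k) →
      ∃ r0 r1, r0 < r1 ∧ ∃ t : Fin d → Sq M, (∀ i, t i ∈ L i r0) ∧ ∃ j, j < k ∧
        ∃ Y : Fin d → FS M (Sq M), (∀ i y, y ∈ Y i → y ∈ L i r1 ∧ t i ≤ y) ∧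
          (∀ i u, u ∈ L i (r0 + 1) → t i ≤ u → ∃ y, y ∈ Y i ∧ u ≤ y) ∧
          ∀ v, (∀ i, v i ∈ Y i) → c (r1, v) = j

theorem fhl_zero : FHL M 0 := by
  intro L root _ k c _ hck
  refine ⟨0, 1, zero_lt_one, fun i => i.elim0, fun i => i.elim0, c (1, fun i => i.elim0),
    hck _ _ (fun i => i.elim0), fun i => i.elim0, fun i => i.elim0, fun i => i.elim0, ?_⟩
  intro v _
  have : v = fun i => i.elim0 := funext fun i => i.elim0
  rw [this]

/-- `u` is the node with number `r` of the branch coded by `σ` -/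
def Nd (L : M → FS M (Sq M)) (root : Sq M) (σ : Sq M) (r : M) (u : Sq M) : Prop :=
  u ∈ L r ∧ (r = 0 → u = root) ∧ ∀ r', r = r' + 1 → σ.get r' = u.val

/-- the tree of codes of branches -/
def BT (L : M → FS M (Sq M)) (root : Sq M) (σ : Sq M) : Prop :=
  ∀ r, r < σ.len → ∃ u v, Nd L root σ r u ∧ Nd L root σ (r + 1) v ∧ u ≤ v

variable {L : M → FS M (Sq M)} {root : Sq M}

theorem rec_Nd (hL : Lev L root) : Rec M (fun p : Sq M × M × Sq M => Nd L root p.1 p.2.1 p.2.2) := by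
  have := hL.hrec
  unfold Nd
  fun_prop

theorem rec_BT (hL : Lev L root) : Rec M (BT L root) := by
  have h := rec_Nd hL
  unfold BT
  have h1 : Rec M (fun p : (Sq M × M) × Sq M × Sq M => Nd L root p.1.1 p.1.2 p.2.1) :=
    h.comp (f := fun p : (Sq M × M) × Sq M × Sq M => (p.1.1, p.1.2, p.2.1)) (by fun_prop)
  have h2 : Rec M (fun p : (Sq M × M) × Sq M × Sq M => Nd L root p.1.1 (p.1.2 + 1) p.2.2) :=
    h.comp (f := fun p : (Sq M × M) × Sq M × Sq M => (p.1.1, p.1.2 + 1, p.2.2)) (by fun_prop)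
  have h3 : Rec M (fun p : Sq M × M => ∃ q : Sq M × Sq M, Nd L root p.1 p.2 q.1 ∧
      Nd L root p.1 (p.2 + 1) q.2 ∧ q.1 ≤ q.2) := by
    refine Rec.ex (P := fun (p : Sq M × M) (q : Sq M × Sq M) => Nd L root p.1 p.2 q.1 ∧
      Nd L root p.1 (p.2 + 1) q.2 ∧ q.1 ≤ q.2) ?_
    exact Rec.and h1 (Rec.and h2 (by fun_prop))
  have h4 : Rec M (fun σ : Sq M => ∀ r, r < σ.len → ∃ q : Sq M × Sq M, Nd L root σ r q.1 ∧
      Nd L root σ (r + 1) q.2 ∧ q.1 ≤ q.2) := by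
    refine Rec.ball (b := fun σ : Sq M => σ.len) (by fun_prop) h3
  refine Rec.congr h4 ?_
  intro σ
  simp only [Prod.exists]

theorem Nd.unique {σ : Sq M} {r : M} {u v : Sq M} (hu : Nd L root σ r u) (hv : Nd L root σ r v) :
    u = v := by
  rcases zero_or_succ r with h | ⟨r', h⟩
  · rw [hu.2.1 h, hv.2.1 h]
  · exact Sq.val_inj ((hu.2.2 r' h).symm.trans (hv.2.2 r' h))

theorem Nd.zero (hL : Lev L root) (σ : Sq M) : Nd L root σ 0 root :=
  ⟨(hL.h0 _).2 rfl, fun _ => rfl, fun r' h => absurd h.symm (by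
    have := (lt_succ_self r').trans_le' (zero_le (a := r'))
    exact this.ne')⟩

theorem BT.exists_nd (hL : Lev L root) {σ : Sq M} (h : BT L root σ) {r : M} (hr : r ≤ σ.len) :
    ∃ u, Nd L root σ r u := by
  rcases zero_or_succ r with h1 | ⟨r', h1⟩
  · exact ⟨root, h1 ▸ Nd.zero hL σ⟩
  · subst h1
    obtain ⟨u, v, _, h3, _⟩ := h r' (succ_le_iff.1 hr)
    exact ⟨v, h3⟩

theorem BT.mono (hL : Lev L root) {σ : Sq M} (h : BT L root σ) {r r' : M} (hr : r ≤ r')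
    (hr' : r' ≤ σ.len) {u v : Sq M} (hu : Nd L root σ r u) (hv : Nd L root σ r' v) : u ≤ v := by
  have h0 := rec_Nd hL
  have h0' : Rec M (fun p : M × Sq M => Nd L root σ p.1 p.2) :=
    h0.comp (f := fun p : M × Sq M => (σ, p.1, p.2)) (by fun_prop)
  revert v hr hr'
  have key : ∀ r', r ≤ r' → r' ≤ σ.len → ∀ v, Nd L root σ r' v → u ≤ v := by
    refine rec_induction (P := fun r' => r ≤ r' → r' ≤ σ.len → ∀ v, Nd L root σ r' v → u ≤ v)
      ?_ ?_ ?_
    · fun_prop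
    · intro h1 _ v hv
      have : r = 0 := le_antisymm h1 zero_le
      subst this
      rw [hu.unique hv]
    · intro r' ih h1 h2 v hv
      rcases h1.lt_or_eq with h3 | h3
      · obtain ⟨u', v', h4, h5, h6⟩ := h r' (succ_le_iff.1 h2)
        have h7 := ih (lt_succ_iff.1 h3) ((lt_succ_self r').le.trans h2) u' h4
        rw [hv.unique h5]
        exact h7.trans h6
      · subst h3
        rw [hu.unique hv]
  intro h1 h2 v hv
  exact key r' h1 h2 v hv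

theorem Nd.of_le {σ τ : Sq M} (h : τ ≤ σ) {r : M} (hr : r ≤ τ.len) {u : Sq M} :
    Nd L root σ r u ↔ Nd L root τ r u := by
  unfold Nd
  refine and_congr Iff.rfl (and_congr Iff.rfl ?_)
  refine forall_congr' fun r' => ?_
  constructor
  · intro h1 h2
    rw [h.2 r' (succ_le_iff.1 (h2 ▸ hr))]
    exact h1 h2
  · intro h1 h2
    rw [← h.2 r' (succ_le_iff.1 (h2 ▸ hr))]
    exact h1 h2

theorem BT.snoc (hL : Lev L root) {σ : Sq M} (h : BT L root σ) {u v : Sq M}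
    (hu : Nd L root σ σ.len u) (hv : v ∈ L (σ.len + 1)) (huv : u ≤ v) :
    BT L root (σ.snoc v.val) ∧ Nd L root (σ.snoc v.val) (σ.len + 1) v := by
  have h1 : Nd L root (σ.snoc v.val) (σ.len + 1) v := by
    refine ⟨hv, fun h2 => absurd h2 ?_, fun r' hr' => ?_⟩
    · exact ((lt_succ_self σ.len).trans_le' (zero_le (a := σ.len))).ne'
    · have : r' = σ.len := (add_right_cancel hr').symm
      rw [this, Sq.snoc_get_len]
  refine ⟨?_, h1⟩
  intro r hr
  rw [Sq.snoc_len] at hr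
  have hle := Sq.le_snoc σ v.val
  rcases (lt_succ_iff.1 hr).lt_or_eq with h2 | h2
  · obtain ⟨u', v', h3, h4, h5⟩ := h r h2
    exact ⟨u', v', (Nd.of_le hle h2.le).2 h3, (Nd.of_le hle (succ_le_iff.2 h2)).2 h4, h5⟩
  · subst h2
    exact ⟨u, v, (Nd.of_le hle le_rfl).2 hu, h1, huv⟩

theorem BT.closed {σ τ : Sq M} (h : BT L root σ) (hle : τ ≤ σ) : BT L root τ := by
  intro r hr
  obtain ⟨u, v, h3, h4, h5⟩ := h r (hr.trans_le hle.1)
  exact ⟨u, v, (Nd.of_le hle hr.le).1 h3, (Nd.of_le hle (succ_le_iff.2 hr)).1 h4, h5⟩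

theorem treeP_BT (hL : Lev L root) : TreeP (BT L root) where
  hrec := rec_BT hL
  nonempty := ⟨Sq.nil, fun r hr => absurd hr (by rw [Sq.nil_len]; exact not_lt_zero' r)⟩
  closed := fun t ht s hs => ht.closed hs
  fb := by
    intro s hs
    obtain ⟨b, hb⟩ := (L (s.len + 1)).bdd_mem
    refine ⟨b, ?_⟩
    intro x hx
    obtain ⟨u, v, h3, h4, h5⟩ := hx s.len (by rw [Sq.snoc_len]; exact lt_succ_self _)
    have h6 := h4.2.2 _ rfl
    rw [Sq.snoc_get_len] at h6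
    rw [h6]
    exact hb v h4.1
  nt := by
    intro s hs
    obtain ⟨u, hu⟩ := hs.exists_nd hL le_rfl
    obtain ⟨v, hv, huv⟩ := hL.h2 _ _ hu.1
    exact ⟨v.val, (hs.snoc hL hu hv huv).1⟩

theorem exists_next_of_unbdd {A : M → Prop} (hA : Rec M A) (hinf : ∀ b, ∃ a, A a ∧ b < a) :
    ∃ a0 a1, A a0 ∧ (∀ x, A x → a0 ≤ x) ∧ Consecutive {x | A x} a0 a1 := by
  obtain ⟨a, ha, _⟩ := hinf 0
  obtain ⟨a0, h0, h0'⟩ := exists_least hA ⟨a, ha⟩
  obtain ⟨a1, ⟨h1, h1'⟩, h1''⟩ := exists_least (P := fun x => A x ∧ a0 < x) (by fun_prop) (hinf a0)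
  refine ⟨a0, a1, h0, fun x hx => not_lt.1 fun h => h0' x h hx, h0, h1, h1', ?_⟩
  rintro x hx ⟨h2, h3⟩
  exact h1'' x h3 ⟨hx, h2⟩

theorem fhl_of_hli {full : Bool} {d : ℕ} (h : HLi M full (d + 1)) : FHL M (d + 1) := by
  intro L root hL k c hc hck
  have hlst : ∀ i, ∃ f : Sq M → Sq M, Rec M f ∧ ∀ σ, (∃ u, Nd (L i) (root i) σ σ.len u) →
      Nd (L i) (root i) σ σ.len (f σ) := by
    intro i
    have : Inhabited (Sq M) := ⟨Sq.nil⟩
    have h0 := rec_Nd (hL i)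
    exact rec_choice (R := fun σ u => Nd (L i) (root i) σ σ.len u)
      (h0.comp (f := fun p : Sq M × Sq M => (p.1, p.1.len, p.2)) (by fun_prop))
  choose lst hlrec hlst using hlst
  have hlst' : ∀ i σ, BT (L i) (root i) σ → Nd (L i) (root i) σ σ.len (lst i σ) :=
    fun i σ hσ => hlst i σ (hσ.exists_nd (hL i) le_rfl)
  have hk : 1 ≤ k := by
    rw [one_le_iff]
    exact lt_of_le_of_lt zero_le (hck 0 root (fun i => ((hL i).h0 _).2 rfl))
  obtain ⟨A, hA, hAinf, S', hS', j, hj, hmono⟩ := h (fun i => BT (L i) (root i))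
    (fun i => treeP_BT (hL i)) k hk (fun σ => c ((σ 0).len, fun i => lst i (σ i))) (by fun_prop) (by
      rintro σ ⟨h1, n, h2⟩
      refine hck _ _ ?_
      intro i
      rw [h2 0, ← h2 i]
      exact (hlst' i _ (h1 i)).1)
  obtain ⟨a0, a1, ha0, hmin, hcons⟩ := exists_next_of_unbdd hA hAinf
  have ha1 : A a1 := hcons.2.1
  have h01 : a0 < a1 := hcons.2.2.1
  have hσ : ∀ i, ∃ s, S' i s ∧ s.len = a0 := fun i => (hS' i).2.nonempty_level a0 ha0
  choose σ hσ hσl using hσ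
  have hSrec : ∀ i, Rec M (S' i) := fun i => (hS' i).1
  have hLrec : ∀ i, Rec M (L i) := fun i => (hL i).hrec
  let R : Fin (d + 1) → Sq M → Prop := fun i y => y ∈ L i a1 ∧
    ∃ τ, (S' i τ ∧ τ.len = a1 ∧ σ i ≤ τ) ∧ y = lst i τ
  have hY : ∀ i y, y ∈ fs M (R i) ↔ R i y := by
    intro i y
    refine mem_fs ?_ ((L i a1).bdd_mem.mono fun y hy => hy.1)
    have h1 := hSrec i
    have h2 := hLrec i
    have h3 := hlrec i
    fun_prop
  refine ⟨a0, a1, h01, fun i => lst i (σ i), ?_, j, hj, fun i => fs M (R i), ?_, ?_, ?_⟩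
  · intro i
    have := (hlst' i _ ((hS' i).2.subset _ (hσ i))).1
    rwa [hσl i] at this
  · intro i y hy
    rw [hY] at hy
    obtain ⟨h1, τ, ⟨h2, h3, h4⟩, rfl⟩ := hy
    refine ⟨h1, ?_⟩
    have h5 := hlst' i _ ((hS' i).2.subset _ (hσ i))
    have h6 := hlst' i _ ((hS' i).2.subset _ h2)
    rw [← Nd.of_le h4 le_rfl] at h5
    exact BT.mono (hL i) ((hS' i).2.subset _ h2) h4.1 le_rfl h5 h6
  · intro i u hu htu
    have h1 := (hS' i).2.subset _ (hσ i)
    have h2 := hlst' i _ h1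
    have h3 := BT.snoc (hL i) h1 h2 (by rw [hσl i]; exact hu) htu
    obtain ⟨τ, ⟨h4, h5, h6⟩, _⟩ := (hS' i).2.branching a0 a1 hcons (σ i) (hσ i) (hσl i) _ h3.1
    have h7 := (hS' i).2.subset _ h4
    have h8 := hlst' i _ h7
    refine ⟨lst i τ, ?_, ?_⟩
    · rw [hY]
      refine ⟨?_, τ, ⟨h4, h5, (Sq.le_snoc _ _).trans h6⟩, rfl⟩
      have := h8.1
      rwa [h5] at this
    · have h9 : Nd (L i) (root i) τ ((σ i).len + 1) u := by
        rw [Nd.of_le h6 (by rw [Sq.snoc_len])]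
        exact h3.2
      refine BT.mono (hL i) h7 ?_ le_rfl h9 h8
      rw [hσl i, h5]
      exact succ_le_iff.2 h01
  · intro v hv
    have h1 : ∀ i, ∃ τ, (S' i τ ∧ τ.len = a1 ∧ σ i ≤ τ) ∧ v i = lst i τ := fun i =>
      ((hY i _).1 (hv i)).2
    choose τ hτ hvτ using h1
    have h2 : c ((τ 0).len, fun i => lst i (τ i)) = j :=
      hmono τ ⟨fun i => (hτ i).1, a1, fun i => (hτ i).2.1⟩
    rw [(hτ 0).2.1] at h2
    rw [← h2]
    congr 2
    funext i
    exact hvτ i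

end fhl

end Pool.Agent.H75.RM
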