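import Pool.Agent.H75.RM.ACA

universe u v w x

set_option linter.unusedSectionVars false

namespace Pool.Agent.H75.RM

section fs
variable {M : Type u} [ACAModel M]
variable {α : Type v} {β : Type w} {γ : Type x} [Coded M α] [Coded M β] [Coded M γ]

variable (M) in
/-- bounded (that is, finite in the sense of the model) -/
def Bdd (P : α → Prop) : Prop := ∃ b : M, ∀ a, P a → cd M a < b

variable (M α) in
/-- finite sets in the sense of the model -/
structure FS where
  P : α → Prop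
  hrec : Rec M P
  bdd : Bdd M P

instance : Membership α (FS M α) := ⟨fun X a => X.P a⟩

theorem FS.mem_def {X : FS M α} {a : α} : a ∈ X ↔ X.P a := Iff.rfl

theorem FS.ext' {X Y : FS M α} (h : ∀ a, a ∈ X ↔ a ∈ Y) : X = Y := by
  cases X; cases Y
  have : ‹α → Prop› = ‹α → Prop› := rfl
  simp only [FS.mem_def] at h
  congr
  funext a
  exact propext (h a)

/-- the number `m` codes the set `X` -/
def Codes (m : M) (P : α → Prop) : Prop := ∃ t : Sq M, t.val = m ∧ ∀ a, P a ↔ t.get (cd M a) = 1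

theorem FS.exists_codes (X : FS M α) : ∃ m : M, Codes m X.P := by
  classical
  obtain ⟨b, hb⟩ := X.bdd
  have h1 : Rec M (fun i : M => ∃ a, cd M a = i ∧ X.P a) := Rec.ex_code0 X.hrec
  obtain ⟨t, ht1, ht2⟩ := Sq.exists_of_rec (M := M)
    (f := fun i => if ∃ a, cd M a = i ∧ X.P a then 1 else 0) (by fun_prop) b
  refine ⟨t.val, t, rfl, ?_⟩
  intro a
  by_cases ha : X.P a
  · rw [ht2 _ (hb a ha), if_pos ⟨a, rfl, ha⟩]
    simp [ha]
  · simp only [ha, false_iff]
    by_cases hl : cd M a < b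
    · rw [ht2 _ hl, if_neg]
      · exact zero_ne_one
      · rintro ⟨a', h1, h2⟩
        rw [cd_inj] at h1
        subst h1
        exact ha h2
    · rw [Sq.get_of_le (by rw [ht1]; exact not_lt.1 hl)]
      exact zero_ne_one

theorem rec_codes {P : β → α → Prop} {f : β → M} (hf : Rec M f)
    (hP : Rec M (fun p : β × α => P p.1 p.2)) : Rec M (fun b => Codes (f b) (P b)) := by
  unfold Codes
  fun_prop

noncomputable instance instCodedFS : Coded M (FS M α) where
  code := fun X => mu (fun m : M => Codes m X.P)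
  inj := by
    intro X Y h
    have hX : Rec M X.P := X.hrec
    have hY : Rec M Y.P := Y.hrec
    have h1 := (mu_spec (P := fun m : M => Codes m X.P) (rec_codes (by fun_prop) (by fun_prop))
      X.exists_codes).1
    have h2 := (mu_spec (P := fun m : M => Codes m Y.P) (rec_codes (by fun_prop) (by fun_prop))
      Y.exists_codes).1
    simp only at h
    rw [h] at h1
    obtain ⟨t, ht, ht'⟩ := h1
    obtain ⟨t', ht2, ht2'⟩ := h2
    have : t = t' := Sq.val_inj (ht.trans ht2.symm)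
    subst this
    apply FS.ext'
    intro a
    exact (ht' a).trans (ht2' a).symm
  range_mem := by
    have h1 : Rec M (fun m : M => ∃ t : Sq M, t.val = m ∧ ∀ t' : Sq M, t'.val < m →
        ¬ ∀ a : α, (t.get (cd M a) = 1 ↔ t'.get (cd M a) = 1)) := by fun_prop
    have h2 : InS {m : M | ∃ t : Sq M, t.val = m ∧ ∀ t' : Sq M, t'.val < m →
        ¬ ∀ a : α, (t.get (cd M a) = 1 ↔ t'.get (cd M a) = 1)} := inS_iff_rec.2 h1
    convert h2 using 1
    ext m
    simp only [Set.mem_range, Set.mem_ofPred_eq]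
    constructor
    · rintro ⟨X, rfl⟩
      have hX : Rec M X.P := X.hrec
      obtain ⟨⟨t, ht, ht'⟩, h3⟩ := (mu_spec (P := fun m : M => Codes m X.P)
        (rec_codes (by fun_prop) (by fun_prop)) X.exists_codes)
      refine ⟨t, ht, ?_⟩
      intro t' h4 h5
      exact h3 _ h4 ⟨t', rfl, fun a => (ht' a).trans (h5 a)⟩
    · rintro ⟨t, rfl, ht⟩
      refine ⟨⟨fun a => t.get (cd M a) = 1, by fun_prop, t.len, ?_⟩, ?_⟩
      · intro a ha
        by_contra h3
        rw [Sq.get_of_le (not_lt.1 h3)] at ha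
        exact zero_ne_one ha
      · apply mu_eq
        · exact ⟨t, rfl, fun a => Iff.rfl⟩
        · rintro m hm ⟨t', rfl, ht'⟩
          exact ht t' hm ht'

theorem FS.codes_cd (X : FS M α) : Codes (cd M X) X.P := by
  have hX : Rec M X.P := X.hrec
  exact (mu_spec (P := fun m : M => Codes m X.P) (rec_codes (by fun_prop) (by fun_prop))
      X.exists_codes).1

@[fun_prop]
theorem FS.rec_mem {f : β → α} {X : β → FS M α} (hf : Rec M f) (hX : Rec M X) :
    Rec M (fun b => f b ∈ X b) := by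
  refine Rec.congr (f := fun b => ∃ t : Sq M, t.val = cd M (X b) ∧ t.get (cd M (f b)) = 1)
    (by fun_prop) ?_
  intro b
  rw [eq_iff_iff]
  obtain ⟨t, ht, ht'⟩ := (X b).codes_cd
  constructor
  · rintro ⟨t', h1, h2⟩
    have : t = t' := Sq.val_inj (ht.trans h1.symm)
    subst this
    exact (ht' _).2 h2
  · intro h
    exact ⟨t, ht, (ht' _).1 h⟩

/-- the empty finite set -/
def FS.empty : FS M α := ⟨fun _ => False, by fun_prop, 0, fun _ h => h.elim⟩

instance : Inhabited (FS M α) := ⟨FS.empty⟩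

@[simp] theorem FS.not_mem_empty (a : α) : ¬ a ∈ (FS.empty : FS M α) := fun h => h

open Classical in
variable (M) in
/-- the finite set of all `a` with `P a` -/
noncomputable def fs (P : α → Prop) : FS M α :=
  if h : Rec M P ∧ Bdd M P then ⟨P, h.1, h.2⟩ else FS.empty

theorem mem_fs {P : α → Prop} (h1 : Rec M P) (h2 : Bdd M P) {a : α} : a ∈ fs M P ↔ P a := by
  unfold fs
  rw [dif_pos ⟨h1, h2⟩]
  rfl

@[fun_prop]
theorem rec_fs {P : β → α → Prop} (hP : Rec M (fun p : β × α => P p.1 p.2)) :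
    Rec M (fun b => fs M (P b)) := by
  have hb : ∀ b, Rec M (P b) := fun b => hP.comp (f := fun a : α => (b, a)) (by fun_prop)
  refine rec_of_rel (R := fun b (X : FS M α) =>
    ((∃ m : M, ∀ a, P b a → cd M a < m) ∧ ∀ a, (a ∈ X ↔ P b a)) ∨
    (¬ (∃ m : M, ∀ a, P b a → cd M a < m) ∧ ∀ a, ¬ a ∈ X)) (by fun_prop) ?_ ?_
  · intro b
    by_cases h : ∃ m : M, ∀ a, P b a → cd M a < m
    · left
      exact ⟨h, fun a => mem_fs (hb b) h⟩
    · right
      refine ⟨h, fun a => ?_⟩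
      unfold fs
      rw [dif_neg (fun h' => h h'.2)]
      exact fun h => h
  · rintro b X (⟨h1, h2⟩ | ⟨h1, h2⟩)
    · apply FS.ext'
      intro a
      rw [mem_fs (hb b) h1, h2]
    · apply FS.ext'
      intro a
      unfold fs
      rw [dif_neg (fun h' => h1 h'.2)]
      simp [h2]

theorem Bdd.mono {P Q : α → Prop} (h : Bdd M P) (hQ : ∀ a, Q a → P a) : Bdd M Q := by
  obtain ⟨b, hb⟩ := h
  exact ⟨b, fun a ha => hb a (hQ a ha)⟩

theorem FS.bdd_mem (X : FS M α) : Bdd M (fun a => a ∈ X) := X.bdd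

theorem Bdd.or {P Q : α → Prop} (h : Bdd M P) (h' : Bdd M Q) : Bdd M (fun a => P a ∨ Q a) := by
  obtain ⟨b, hb⟩ := h
  obtain ⟨b', hb'⟩ := h'
  refine ⟨max b b', ?_⟩
  rintro a (ha | ha)
  · exact lt_of_lt_of_le (hb a ha) (le_max_left _ _)
  · exact lt_of_lt_of_le (hb' a ha) (le_max_right _ _)

theorem Bdd.eq (a : α) : Bdd M (fun x => x = a) := ⟨cd M a + 1, fun x hx => hx ▸ lt_succ_self _⟩

theorem Bdd.lt (b : M) : Bdd M (fun x : M => x < b) := ⟨b, fun _ hx => hx⟩

/-- collection -/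
theorem Bdd.collection {P : α → Prop} (hP : Rec M P) (hb : Bdd M P) {R : α → β → Prop}
    (hR : Rec M (fun p : α × β => R p.1 p.2)) (h : ∀ a, P a → ∃ b, R a b) :
    ∃ B : M, ∀ a, P a → ∃ b, cd M b < B ∧ R a b := by
  obtain ⟨n, hn⟩ := hb
  have h1 := sg_collection (M := M)
    (P := fun x m => (∀ a : α, cd M a = x → P a → ∃ b : β, cd M b = m ∧ R a b)) (Rec.sg (by fun_prop)) n
    (by
      intro x _
      by_cases hx : ∃ a : α, cd M a = x ∧ P a
      · obtain ⟨a, ha, hPa⟩ := hx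
        obtain ⟨b, hb⟩ := h a hPa
        refine ⟨cd M b, ?_⟩
        rintro a' ha' hPa'
        have : a' = a := (cd_inj (M := M)).1 (ha'.trans ha.symm)
        subst this
        exact ⟨b, rfl, hb⟩
      · refine ⟨0, ?_⟩
        intro a ha hPa
        exact absurd ⟨a, ha, hPa⟩ hx)
  obtain ⟨B, hB⟩ := h1
  refine ⟨B, ?_⟩
  intro a ha
  obtain ⟨m, hm, h2⟩ := hB (cd M a) (hn a ha)
  obtain ⟨b, hb, hR⟩ := h2 a rfl ha
  exact ⟨b, hb ▸ hm, hR⟩

/-- a finite union of finite sets is finite -/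
theorem Bdd.biUnion {P : α → Prop} (hP : Rec M P) (hb : Bdd M P) {R : α → β → Prop}
    (hR : Rec M (fun p : α × β => R p.1 p.2)) (h : ∀ a, P a → Bdd M (R a)) :
    Bdd M (fun b => ∃ a, P a ∧ R a b) := by
  obtain ⟨B, hB⟩ := Bdd.collection (M := M) hP hb (R := fun a (m : M) => ∀ b, R a b → cd M b < m)
    (by fun_prop) h
  refine ⟨B, ?_⟩
  rintro b ⟨a, ha, hb⟩
  obtain ⟨m, hm, h1⟩ := hB a ha
  exact (h1 b hb).trans hm

theorem Bdd.image {P : α → Prop} (hP : Rec M P) (hb : Bdd M P) {f : α → β} (hf : Rec M f) :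
    Bdd M (fun b => ∃ a, P a ∧ b = f a) := by
  refine Bdd.biUnion hP hb (R := fun a b => b = f a) (by fun_prop) ?_
  intro a _
  exact Bdd.eq (f a)

theorem Bdd.prod {P : α → Prop} {Q : β → Prop} (h : Bdd M P) (h' : Bdd M Q) :
    Bdd M (fun p : α × β => P p.1 ∧ Q p.2) := by
  obtain ⟨b, hb⟩ := h
  obtain ⟨b', hb'⟩ := h'
  refine ⟨pr b b' + 1, ?_⟩
  rintro ⟨x, y⟩ ⟨h1, h2⟩
  exact lt_succ_iff.2 (pr_mono (hb x h1).le (hb' y h2).le)

theorem Bdd.pi : ∀ {d : ℕ} {P : Fin d → α → Prop} (_ : ∀ i, Bdd M (P i)),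
    Bdd M (fun v : Fin d → α => ∀ i, P i (v i))
  | 0, _, _ => ⟨1, fun _ _ => zero_lt_one⟩
  | d + 1, P, h => by
    obtain ⟨b, hb⟩ := h 0
    obtain ⟨b', hb'⟩ := Bdd.pi (P := fun i : Fin d => P i.succ) (fun i => h i.succ)
    refine ⟨pr b b' + 1, ?_⟩
    intro v hv
    refine lt_succ_iff.2 ?_
    rw [cd_pi_succ]
    exact pr_mono (hb _ (hv 0)).le (hb' (Fin.tail v) (fun i => hv i.succ)).le

/-- choosing the witness with the least code -/
theorem exists_least_code {P : α → Prop} (hP : Rec M P) (h : ∃ a, P a) :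
    ∃ a, P a ∧ ∀ a', P a' → cd M a ≤ cd M a' := by
  obtain ⟨a0, h0⟩ := h
  obtain ⟨m, ⟨a, ha, ha'⟩, h2⟩ := exists_least (M := M) (P := fun m => ∃ a, cd M a = m ∧ P a)
    (by fun_prop) ⟨_, a0, rfl, h0⟩
  refine ⟨a, ha', ?_⟩
  intro a' h3
  by_contra h4
  rw [not_le, ha] at h4
  exact h2 _ h4 ⟨a', rfl, h3⟩

/-- computable choice functions -/
theorem rec_choice [Inhabited β] {R : α → β → Prop} (hR : Rec M (fun p : α × β => R p.1 p.2)) :
    ∃ f : α → β, Rec M f ∧ ∀ a, (∃ b, R a b) → R a (f a) := by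
  classical
  have h1 : ∀ a, ∃ b, (R a b ∧ ∀ b', R a b' → cd M b ≤ cd M b') ∨ ((¬ ∃ b, R a b) ∧ b = default) := by
    intro a
    by_cases h : ∃ b, R a b
    · obtain ⟨b, hb⟩ := exists_least_code (M := M) (P := R a)
        (hR.comp (f := fun b : β => (a, b)) (by fun_prop)) h
      exact ⟨b, Or.inl hb⟩
    · exact ⟨default, Or.inr ⟨h, rfl⟩⟩
  choose f hf using h1
  refine ⟨f, ?_, ?_⟩
  · refine rec_of_rel (R := fun a b => (R a b ∧ ∀ b', R a b' → cd M b ≤ cd M b') ∨
      ((¬ ∃ b, R a b) ∧ b = default)) (by fun_prop) hf ?_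
    rintro a b (⟨h2, h3⟩ | ⟨h2, h3⟩)
    · rcases hf a with ⟨h4, h5⟩ | ⟨h4, h5⟩
      · exact (cd_inj (M := M)).1 (le_antisymm (h5 b h2) (h3 _ h4))
      · exact absurd ⟨b, h2⟩ h4
    · rcases hf a with ⟨h4, h5⟩ | ⟨h4, h5⟩
      · exact absurd ⟨_, h4⟩ h2
      · rw [h5, h3]
  · intro a ha
    rcases hf a with ⟨h4, h5⟩ | ⟨h4, h5⟩
    · exact h4
    · exact absurd ha h4

/-- Finite iteration: if every task can be achieved by passing to an extension, then all
tasks from a finite set can be achieved simultaneously. -/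
theorem finite_iteration {C : α → Prop} {le : α → α → Prop} {D : α → β → Prop} {X : β → Prop}
    (hC : Rec M C) (hle : Rec M (fun p : α × α => le p.1 p.2)) (hD : Rec M (fun p : α × β => D p.1 p.2))
    (hX : Rec M X) (hXb : Bdd M X)
    (refl : ∀ p, C p → le p p) (trans : ∀ p q r, C p → C q → C r → le p q → le q r → le p r)
    (mono : ∀ p q b, C p → C q → le p q → D q b → D p b) (p0 : α) (h0 : C p0)
    (dense : ∀ p b, C p → le p p0 → X b → ∃ q, C q ∧ le q p ∧ D q b) :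
    ∃ p, C p ∧ le p p0 ∧ ∀ b, X b → D p b := by
  obtain ⟨n, hn⟩ := hXb
  have key : ∀ m : M, ∃ p, C p ∧ le p p0 ∧ ∀ b, X b → cd M b < m → D p b := by
    refine rec_induction (P := fun m => ∃ p, C p ∧ le p p0 ∧ ∀ b, X b → cd M b < m → D p b)
      (by fun_prop) ?_ ?_
    · exact ⟨p0, h0, refl p0 h0, fun b _ hb => absurd hb (not_lt_zero' _)⟩
    · rintro m ⟨p, h1, h2, h3⟩
      by_cases hb : ∃ b, cd M b = m ∧ X b
      · obtain ⟨b, hbm, hbX⟩ := hb
        obtain ⟨q, h4, h5, h6⟩ := dense p b h1 h2 hbX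
        refine ⟨q, h4, trans q p p0 h4 h1 h0 h5 h2, ?_⟩
        intro b' hb' hlt
        rcases (lt_succ_iff.1 hlt).lt_or_eq with h7 | h7
        · exact mono q p b' h4 h1 h5 (h3 b' hb' h7)
        · have : b' = b := (cd_inj (M := M)).1 (h7.trans hbm.symm)
          subst this
          exact h6
      · refine ⟨p, h1, h2, ?_⟩
        intro b' hb' hlt
        rcases (lt_succ_iff.1 hlt).lt_or_eq with h7 | h7
        · exact h3 b' hb' h7
        · exact absurd ⟨b', h7, hb'⟩ hb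
  obtain ⟨p, h1, h2, h3⟩ := key n
  exact ⟨p, h1, h2, fun b hb => h3 b hb (hn b hb)⟩

end fs

end Pool.Agent.H75.RM
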