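import Pool.Agent.H75.RM.Tuple

universe u v w x

set_option linter.unusedSectionVars false

namespace Pool.Agent.H75.RM

section hli
variable {M : Type u} [Model M]

/-- internal version of `IsTree` -/
structure TreeP (T : Sq M → Prop) : Prop where
  hrec : Rec M T
  nonempty : ∃ s, T s
  closed : ∀ t, T t → ∀ s, s ≤ t → T s
  fb : ∀ s, T s → ∃ b, ∀ x, T (s.snoc x) → x < b
  nt : ∀ s, T s → ∃ x, T (s.snoc x)

/-- internal version of `IsStrongSubtree` -/
structure SSub (full : Bool) (T : Sq M → Prop) (A : M → Prop) (S' : Sq M → Prop) : Prop where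
  subset : ∀ s, S' s → T s
  level : ∀ s, S' s → A s.len
  nonempty_level : ∀ a, A a → ∃ s, S' s ∧ s.len = a
  root : ∀ a, A a → (∀ x, A x → a ≤ x) → ∀ s t, S' s → S' t → s.len = a → t.len = a → s = t
  branching : ∀ a b, Consecutive {x | A x} a b → ∀ s, S' s → s.len = a → ∀ x, T (s.snoc x) →
    ∃! u, S' u ∧ u.len = b ∧ s.snoc x ≤ u
  down : full = true → ∀ a b, Consecutive {x | A x} a b → ∀ u, S' u → u.len = b →
    ∃ s, S' s ∧ s.len = a ∧ s ≤ u

/-- level product -/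
def LP {d : ℕ} (T : Fin d → Sq M → Prop) (v : Fin d → Sq M) : Prop :=
  (∀ i, T i (v i)) ∧ ∃ n, ∀ i, (v i).len = n

variable (M) in
/-- internal version of `HL` -/
def HLi (full : Bool) (d : ℕ) : Prop :=
  ∀ T : Fin d → Sq M → Prop, (∀ i, TreeP (T i)) → ∀ k : M, 1 ≤ k →
    ∀ c : (Fin d → Sq M) → M, Rec M c → (∀ v, LP T v → c v < k) →
      ∃ A : M → Prop, Rec M A ∧ (∀ b, ∃ a, A a ∧ b < a) ∧
        ∃ S' : Fin d → Sq M → Prop, (∀ i, Rec M (S' i) ∧ SSub full (T i) A (S' i)) ∧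
          ∃ j, j < k ∧ ∀ v, LP S' v → c v = j

theorem mem_cset_sq {P : Sq M → Prop} {m : M} : m ∈ cset M P ↔ ∃ s : Sq M, s.val = m ∧ P s := Iff.rfl

theorem val_mem_cset {P : Sq M → Prop} {s : Sq M} : s.val ∈ cset M P ↔ P s :=
  cd_mem_cset (M := M) (P := P) (a := s)

theorem inS_iff_rec {X : Set M} : InS X ↔ Rec M (fun m : M => m ∈ X) := by
  rw [rec_iff_recP]
  unfold RecP
  have : cset M (fun m : M => m ∈ X) = X := by
    ext m
    simp only [mem_cset, cd_self, exists_eq_left]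
  rw [this]

theorem Rec.mem_of_inS {α : Type v} [Coded M α] {X : Set M} (h : InS X) {f : α → M} (hf : Rec M f) :
    Rec M (fun a => f a ∈ X) := (inS_iff_rec.1 h).comp hf

theorem get_le_val (s : Sq M) (i : M) : s.get i ≤ s.val := by
  by_cases h : i < s.len
  · have := (ent_iff s.isSeq.1 (i := i) (x := s.get i)).2 ⟨h, rfl⟩
    exact ent_le this
  · rw [Sq.get_of_le (not_lt.1 h)]
    exact zero_le

theorem le_snoc_val (s : Sq M) (x : M) : x ≤ (s.snoc x).val := by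
  have := get_le_val (s.snoc x) s.len
  rwa [Sq.snoc_get_len] at this

theorem TreeP.isTree {T : Sq M → Prop} (h : TreeP T) : IsTree (cset M T) where
  seq := by
    rintro m ⟨s, rfl, _⟩
    exact s.isSeq
  nonempty := by
    obtain ⟨s, hs⟩ := h.nonempty
    exact ⟨s.val, val_mem_cset.2 hs⟩
  closed := by
    rintro m ⟨t, rfl, ht⟩ m' hm' hE
    exact val_mem_cset.2 (h.closed t ht ⟨m', hm'⟩ (Sq.Ext_iff.1 hE))
  finite_branching := by
    rintro m ⟨s, rfl, hs⟩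
    obtain ⟨b, hb⟩ := h.fb s hs
    obtain ⟨B, hB⟩ := sg_collection (P := fun x m => (s.snoc x).val = m) (Rec.sg (by fun_prop)) b
      (fun x _ => ⟨_, rfl⟩)
    refine ⟨B, ?_⟩
    rintro m' ⟨t, rfl, ht⟩ hsucc
    have h1 := Sq.IsSucc_iff.1 hsucc
    have h2 := Sq.succ_eq_snoc h1.1 h1.2
    rw [h2] at ht
    obtain ⟨m, hm, he⟩ := hB _ (hb _ ht)
    rw [← he] at hm
    have : cd M t = (s.snoc (t.get s.len)).val := by rw [← h2]; rfl
    rw [this]; exact hm
  no_terminal := by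
    rintro m ⟨s, rfl, hs⟩
    obtain ⟨x, hx⟩ := h.nt s hs
    exact ⟨(s.snoc x).val, val_mem_cset.2 hx, Sq.IsSucc_iff.2 ⟨Sq.le_snoc s x, Sq.snoc_len s x⟩⟩

theorem TreeP.of_isTree {T : Set M} (hT : InS T) (h : IsTree T) :
    TreeP (fun s : Sq M => s.val ∈ T) where
  hrec := Rec.mem_of_inS hT (by fun_prop)
  nonempty := by
    obtain ⟨s, hs⟩ := h.nonempty
    exact ⟨⟨s, h.seq s hs⟩, hs⟩
  closed := by
    intro t ht s hs
    exact h.closed _ ht _ s.isSeq (Sq.Ext_iff.2 hs)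
  fb := by
    intro s hs
    obtain ⟨b, hb⟩ := h.finite_branching _ hs
    refine ⟨b, ?_⟩
    intro x hx
    exact lt_of_le_of_lt (le_snoc_val s x)
      (hb _ hx (Sq.IsSucc_iff.2 ⟨Sq.le_snoc s x, Sq.snoc_len s x⟩))
  nt := by
    intro s hs
    obtain ⟨t, ht, h1⟩ := h.no_terminal _ hs
    have h2 := Sq.IsSucc_iff (s := s) (t := ⟨t, h.seq t ht⟩)
    have h3 := h2.1 h1
    refine ⟨(⟨t, h.seq t ht⟩ : Sq M).get s.len, ?_⟩
    rw [← Sq.succ_eq_snoc h3.1 h3.2]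
    exact ht

theorem SSub.isStrongSubtree {full : Bool} {T : Sq M → Prop} {A : M → Prop} {S' : Sq M → Prop}
    (h : SSub full T A S') : IsStrongSubtree full (cset M T) {a | A a} (cset M S') where
  subset := by
    rintro m ⟨s, rfl, hs⟩
    exact val_mem_cset.2 (h.subset s hs)
  level := by
    rintro m ⟨s, rfl, hs⟩
    exact ⟨_, h.level s hs, s.Len_val⟩
  nonempty_level := by
    intro a ha
    obtain ⟨s, hs, hl⟩ := h.nonempty_level a ha
    exact ⟨s.val, val_mem_cset.2 hs, Sq.Len_iff.2 hl⟩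
  root := by
    rintro a ha hmin _ ⟨s, rfl, hs⟩ _ ⟨t, rfl, ht⟩ hls hlt
    rw [h.root a ha hmin s t hs ht (Sq.Len_iff.1 hls) (Sq.Len_iff.1 hlt)]
  branching := by
    rintro a b hab _ ⟨s, rfl, hs⟩ hls _ ⟨t, rfl, ht⟩ hsucc
    have h1 := Sq.IsSucc_iff.1 hsucc
    have h2 := Sq.succ_eq_snoc h1.1 h1.2
    rw [h2] at ht
    obtain ⟨u, ⟨hu1, hu2, hu3⟩, hu4⟩ := h.branching a b hab s hs (Sq.Len_iff.1 hls) _ ht
    rw [← h2] at hu3
    refine ⟨u.val, ⟨val_mem_cset.2 hu1, Sq.Len_iff.2 hu2, Sq.Ext_iff.2 hu3⟩, ?_⟩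
    rintro _ ⟨⟨u', rfl, h3⟩, h4, h5⟩
    rw [h2] at h5
    have := hu4 u' ⟨h3, Sq.Len_iff.1 h4, Sq.Ext_iff.1 h5⟩
    rw [this]; rfl
  down := by
    rintro hf a b hab _ ⟨u, rfl, hu⟩ hlu
    obtain ⟨s, h1, h2, h3⟩ := h.down hf a b hab u hu (Sq.Len_iff.1 hlu)
    exact ⟨s.val, val_mem_cset.2 h1, Sq.Len_iff.2 h2, Sq.Ext_iff.2 h3⟩

theorem SSub.of_isStrongSubtree {full : Bool} {T A S' : Set M} (hT : IsTree T)
    (h : IsStrongSubtree full T A S') :
    SSub full (fun s : Sq M => s.val ∈ T) (fun a => a ∈ A) (fun s : Sq M => s.val ∈ S') where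
  subset := fun s hs => h.subset hs
  level := by
    intro s hs
    obtain ⟨a, ha, hl⟩ := h.level _ hs
    rw [Sq.Len_iff.1 hl]; exact ha
  nonempty_level := by
    intro a ha
    obtain ⟨s, hs, hl⟩ := h.nonempty_level a ha
    exact ⟨⟨s, hT.seq s (h.subset hs)⟩, hs, Sq.Len_iff.1 hl⟩
  root := by
    intro a ha hmin s t hs ht hls hlt
    exact Sq.val_inj (h.root a ha hmin _ hs _ ht (Sq.Len_iff.2 hls) (Sq.Len_iff.2 hlt))
  branching := by
    intro a b hab s hs hls x hx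
    obtain ⟨u, ⟨hu1, hu2, hu3⟩, hu4⟩ := h.branching a b hab _ hs (Sq.Len_iff.2 hls) _ hx
      (Sq.IsSucc_iff.2 ⟨Sq.le_snoc s x, Sq.snoc_len s x⟩)
    have hsq := hT.seq u (h.subset hu1)
    refine ⟨⟨u, hsq⟩, ⟨hu1, Sq.Len_iff.1 hu2, Sq.Ext_iff.1 hu3⟩, ?_⟩
    rintro u' ⟨h1, h2, h3⟩
    exact Sq.val_inj (hu4 _ ⟨h1, Sq.Len_iff.2 h2, Sq.Ext_iff.2 h3⟩)
  down := by
    intro hf a b hab u hu hlu
    obtain ⟨s, h1, h2, h3⟩ := h.down hf a b hab _ hu (Sq.Len_iff.2 hlu)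
    exact ⟨⟨s, hT.seq s (h.subset h1)⟩, h1, Sq.Len_iff.1 h2, Sq.Ext_iff.1 h3⟩

theorem HL_to_HLi {full : Bool} {d : ℕ} (h : HL M (Model.sets (M := M)) full d) : HLi M full d := by
  intro T hT k hk c hc hck
  have hTs : ∀ i, cset M (T i) ∈ Model.sets (M := M) ∧ IsTree (cset M (T i)) := fun i =>
    ⟨(hT i).hrec.recP, (hT i).isTree⟩
  have hkey : ∀ (v : Fin d → Sq M) (j : M),
      pr (tup (fun i => (v i).val)) j ∈ cset M (fun p : (Fin d → Sq M) × M => c p.1 = p.2) ↔ c v = j := by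
    intro v j
    exact graph_mem c v j
  have hlev : ∀ v : Fin d → M, InLevelProduct (fun i => cset M (T i)) v →
      ∃ w : Fin d → Sq M, (∀ i, (w i).val = v i) ∧ LP T w := by
    rintro v ⟨h1, n, h2⟩
    choose w hw1 hw2 using h1
    refine ⟨w, hw1, hw2, n, ?_⟩
    intro i
    have := h2 i
    rw [← hw1 i] at this
    exact Sq.Len_iff.1 this
  have hcol : IsColoring (fun i => cset M (T i)) k (cset M (fun p : (Fin d → Sq M) × M => c p.1 = p.2)) := by
    intro v hv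
    obtain ⟨w, hw, hw'⟩ := hlev v hv
    have : v = fun i => (w i).val := funext fun i => (hw i).symm
    subst this
    refine ⟨c w, ⟨hck w hw', (hkey w (c w)).2 rfl⟩, ?_⟩
    rintro j ⟨_, hj⟩
    exact ((hkey w j).1 hj).symm
  obtain ⟨A, hA, hAinf, S', hS', j, hj, hmono⟩ := h _ hTs k hk _ (show InS _ from hc) hcol
  refine ⟨fun a => a ∈ A, inS_iff_rec.1 hA, hAinf, fun i s => s.val ∈ S' i, ?_, j, hj, ?_⟩
  · intro i
    refine ⟨Rec.mem_of_inS (hS' i).1 (by fun_prop), ?_⟩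
    have := SSub.of_isStrongSubtree (hTs i).2 (hS' i).2
    simpa only [val_mem_cset] using this
  · rintro v ⟨h1, n, h2⟩
    have := hmono (fun i => (v i).val) ⟨h1, n, fun i => Sq.Len_iff.2 (h2 i)⟩
    exact (hkey v j).1 this

theorem HLi_to_HL {full : Bool} {d : ℕ} (h : HLi M full d) : HL M (Model.sets (M := M)) full d := by
  classical
  intro T hT k hk C hC hcol
  have hTs : ∀ i, TreeP (fun s : Sq M => s.val ∈ T i) := fun i => TreeP.of_isTree (hT i).1 (hT i).2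
  let R : (Fin d → Sq M) → M → Prop := fun v j =>
    (j < k ∧ pr (cd M v) j ∈ C) ∨ ¬ (∃ j', j' < k ∧ pr (cd M v) j' ∈ C)
  have hR : Rec M (fun p : (Fin d → Sq M) × M => R p.1 p.2) := by
    have h1 : Rec M (fun p : (Fin d → Sq M) × M => pr (cd M p.1) p.2 ∈ C) :=
      Rec.mem_of_inS hC (by fun_prop)
    have h2 : Rec M (fun p : ((Fin d → Sq M) × M) × M => pr (cd M p.1.1) p.2 ∈ C) :=
      Rec.mem_of_inS hC (by fun_prop)
    have h3 := Rec.bex (M := M) (b := fun p : (Fin d → Sq M) × M => k)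
      (P := fun (p : (Fin d → Sq M) × M) j' => pr (cd M p.1) j' ∈ C) (by fun_prop) h2
    exact Rec.or (Rec.and (by fun_prop) h1) (Rec.not h3)
  have hex : ∀ v, ∃ j, R v j := by
    intro v
    by_cases hv : ∃ j', j' < k ∧ pr (cd M v) j' ∈ C
    · obtain ⟨j, hj⟩ := hv
      exact ⟨j, Or.inl hj⟩
    · exact ⟨0, Or.inr hv⟩
  let c : (Fin d → Sq M) → M := fun v => mu (R v)
  have hc : Rec M c := Rec.mu hR hex
  have hinlp : ∀ v : Fin d → Sq M, LP (fun i (s : Sq M) => s.val ∈ T i) v →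
      InLevelProduct T (fun i => (v i).val) := by
    rintro v ⟨h1, n, h2⟩
    exact ⟨h1, n, fun i => Sq.Len_iff.2 (h2 i)⟩
  have hc' : ∀ v, LP (fun i (s : Sq M) => s.val ∈ T i) v → c v < k ∧ pr (cd M v) (c v) ∈ C := by
    intro v hv
    obtain ⟨j, hj, _⟩ := hcol _ (hinlp v hv)
    have hRv : Rec M (R v) := hR.comp (f := fun m : M => (v, m)) (by fun_prop)
    have := (mu_spec hRv (hex v)).1
    rcases this with h1 | h1
    · exact h1
    · exact absurd ⟨j, hj⟩ h1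
  obtain ⟨A, hA, hAinf, S', hS', j, hj, hmono⟩ := h _ hTs k hk c hc (fun v hv => (hc' v hv).1)
  refine ⟨{a | A a}, inS_iff_rec.2 hA, hAinf, fun i => cset M (S' i), ?_, j, hj, ?_⟩
  · intro i
    refine ⟨(hS' i).1.recP, ?_⟩
    have h1 := (hS' i).2.isStrongSubtree
    have h2 : cset M (fun s : Sq M => s.val ∈ T i) = T i := by
      ext m
      rw [mem_cset_sq]
      constructor
      · rintro ⟨s, rfl, hs⟩
        exact hs
      · intro hm
        exact ⟨⟨m, (hT i).2.seq m hm⟩, rfl, hm⟩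
    rw [h2] at h1
    exact h1
  · rintro v ⟨h1, n, h2⟩
    choose w hw1 hw2 using h1
    have hw3 : LP S' w := ⟨hw2, n, fun i => by
      have := h2 i
      rw [← hw1 i] at this
      exact Sq.Len_iff.1 this⟩
    have hw4 : LP (fun i (s : Sq M) => s.val ∈ T i) w :=
      ⟨fun i => (hS' i).2.subset _ (hw2 i), hw3.2⟩
    have h3 := (hc' w hw4).2
    rw [hmono w hw3] at h3
    have : v = fun i => (w i).val := funext fun i => (hw1 i).symm
    rw [this]
    exact h3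

end hli

end Pool.Agent.H75.RM
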