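import Pool.Agent.H75.RM.Reversal

universe u v w x

set_option linter.unusedSectionVars false

namespace Pool.Agent.H75.RM

section reversal1
variable {M : Type u} [Model M]

/-- `s` is the code of a pair `(n, u)`, where `u` is the least witness for `n` -/
def Wt (R : M × M → Prop) (n s : M) : Prop :=
  ∃ u, u ≤ s ∧ (s = pr n u ∧ R (n, u) ∧ ∀ u', u' < u → ¬ R (n, u'))

/-- `s` is the code of a witness for some `n ≤ p` -/
def Wl (R : M × M → Prop) (p s : M) : Prop := ∃ n, n ≤ p ∧ Wt R n s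

/-- the tree -/
def WT1 (R : M × M → Prop) (v : Sq M) : Prop :=
  ∀ p, p < v.len → (v.get p = 0 ∨ ∃ s, s ≤ v.get p ∧ ∃ i, i ≤ (1 : M) ∧ (v.get p = pr s i + 1 ∧ Wl R p s))

/-- entry number `p` of `v` is `(s, i)` -/
def En (v : Sq M) (p s i : M) : Prop := p < v.len ∧ v.get p = pr s i + 1

/-- the entry is refuted -/
def Rf (R : M × M → Prop) (v : Sq M) (p s : M) : Prop :=
  ∃ q, q < v.len ∧ ∃ s2, s2 ≤ v.get q ∧ ∃ i2, i2 ≤ v.get q ∧ (En v q s2 i2 ∧
    ∃ s1, s1 ≤ s2 ∧ (s < s1 ∧ Wl R p s1))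

/-- active unrefuted entries -/
def AU (R : M × M → Prop) (v : Sq M) (p s i : M) : Prop :=
  En v p s i ∧ v.len ≤ s ∧ ¬ Rf R v p s

/-- the least active unrefuted entry has second component `1` -/
def C1 (R : M × M → Prop) (v : Sq M) : Prop :=
  ∃ p, p < v.len ∧ ∃ s, s ≤ v.get p ∧ (AU R v p s 1 ∧
    ∀ p', p' < p → ∀ s', s' ≤ v.get p' → ∀ i', i' ≤ v.get p' → ¬ AU R v p' s' i')

variable {R : M × M → Prop} (hR : Rec M R)
variable {α : Type v} [Coded M α]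

include hR

theorem rec_Wt {n s : α → M} (hn : Rec M n) (hs : Rec M s) : Rec M (fun a => Wt R (n a) (s a)) := by
  unfold Wt
  fun_prop

theorem rec_Wl {n s : α → M} (hn : Rec M n) (hs : Rec M s) : Rec M (fun a => Wl R (n a) (s a)) := by
  unfold Wl Wt
  fun_prop

theorem rec_WT1 : Rec M (WT1 R) := by
  unfold WT1 Wl Wt
  fun_prop

theorem rec_C1 : Rec M (C1 R) := by
  unfold C1 AU Rf En Wl Wt
  fun_prop

theorem Wt.unique {n s s' : M} (h : Wt R n s) (h' : Wt R n s') : s = s' := by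
  obtain ⟨u, _, h1, h2, h3⟩ := h
  obtain ⟨u', _, h1', h2', h3'⟩ := h'
  have : u = u' := by
    rcases lt_trichotomy u u' with h4 | h4 | h4
    · exact absurd h2 (h3' u h4)
    · exact h4
    · exact absurd h2' (h3 u' h4)
  rw [h1, h1', this]

omit hR in
theorem En.le {v : Sq M} {p s i : M} (h : En v p s i) : s ≤ v.get p ∧ i ≤ v.get p := by
  rw [h.2]
  exact ⟨(le_pr_left s i).trans (lt_succ_self _).le, (le_pr_right s i).trans (lt_succ_self _).le⟩

theorem Wl_bound (p : M) : ∃ B, ∀ s, Wl R p s → s < B := by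
  have h1 : Rec M (fun q : M × M => Wt R q.1 q.2) := rec_Wt hR (by fun_prop) (by fun_prop)
  obtain ⟨b, hb⟩ := strong_bounding (R := fun q : M × M => Wt R q.1 q.2) h1 (p + 1)
  refine ⟨b, ?_⟩
  rintro s ⟨n, hn, hs⟩
  obtain ⟨s', h2, h3⟩ := hb n (lt_succ_iff.2 hn) ⟨s, hs⟩
  rw [Wt.unique hR hs h3]
  exact h2

/-- the maximal code of a witness for some `n ≤ p` -/
theorem exists_Wl_max {p s0 : M} (h0 : Wl R p s0) : ∃ s, Wl R p s ∧ ∀ s', Wl R p s' → s' ≤ s := by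
  obtain ⟨B, hB⟩ := Wl_bound hR p
  have h1 : Rec M (fun x : M => ∀ s, s < B → (Wl R p s → s ≤ x)) := by
    unfold Wl Wt
    fun_prop
  obtain ⟨x, hx, hx'⟩ := exists_least h1 ⟨B, fun s hs _ => hs.le⟩
  have h2 : ∀ s, Wl R p s → s ≤ x := fun s hs => hx s (hB s hs) hs
  refine ⟨x, ?_, h2⟩
  by_contra h3
  rcases zero_or_succ x with h4 | ⟨y, h4⟩
  · have := h2 s0 h0
    rw [h4] at this
    have h5 : s0 = x := by rw [h4]; exact le_antisymm this zero_le
    exact h3 (h5 ▸ h0)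
  · refine hx' y (h4 ▸ lt_succ_self y) ?_
    intro s _ hs
    rcases (h2 s hs).lt_or_eq with h5 | h5
    · rw [h4] at h5
      exact lt_succ_iff.1 h5
    · exact absurd (h5 ▸ hs) h3

theorem WT1_tree : TreeP (WT1 R) where
  hrec := rec_WT1 hR
  nonempty := ⟨Sq.nil, fun i hi => absurd hi (by rw [Sq.nil_len]; exact not_lt_zero' i)⟩
  closed := by
    intro t ht s hst i hi
    rw [hst.2 i hi]
    exact ht i (lt_of_lt_of_le hi hst.1)
  fb := by
    intro v _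
    obtain ⟨B, hB⟩ := Wl_bound hR v.len
    refine ⟨pr B 1 + 1 + 1, ?_⟩
    intro x hx
    have := hx v.len (by rw [Sq.snoc_len]; exact lt_succ_self _)
    rw [Sq.snoc_get_len] at this
    rcases this with h1 | ⟨s, _, i, h2, h3, h4⟩
    · rw [h1]
      exact lt_of_le_of_lt zero_le (lt_succ_self _)
    · rw [h3]
      have h5 := pr_mono (hB s h4).le h2
      exact lt_succ_iff.2 (add_le_add_left h5 1)
  nt := by
    intro v hv
    refine ⟨0, ?_⟩
    intro p hp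
    rw [Sq.snoc_len] at hp
    rcases (lt_succ_iff.1 hp).lt_or_eq with h3 | rfl
    · rw [Sq.snoc_get_lt h3]
      exact hv p h3
    · rw [Sq.snoc_get_len]
      exact Or.inl rfl

omit hR in
theorem WT1.entry {v : Sq M} (hv : WT1 R v) {p s i : M} (h : En v p s i) : Wl R p s := by
  rcases hv p h.1 with h1 | ⟨s', _, i', _, h3, h4⟩
  · rw [h.2] at h1
    have := (lt_succ_self (pr s i)).trans_le' (zero_le (a := pr s i))
    exact absurd h1 this.ne'
  · rw [h.2] at h3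
    obtain ⟨rfl, rfl⟩ := pr_inj (add_right_cancel h3)
    exact h4

omit hR in
theorem WT1.snoc {v : Sq M} (hv : WT1 R v) {s i : M} (hi : i ≤ 1) (h : Wl R v.len s) :
    WT1 R (v.snoc (pr s i + 1)) := by
  intro p hp
  rw [Sq.snoc_len] at hp
  rcases (lt_succ_iff.1 hp).lt_or_eq with h3 | rfl
  · rw [Sq.snoc_get_lt h3]
    exact hv p h3
  · rw [Sq.snoc_get_len]
    exact Or.inr ⟨s, (le_pr_left s i).trans (lt_succ_self _).le, i, hi, rfl, h⟩

omit hR in
theorem En.of_le {v u : Sq M} (h : v ≤ u) {p s i : M} (hp : p < v.len) :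
    En u p s i ↔ En v p s i := by
  unfold En
  rw [h.2 p hp]
  exact ⟨fun h1 => ⟨hp, h1.2⟩, fun h1 => ⟨hp.trans_le h.1, h1.2⟩⟩

/-- the key step -/
theorem key1 {S' : Sq M → Prop} {a b : M} (hab : a < b)
    (hbr : ∀ s, S' s → s.len = a → ∀ x, WT1 R (s.snoc x) → ∃ u, S' u ∧ u.len = b ∧ s.snoc x ≤ u)
    (hmono : (∀ u, S' u → u.len = b → C1 R u) ∨ (∀ u, S' u → u.len = b → ¬ C1 R u))
    {v : Sq M} (hv : S' v) (hvT : WT1 R v) (hva : v.len = a) :
    (∀ s, Wl R a s → s < b) ∨ ∃ p s i, En v p s i ∧ b ≤ s ∧ ∀ s', Wl R p s' → s' ≤ s := by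
  by_contra hcon
  push Not at hcon
  obtain ⟨⟨s0, h1, h2⟩, h3⟩ := hcon
  obtain ⟨s, hs, hsmax⟩ := exists_Wl_max hR h1
  have hbs : b ≤ s := h2.trans (hsmax s0 h1)
  have huT : ∀ i, i ≤ 1 → ∃ u, S' u ∧ u.len = b ∧ v.snoc (pr s i + 1) ≤ u := fun i hi =>
    hbr v hv hva _ (WT1.snoc hvT hi (hva ▸ hs))
  have hEn : ∀ i u, v.snoc (pr s i + 1) ≤ u → ∀ s' i', En u a s' i' ↔ s' = s ∧ i' = i := by
    intro i u hu s' i'
    rw [En.of_le hu (by rw [Sq.snoc_len, hva]; exact lt_succ_self a)]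
    unfold En
    rw [← hva, Sq.snoc_get_len, Sq.snoc_len]
    constructor
    · rintro ⟨_, h4⟩
      obtain ⟨rfl, rfl⟩ := pr_inj (add_right_cancel h4)
      exact ⟨rfl, rfl⟩
    · rintro ⟨rfl, rfl⟩
      exact ⟨lt_succ_self _, rfl⟩
  have hAU : ∀ i u, v.snoc (pr s i + 1) ≤ u → u.len = b → AU R u a s i := by
    intro i u hu hub
    refine ⟨(hEn i u hu s i).2 ⟨rfl, rfl⟩, hub ▸ hbs, ?_⟩
    rintro ⟨q, _, s2, _, i2, _, _, s1, _, h4, h5⟩
    exact absurd (hsmax s1 h5) (not_le.2 h4)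
  have hnone : ∀ i u, v.snoc (pr s i + 1) ≤ u → u.len = b → ∀ p, p < a → ∀ s' i',
      ¬ AU R u p s' i' := by
    rintro i u hu hub p hp s' i' ⟨h4, h5, h6⟩
    have hvu : v ≤ u := (Sq.le_snoc _ _).trans hu
    rw [En.of_le hvu (hva ▸ hp)] at h4
    obtain ⟨s1, h7, h8⟩ := h3 p s' i' h4 (hub ▸ h5)
    apply h6
    have h9 := (hEn i u hu s i).2 ⟨rfl, rfl⟩
    refine ⟨a, h9.1, s, h9.le.1, i, h9.le.2, h9, s1, ?_, h8, h7⟩
    obtain ⟨n, hn, hn'⟩ := h7
    exact hsmax s1 ⟨n, hn.trans hp.le, hn'⟩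
  obtain ⟨u0, k1, k2, k3⟩ := huT 0 zero_le
  obtain ⟨u1, l1, l2, l3⟩ := huT 1 le_rfl
  have hc1 : C1 R u1 := by
    have h9 := (hEn 1 u1 l3 s 1).2 ⟨rfl, rfl⟩
    refine ⟨a, h9.1, s, h9.le.1, hAU 1 u1 l3 l2, ?_⟩
    intro p hp s' _ i' _
    exact hnone 1 u1 l3 l2 p hp s' i'
  have hc0 : ¬ C1 R u0 := by
    rintro ⟨p, hp, s', _, h4, h5⟩
    rcases lt_trichotomy p a with h6 | h6 | h6
    · exact hnone 0 u0 k3 k2 p h6 s' 1 h4
    · subst h6
      exact one_ne_zero ((hEn 0 u0 k3 s' 1).1 h4.1).2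
    · have h9 := (hEn 0 u0 k3 s 0).2 ⟨rfl, rfl⟩
      exact h5 a h6 s h9.le.1 0 h9.le.2 (hAU 0 u0 k3 k2)
  rcases hmono with h | h
  · exact hc0 (h u0 k1 k2)
  · exact h u1 l1 l2 hc1

omit hR in
theorem jump_of_HLi1 {full : Bool} {d : ℕ} (h : HLi M full (d + 1)) : Jump M := by
  classical
  intro R hR
  have hC := rec_C1 hR
  have hWl : Rec M (fun q : M × M => Wl R q.1 q.2) := rec_Wl hR (by fun_prop) (by fun_prop)
  have hWt : Rec M (fun q : M × M => Wt R q.1 q.2) := rec_Wt hR (by fun_prop) (by fun_prop)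
  obtain ⟨A, hA, hinf, S', hS', j, hj, hmono⟩ := h (fun _ => WT1 R) (fun _ => WT1_tree hR) (1 + 1)
    (le_add_of_nonneg_right zero_le) (fun v => if C1 R (v 0) then 1 else 0) (by fun_prop)
    (by
      intro v _
      split_ifs
      · exact lt_succ_self 1
      · exact lt_of_lt_of_le zero_lt_one (le_add_of_nonneg_right zero_le))
  have hSrec : Rec M (S' 0) := (hS' 0).1
  have hmono' : ∀ b, A b → ∀ u, S' 0 u → u.len = b → (if C1 R u then (1 : M) else 0) = j := by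
    intro b hb u hu hub
    have h2 : ∀ i, ∃ w, S' i w ∧ w.len = b := fun i => (hS' i).2.nonempty_level b hb
    choose w hw1 hw2 using h2
    have := hmono (Function.update w 0 u) ⟨by
      intro i
      by_cases hi : i = 0
      · subst hi; simpa using hu
      · rw [Function.update_of_ne hi]; exact hw1 i, b, by
      intro i
      by_cases hi : i = 0
      · subst hi; simpa using hub
      · rw [Function.update_of_ne hi]; exact hw2 i⟩
    simpa using this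
  have hmono2 : ∀ b, A b → (∀ u, S' 0 u → u.len = b → C1 R u) ∨
      (∀ u, S' 0 u → u.len = b → ¬ C1 R u) := by
    intro b hb
    by_cases hj1 : j = 1
    · left
      intro u hu hub
      by_contra hc
      have := hmono' b hb u hu hub
      rw [if_neg hc, hj1] at this
      exact zero_ne_one this
    · right
      intro u hu hub hc
      have := hmono' b hb u hu hub
      rw [if_pos hc] at this
      exact hj1 this.symm
  have key : ∀ v b, S' 0 v → Consecutive {x | A x} v.len b →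
      (∀ s, Wl R v.len s → s < b) ∨ ∃ p s i, En v p s i ∧ b ≤ s ∧ ∀ s', Wl R p s' → s' ≤ s := by
    intro v b hv hcons
    refine key1 hR hcons.2.2.1 (S' := S' 0) ?_ (hmono2 b hcons.2.1) hv ((hS' 0).2.subset v hv) rfl
    intro s hs hsl x hx
    obtain ⟨u, ⟨h1, h2, h3⟩, _⟩ := (hS' 0).2.branching v.len b hcons s hs hsl x hx
    exact ⟨u, h1, h2, h3⟩
  -- the decoding
  have hX : ∀ n, (∃ u, R (n, u)) ↔ ∃ s, Wt R n s := by
    intro n
    constructor
    · rintro ⟨u, hu⟩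
      obtain ⟨u0, hu0, hmin⟩ := exists_least (P := fun u => R (n, u)) (by fun_prop) ⟨u, hu⟩
      exact ⟨pr n u0, u0, le_pr_right _ _, rfl, hu0, hmin⟩
    · rintro ⟨s, u, _, _, hu, _⟩
      exact ⟨u, hu⟩
  refine rec_of_sg (Sg.exM (P := fun n u => R (n, u)) (Rec.sg (by fun_prop))) ?_
  have hsg : Sg M (fun n : M => ∃ (v : Sq M) (b : M), ((A v.len ∧ A b ∧ v.len < b ∧
      ∀ x, x < b → A x → ¬ v.len < x) ∧ S' 0 v ∧ n < v.len ∧ ∀ p, p ≤ n → ∀ s, s ≤ v.get p →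
      ∀ i, i ≤ v.get p → (p < v.len ∧ v.get p = pr s i + 1 → s < b)) ∧
      ∀ s, s ≤ max b v.val → ¬ Wt R n s) := by
    refine Sg.ex (P := fun (n : M) (v : Sq M) => ∃ b : M, ((A v.len ∧ A b ∧ v.len < b ∧
      ∀ x, x < b → A x → ¬ v.len < x) ∧ S' 0 v ∧ n < v.len ∧ ∀ p, p ≤ n → ∀ s, s ≤ v.get p →
      ∀ i, i ≤ v.get p → (p < v.len ∧ v.get p = pr s i + 1 → s < b)) ∧
      ∀ s, s ≤ max b v.val → ¬ Wt R n s) ?_
    refine Sg.exM (P := fun (q : M × Sq M) (b : M) => ((A q.2.len ∧ A b ∧ q.2.len < b ∧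
      ∀ x, x < b → A x → ¬ q.2.len < x) ∧ S' 0 q.2 ∧ q.1 < q.2.len ∧ ∀ p, p ≤ q.1 →
      ∀ s, s ≤ q.2.get p → ∀ i, i ≤ q.2.get p → (p < q.2.len ∧ q.2.get p = pr s i + 1 → s < b)) ∧
      ∀ s, s ≤ max b q.2.val → ¬ Wt R q.1 s) ?_
    refine Rec.sg ?_
    unfold Wt
    fun_prop
  refine hsg.congr ?_
  intro n
  constructor
  · rintro ⟨v, b, ⟨⟨h1, h2, h3, h4⟩, h5, h6, h7⟩, h8⟩ hex
    obtain ⟨s, hs⟩ := (hX n).1 hex
    have hcons : Consecutive {x | A x} v.len b := ⟨h1, h2, h3, fun x hx hx' => h4 x hx'.2 hx hx'.1⟩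
    refine h8 s ?_ hs
    rcases key v b h5 hcons with h9 | ⟨p, s', i, h10, h11, h12⟩
    · exact (h9 s ⟨n, h6.le, hs⟩).le.trans (le_max_left _ _)
    · have h13 : ¬ p ≤ n := by
        intro hp
        have := h7 p hp s' h10.le.1 i h10.le.2 h10
        exact absurd h11 (not_le.2 this)
      have h14 : s ≤ s' := h12 s ⟨n, (not_le.1 h13).le, hs⟩
      exact ((h14.trans h10.le.1).trans (get_le_val v p)).trans (le_max_right _ _)
  · intro hno
    obtain ⟨B, hB⟩ := Wl_bound hR n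
    obtain ⟨a, ha, hna⟩ := hinf (max n B)
    obtain ⟨b, hcons⟩ := exists_next hA hinf ha
    obtain ⟨v, hv, hvl⟩ := (hS' 0).2.nonempty_level a ha
    subst hvl
    refine ⟨v, b, ⟨⟨ha, hcons.2.1, hcons.2.2.1, fun x hx hAx hax => hcons.2.2.2 x hAx ⟨hax, hx⟩⟩,
      hv, (le_max_left _ _).trans_lt hna, ?_⟩, ?_⟩
    · rintro p hp s _ i _ h1
      obtain ⟨m, hm, hm'⟩ := WT1.entry ((hS' 0).2.subset v hv) h1
      exact ((hB s ⟨m, hm.trans hp, hm'⟩).trans_le (le_max_right n B)).trans (hna.trans hcons.2.2.1)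
    · intro s _ hs
      exact hno ((hX n).2 ⟨s, hs⟩)

end reversal1

end Pool.Agent.H75.RM
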