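import Pool.Agent.H75.RM.Dense
import Pool.Agent.H75.RM.Reversal1

universe u

namespace Pool.Agent.H75.RM

theorem hl_iff_ac (full : Bool) (d : ℕ) (M : Type u) [I : PAminus M] (S : Set (Set M))
    (h : RCA0 M S) : HL M S full (d + 1) ↔ ArithmeticalComprehension M S := by
  let _ : Model M := { I with sets := S, rca := h }
  constructor
  · intro h1
    have h2 : HL M (Model.sets (M := M)) full (d + 1) := h1
    have h3 : ArithmeticalComprehension M (Model.sets (M := M)) :=
      ac_of_jump (jump_of_HLi1 (HL_to_HLi h2))
    exact h3
  · intro h1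
    have h2 : ArithmeticalComprehension M (Model.sets (M := M)) := h1
    let _ : ACAModel M := { jump := jump_of_ac h2 }
    have h3 : HL M (Model.sets (M := M)) full (d + 1) := HLi_to_HL (hli_of_aca full d)
    exact h3

end Pool.Agent.H75.RM
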