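import Pool.Agent.H75.RM.Defs

universe u v w x

namespace Pool.Agent.H75.RM

section order
variable {M : Type u} [PAminus M]

theorem succ_le_iff {a b : M} : a + 1 ≤ b ↔ a < b := by
  constructor
  · intro h
    exact lt_of_lt_of_le (lt_add_of_pos_right a zero_lt_one) h
  · exact PAminus.succ_le_of_lt' a b

theorem lt_succ_iff {a b : M} : a < b + 1 ↔ a ≤ b := by
  constructor
  · intro h
    by_contra hc
    push Not at hc
    have := succ_le_iff.2 hc
    exact absurd h (not_lt.2 this)
  · intro h
    exact lt_of_le_of_lt h (lt_add_of_pos_right b zero_lt_one)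

theorem lt_succ_self (a : M) : a < a + 1 := lt_add_of_pos_right a zero_lt_one

theorem not_lt_zero' (a : M) : ¬ a < 0 := not_lt.2 zero_le

theorem one_le_iff {a : M} : 1 ≤ a ↔ 0 < a := by
  have := succ_le_iff (a := (0 : M)) (b := a)
  rwa [zero_add] at this

theorem pos_iff {a : M} : 0 < a ↔ a ≠ 0 := pos_iff_ne_zero

theorem zero_or_succ (a : M) : a = 0 ∨ ∃ b, a = b + 1 := by
  rcases eq_or_ne a 0 with h | h
  · exact Or.inl h
  · right
    have h1 : 1 ≤ a := one_le_iff.2 (pos_iff.2 h)
    obtain ⟨c, hc⟩ := exists_add_of_le h1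
    exact ⟨c, by rw [hc, add_comm]⟩

theorem le_pr_left (x y : M) : x ≤ pr x y := by
  unfold pr
  exact le_add_of_nonneg_left zero_le

theorem le_mul_self (x : M) : x ≤ x * x := by
  rcases eq_or_ne x 0 with h | h
  · simp [h]
  · exact le_mul_of_one_le_left zero_le (one_le_iff.2 (pos_iff.2 h))

theorem le_pr_right (x y : M) : y ≤ pr x y := by
  unfold pr
  calc y ≤ x + y := le_add_of_nonneg_left zero_le
    _ ≤ (x + y) * (x + y) := le_mul_self _
    _ ≤ _ := le_add_of_nonneg_right zero_le

theorem pr_inj {x y x' y' : M} (h : pr x y = pr x' y') : x = x' ∧ y = y' := by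
  have key : ∀ x y x' y' : M, x + y < x' + y' → pr x y < pr x' y' := by
    intro x y x' y' h
    unfold pr
    have h1 : x + y + 1 ≤ x' + y' := succ_le_iff.2 h
    calc (x + y) * (x + y) + x ≤ (x + y) * (x + y) + (x + y) := by gcongr; exact le_add_of_nonneg_right zero_le
      _ < (x + y) * (x + y) + (x + y) + ((x + y) + 1) := lt_add_of_pos_right _ (lt_of_lt_of_le zero_lt_one (le_add_of_nonneg_left zero_le))
      _ = (x + y + 1) * (x + y + 1) := by ring
      _ ≤ (x' + y') * (x' + y') := by gcongr
      _ ≤ _ := le_add_of_nonneg_right zero_le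
  have hs : x + y = x' + y' := by
    rcases lt_trichotomy (x + y) (x' + y') with h1 | h1 | h1
    · exact absurd h (ne_of_lt (key _ _ _ _ h1))
    · exact h1
    · exact absurd h.symm (ne_of_lt (key _ _ _ _ h1))
  have hx : x = x' := by
    unfold pr at h
    rw [hs] at h
    exact add_left_cancel h
  subst hx
  exact ⟨rfl, add_left_cancel hs⟩

theorem pr_inj_iff {x y x' y' : M} : pr x y = pr x' y' ↔ x = x' ∧ y = y' :=
  ⟨pr_inj, fun h => by rw [h.1, h.2]⟩

theorem pr_mono {x y x' y' : M} (h : x ≤ x') (h' : y ≤ y') : pr x y ≤ pr x' y' := by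
  unfold pr; gcongr

end order

end Pool.Agent.H75.RM
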