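import Pool.Agent.H75.RM.Seq

universe u v w x

set_option linter.unusedSectionVars false

namespace Pool.Agent.H75.RM

section primrec
variable {M : Type u} [Model M]
variable {α : Type v} {β : Type w} [Coded M α] [Coded M β]

/-- Primitive recursion in a model of `RCA₀`. -/
theorem exists_rec_fun {f : α → β} {h : α × M × β → β} (hf : Rec M f) (hh : Rec M h) :
    ∃ F : α → M → β, Rec M (fun p : α × M => F p.1 p.2) ∧ (∀ a, F a 0 = f a) ∧
      ∀ a n, F a (n + 1) = h (a, n, F a n) := by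
  -- the step relation on codes
  have hH0 := Rec.ex_code (M := M) (P := fun q : (α × M × M) × β =>
    cd M (h (q.1.1, q.1.2.1, q.2)) = q.1.2.2) (by fun_prop)
  let H : α → M → M → M → Prop := fun a i x y => ∃ b : β, cd M b = x ∧ cd M (h (a, i, b)) = y
  have hH : Rec M (fun p : α × M × M × M => H p.1 p.2.1 p.2.2.1 p.2.2.2) :=
    hH0.comp (f := fun p : α × M × M × M => ((p.1, p.2.1, p.2.2.2), p.2.2.1)) (by fun_prop)
  let V : α → M → Sq M → Prop := fun a n s =>
    s.len = n + 1 ∧ s.get 0 = cd M (f a) ∧ ∀ i, i < n → H a i (s.get i) (s.get (i + 1))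
  have hV : Rec M (fun p : (α × M) × Sq M => V p.1.1 p.1.2 p.2) := by
    have h1 : Rec M (fun p : ((α × M) × Sq M) × M =>
        H p.1.1.1 p.2 (p.1.2.get p.2) (p.1.2.get (p.2 + 1))) :=
      hH.comp (f := fun p : ((α × M) × Sq M) × M =>
        (p.1.1.1, p.2, p.1.2.get p.2, p.1.2.get (p.2 + 1))) (by fun_prop)
    have h2 := Rec.ball (M := M) (b := fun p : (α × M) × Sq M => p.1.2)
      (P := fun (p : (α × M) × Sq M) i => H p.1.1 i (p.2.get i) (p.2.get (i + 1))) (by fun_prop) h1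
    exact Rec.and (by fun_prop) (Rec.and (by fun_prop) h2)
  have hcode := Rec.ex_code0 (M := M) (P := fun _ : β => True) (by fun_prop)
  -- existence of computation sequences
  have ex1 : ∀ a n, ∃ s : Sq M, V a n s ∧ ∃ b : β, cd M b = s.get n ∧ True := by
    intro a
    refine sg_induction (P := fun n => ∃ s : Sq M, V a n s ∧ ∃ b : β, cd M b = s.get n ∧ True) ?_ ?_ ?_
    · refine Sg.ex (P := fun (n : M) (s : Sq M) => V a n s ∧ ∃ b : β, cd M b = s.get n ∧ True) ?_
      refine Rec.sg (Rec.and ?_ ?_)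
      · exact hV.comp (f := fun p : M × Sq M => ((a, p.1), p.2)) (by fun_prop)
      · exact hcode.comp (f := fun p : M × Sq M => p.2.get p.1) (by fun_prop)
    · refine ⟨Sq.snoc Sq.nil (cd M (f a)), ⟨by simp, ?_, ?_⟩, f a, ?_, trivial⟩
      · have := Sq.snoc_get_len (s := (Sq.nil : Sq M)) (x := cd M (f a))
        rwa [Sq.nil_len] at this
      · intro i hi
        exact absurd hi (not_lt_zero' i)
      · have := Sq.snoc_get_len (s := (Sq.nil : Sq M)) (x := cd M (f a))
        rw [Sq.nil_len] at this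
        exact this.symm
    · rintro n ⟨s, ⟨h1, h2, h3⟩, b, hb, _⟩
      refine ⟨s.snoc (cd M (h (a, n, b))), ⟨by rw [Sq.snoc_len, h1], ?_, ?_⟩, h (a, n, b), ?_, trivial⟩
      · rw [Sq.snoc_get_lt, h2]
        rw [h1]; exact lt_of_le_of_lt zero_le (lt_succ_self n)
      · intro i hi
        rcases (lt_succ_iff.1 hi).lt_or_eq with h4 | rfl
        · rw [Sq.snoc_get_lt, Sq.snoc_get_lt]
          · exact h3 i h4
          · rw [h1]
            exact lt_succ_iff.2 (succ_le_iff.2 h4)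
          · rw [h1]; exact hi
        · rw [Sq.snoc_get_lt (by rw [h1]; exact hi)]
          refine ⟨b, hb, ?_⟩
          rw [← h1, Sq.snoc_get_len]
      · rw [← h1, Sq.snoc_get_len]
  -- uniqueness
  have uniq : ∀ a n n' s s', V a n s → V a n' s' → ∀ i, i ≤ n → i ≤ n' → s.get i = s'.get i := by
    rintro a n n' s s' ⟨_, h2, h3⟩ ⟨_, h2', h3'⟩
    refine rec_induction (P := fun i => i ≤ n → i ≤ n' → s.get i = s'.get i) (by fun_prop) ?_ ?_
    · intro _ _
      rw [h2, h2']
    · intro i ih h4 h5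
      have h4' := succ_le_iff.1 h4
      have h5' := succ_le_iff.1 h5
      obtain ⟨b, hb, hb'⟩ := h3 i h4'
      obtain ⟨c, hc, hc'⟩ := h3' i h5'
      rw [← hb', ← hc']
      have : cd M b = cd M c := by rw [hb, hc, ih h4'.le h5'.le]
      rw [cd_inj.1 this]
  have ex2 : ∀ a n, ∃ b : β, ∃ s : Sq M, V a n s ∧ cd M b = s.get n := by
    intro a n
    obtain ⟨s, hs, b, hb, _⟩ := ex1 a n
    exact ⟨b, s, hs, hb⟩
  choose F s hVs hFs using ex2
  refine ⟨F, ?_, ?_, ?_⟩
  · refine rec_of_sg_rel (R := fun (p : α × M) b => ∃ s : Sq M, V p.1 p.2 s ∧ cd M b = s.get p.2) ?_ ?_ ?_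
    · refine Sg.ex (P := fun (p : (α × M) × β) (s : Sq M) => V p.1.1 p.1.2 s ∧ cd M p.2 = s.get p.1.2) ?_
      refine Rec.sg (Rec.and ?_ (by fun_prop))
      exact hV.comp (f := fun p : ((α × M) × β) × Sq M => (p.1.1, p.2)) (by fun_prop)
    · rintro ⟨a, n⟩
      exact ⟨s a n, hVs a n, hFs a n⟩
    · rintro ⟨a, n⟩ b ⟨s', h1, h2⟩
      have := uniq a n n (s a n) s' (hVs a n) h1 n le_rfl le_rfl
      apply (cd_inj (M := M)).1
      simp only at h2 ⊢
      rw [hFs, this, h2]
  · intro a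
    apply (cd_inj (M := M)).1
    rw [hFs, (hVs a 0).2.1]
  · intro a n
    obtain ⟨b, hb, hb'⟩ := (hVs a (n + 1)).2.2 n (lt_succ_self n)
    have h1 := uniq a n (n + 1) (s a n) (s a (n + 1)) (hVs _ _) (hVs _ _) n le_rfl
      (le_of_lt (lt_succ_self n))
    apply (cd_inj (M := M)).1
    rw [hFs, ← hb']
    congr 2
    simp only [Prod.mk.injEq, true_and]
    apply (cd_inj (M := M)).1
    rw [hb, ← h1, hFs]

theorem exists_rec_fun' (x0 : β) {h : M × β → β} (hh : Rec M h) :
    ∃ F : M → β, Rec M F ∧ F 0 = x0 ∧ ∀ n, F (n + 1) = h (n, F n) := by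
  obtain ⟨F, h1, h2, h3⟩ := exists_rec_fun (M := M) (f := fun _ : M => x0)
    (h := fun p : M × M × β => h p.2) (by fun_prop) (by fun_prop)
  exact ⟨F 0, h1.comp (f := fun n : M => ((0 : M), n)) (by fun_prop), h2 0, h3 0⟩

end primrec

end Pool.Agent.H75.RM
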