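import Pool.Agent.H75.RM.Base

universe u v w x

set_option linter.unusedSectionVars false

namespace Pool.Agent.H75.RM

/-- Types whose elements are coded by numbers of the model, injectively and with the set of codes
in the model. -/
class Coded (M : Type u) [Model M] (α : Type v) where
  code : α → M
  inj : Function.Injective code
  range_mem : InS (Set.range code)

section basic
variable {M : Type u} [Model M]

variable (M) in
/-- the code of an element -/
abbrev cd {α : Type v} [Coded M α] (a : α) : M := Coded.code a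

theorem cd_inj {α : Type v} [Coded M α] {a b : α} : cd M a = cd M b ↔ a = b :=
  ⟨fun h => Coded.inj h, fun h => by rw [h]⟩

instance instCodedSelf : Coded M M where
  code := id
  inj := fun _ _ h => h
  range_mem := by
    have : Set.range (id : M → M) = Set.univ := by simp
    rw [this]; exact InS.univ

instance instCodedProd {α : Type v} {β : Type w} [Coded M α] [Coded M β] : Coded M (α × β) where
  code := fun p => pr (cd M p.1) (cd M p.2)
  inj := by
    rintro ⟨a, b⟩ ⟨a', b'⟩ h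
    have := pr_inj h
    simp only at this
    rw [Coded.inj this.1, Coded.inj this.2]
  range_mem := by
    convert raw_prod (Coded.range_mem (M := M) (α := α)) (Coded.range_mem (M := M) (α := β)) using 1
    ext z
    simp only [Set.mem_range, Prod.exists, Set.mem_ofPred_eq]
    constructor
    · rintro ⟨a, b, rfl⟩
      exact ⟨_, _, rfl, ⟨a, rfl⟩, ⟨b, rfl⟩⟩
    · rintro ⟨x, y, rfl, ⟨a, rfl⟩, ⟨b, rfl⟩⟩
      exact ⟨a, b, rfl⟩

open Classical in
noncomputable instance instCodedProp : Coded M Prop where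
  code := fun p => if p then 1 else 0
  inj := by
    intro p q h
    by_cases hp : p <;> by_cases hq : q <;> simp_all
  range_mem := by
    convert raw_zero_one (M := M) using 1
    ext z
    simp only [Set.mem_range, Set.mem_ofPred_eq]
    constructor
    · rintro ⟨p, rfl⟩
      by_cases hp : p <;> simp [hp]
    · rintro (rfl | rfl)
      · exact ⟨False, by simp⟩
      · exact ⟨True, by simp⟩

@[simp] theorem cd_self (a : M) : cd M a = a := rfl
@[simp] theorem cd_prod {α : Type v} {β : Type w} [Coded M α] [Coded M β] (p : α × β) :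
    cd M p = pr (cd M p.1) (cd M p.2) := rfl
theorem cd_true : cd M True = 1 := by simp [cd, Coded.code]
theorem cd_false : cd M False = 0 := by simp [cd, Coded.code]

variable (M) in
/-- the set of codes of the elements with property `P` -/
def cset {α : Type v} [Coded M α] (P : α → Prop) : Set M := {m | ∃ a, cd M a = m ∧ P a}

theorem mem_cset {α : Type v} [Coded M α] {P : α → Prop} {m : M} :
    m ∈ cset M P ↔ ∃ a, cd M a = m ∧ P a := Iff.rfl

@[simp] theorem cd_mem_cset {α : Type v} [Coded M α] {P : α → Prop} {a : α} :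
    cd M a ∈ cset M P ↔ P a := by
  constructor
  · rintro ⟨b, h, hb⟩
    rwa [← cd_inj.1 h]
  · intro h
    exact ⟨a, rfl, h⟩

variable (M) in
/-- `P` is computable in the sense of the model: its set of codes is in the model -/
def RecP {α : Type v} [Coded M α] (P : α → Prop) : Prop := InS (cset M P)

variable (M) in
/-- `f` is computable in the sense of the model: its graph is in the model -/
@[fun_prop]
def Rec {α : Type v} {β : Type w} [Coded M α] [Coded M β] (f : α → β) : Prop :=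
  RecP M (fun p : α × β => f p.1 = p.2)

variable {α : Type v} {β : Type w} {γ : Type x} [Coded M α] [Coded M β] [Coded M γ]

theorem RecP.congr {P Q : α → Prop} (h : RecP M P) (e : ∀ a, P a ↔ Q a) : RecP M Q := by
  have : P = Q := funext fun a => propext (e a)
  rwa [← this]

theorem Rec.congr {f g : α → β} (h : Rec M f) (e : ∀ a, f a = g a) : Rec M g := by
  have : f = g := funext e
  rwa [← this]

theorem recP_iff {P : α → Prop} : RecP M P ↔ InS (cset M P) := Iff.rfl

theorem RecP.of_set {P : α → Prop} {X : Set M} (hX : InS X) (h : ∀ a : α, cd M a ∈ X ↔ P a) :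
    RecP M P := by
  have := hX.inter (Coded.range_mem (M := M) (α := α))
  unfold RecP
  convert this using 1
  ext m
  simp only [mem_cset, Set.mem_inter_iff, Set.mem_range]
  constructor
  · rintro ⟨a, rfl, ha⟩
    exact ⟨(h a).2 ha, a, rfl⟩
  · rintro ⟨hm, a, rfl⟩
    exact ⟨a, rfl, (h a).1 hm⟩

theorem RecP.not {P : α → Prop} (h : RecP M P) : RecP M (fun a => ¬ P a) :=
  RecP.of_set (InS.compl h) (by intro a; simp)

theorem RecP.and {P Q : α → Prop} (h : RecP M P) (h' : RecP M Q) : RecP M (fun a => P a ∧ Q a) :=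
  RecP.of_set (InS.inter h h') (by intro a; simp)

theorem graph_mem (f : α → β) (a : α) (b : β) :
    pr (cd M a) (cd M b) ∈ cset M (fun p : α × β => f p.1 = p.2) ↔ f a = b := by
  have := cd_mem_cset (M := M) (P := fun p : α × β => f p.1 = p.2) (a := (a, b))
  simpa using this

theorem RecP.comp {P : β → Prop} {f : α → β} (hP : RecP M P) (hf : Rec M f) :
    RecP M (fun a => P (f a)) := by
  refine RecP.of_set (raw_comp (Coded.range_mem (M := M) (α := α)) hf hP ?_ ?_) ?_
  · rintro m ⟨a, rfl⟩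
    refine ⟨cd M (f a), (graph_mem f a (f a)).2 rfl, ?_⟩
    rintro b ⟨⟨a', b'⟩, h, h'⟩
    have := pr_inj h
    simp only at this h'
    rw [← this.2, ← h', cd_inj.1 this.1]
  · rintro m b ⟨⟨a', b'⟩, h, h'⟩
    have := pr_inj h
    exact ⟨a', this.1⟩
  · intro a
    simp only [Set.mem_ofPred_eq]
    constructor
    · rintro ⟨b, ⟨⟨a', b'⟩, h, h'⟩, hb⟩
      have := pr_inj h
      simp only at this h'
      rw [← this.2, cd_mem_cset, ← h', cd_inj.1 this.1] at hb
      exact hb
    · intro h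
      exact ⟨cd M (f a), (graph_mem f a (f a)).2 rfl, cd_mem_cset.2 h⟩

@[fun_prop]
theorem Rec.id : Rec M (fun a : α => a) := by
  refine RecP.of_set (raw_diag (Coded.range_mem (M := M) (α := α))) ?_
  rintro ⟨a, b⟩
  simp only [Set.mem_ofPred_eq, cd_prod, pr_inj_iff, Set.mem_range]
  constructor
  · rintro ⟨x, ⟨h1, h2⟩, _⟩
    exact cd_inj.1 (h1.trans h2.symm)
  · rintro rfl
    exact ⟨cd M a, ⟨rfl, rfl⟩, a, rfl⟩

@[fun_prop]
theorem Rec.const (b : β) : Rec M (fun _ : α => b) := by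
  refine RecP.of_set (raw_const (Coded.range_mem (M := M) (α := α)) (cd M b)) ?_
  rintro ⟨a, c⟩
  simp only [Set.mem_ofPred_eq, cd_prod, pr_inj_iff, Set.mem_range]
  constructor
  · rintro ⟨x, ⟨h1, h2⟩, _⟩
    exact (cd_inj.1 h2).symm
  · rintro rfl
    exact ⟨cd M a, ⟨rfl, rfl⟩, a, rfl⟩

theorem Rec.fst0 : Rec M (fun p : α × β => p.1) := by
  refine RecP.of_set (raw_fst (Coded.range_mem (M := M) (α := α))
    (Coded.range_mem (M := M) (α := β))) ?_
  rintro ⟨⟨a, b⟩, c⟩
  simp only [Set.mem_ofPred_eq, cd_prod, pr_inj_iff, Set.mem_range]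
  constructor
  · rintro ⟨x, y, ⟨⟨h1, h2⟩, h3⟩, _⟩
    exact cd_inj.1 (h1.trans h3.symm)
  · rintro rfl
    exact ⟨cd M a, cd M b, ⟨⟨rfl, rfl⟩, rfl⟩, ⟨a, rfl⟩, ⟨b, rfl⟩⟩

theorem Rec.snd0 : Rec M (fun p : α × β => p.2) := by
  refine RecP.of_set (raw_snd (Coded.range_mem (M := M) (α := α))
    (Coded.range_mem (M := M) (α := β))) ?_
  rintro ⟨⟨a, b⟩, c⟩
  simp only [Set.mem_ofPred_eq, cd_prod, pr_inj_iff, Set.mem_range]
  constructor
  · rintro ⟨x, y, ⟨⟨h1, h2⟩, h3⟩, _⟩
    exact cd_inj.1 (h2.trans h3.symm)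
  · rintro rfl
    exact ⟨cd M a, cd M b, ⟨⟨rfl, rfl⟩, rfl⟩, ⟨a, rfl⟩, ⟨b, rfl⟩⟩

theorem Rec.comp_fst0 {f : α → β} (hf : Rec M f) : Rec M (fun p : α × γ => f p.1) := by
  refine RecP.of_set (raw_comp_fst hf (Coded.range_mem (M := M) (α := γ))) ?_
  rintro ⟨⟨a, c⟩, b⟩
  simp only [Set.mem_ofPred_eq, cd_prod, pr_inj_iff, Set.mem_range]
  constructor
  · rintro ⟨x, y, z, ⟨⟨h1, h2⟩, h3⟩, h4, _⟩
    rw [← h1, ← h3, graph_mem] at h4
    exact h4
  · intro h
    exact ⟨cd M a, cd M c, cd M b, ⟨⟨rfl, rfl⟩, rfl⟩, (graph_mem f a b).2 h, ⟨c, rfl⟩⟩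

@[fun_prop]
theorem Rec.prodMk {f : α → β} {g : α → γ} (hf : Rec M f) (hg : Rec M g) :
    Rec M (fun a => (f a, g a)) := by
  refine RecP.of_set (raw_pair hf hg) ?_
  rintro ⟨a, b, c⟩
  simp only [Set.mem_ofPred_eq, cd_prod, pr_inj_iff, Prod.mk.injEq]
  constructor
  · rintro ⟨x, y, z, ⟨h1, h2, h3⟩, h4, h5⟩
    rw [← h1, ← h2, graph_mem] at h4
    rw [← h1, ← h3, graph_mem] at h5
    exact ⟨h4, h5⟩
  · rintro ⟨h1, h2⟩
    exact ⟨cd M a, cd M b, cd M c, ⟨rfl, rfl, rfl⟩, (graph_mem f a b).2 h1, (graph_mem g a c).2 h2⟩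

@[fun_prop]
theorem Rec.comp {g : β → γ} {f : α → β} (hg : Rec M g) (hf : Rec M f) :
    Rec M (fun a => g (f a)) := by
  have h := RecP.comp (M := M) (P := fun p : β × γ => g p.1 = p.2)
    (f := fun p : α × γ => (f p.1, p.2)) hg (Rec.prodMk (Rec.comp_fst0 hf) Rec.snd0)
  exact h

@[fun_prop]
theorem Rec.fst {f : α → β × γ} (hf : Rec M f) : Rec M (fun a => (f a).1) :=
  Rec.comp Rec.fst0 hf

@[fun_prop]
theorem Rec.snd {f : α → β × γ} (hf : Rec M f) : Rec M (fun a => (f a).2) :=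
  Rec.comp Rec.snd0 hf

theorem RecP.eq0 : RecP M (fun p : α × α => p.1 = p.2) := by
  refine RecP.of_set (raw_diag (Coded.range_mem (M := M) (α := α))) ?_
  rintro ⟨a, b⟩
  simp only [Set.mem_ofPred_eq, cd_prod, pr_inj_iff, Set.mem_range]
  constructor
  · rintro ⟨x, ⟨h1, h2⟩, _⟩
    exact cd_inj.1 (h1.trans h2.symm)
  · rintro rfl
    exact ⟨cd M a, ⟨rfl, rfl⟩, a, rfl⟩

theorem RecP.rec {P : α → Prop} (h : RecP M P) : Rec M P := by
  refine RecP.of_set (raw_prop (Coded.range_mem (M := M) (α := α)) h) ?_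
  rintro ⟨a, p⟩
  simp only [Set.mem_ofPred_eq, cd_prod, Set.mem_range]
  constructor
  · rintro ⟨x, ⟨b, hb⟩, h1 | h1⟩
    · obtain ⟨h2, h3⟩ := h1
      have := pr_inj h2
      rw [← this.1, cd_mem_cset] at h3
      rw [← cd_true, cd_inj] at this
      simp [this.2, h3]
    · obtain ⟨h2, h3⟩ := h1
      have := pr_inj h2
      rw [← this.1, cd_mem_cset] at h3
      rw [← cd_false, cd_inj] at this
      simp [this.2, h3]
  · rintro rfl
    refine ⟨cd M a, ⟨a, rfl⟩, ?_⟩
    rw [cd_mem_cset]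
    by_cases hp : P a
    · left
      simp only [hp, cd_true, and_self]
    · right
      simp only [hp, cd_false, not_false_eq_true, and_self]

theorem Rec.recP {P : α → Prop} (h : Rec M P) : RecP M P := by
  refine RecP.of_set (raw_section h 1) ?_
  intro a
  have := graph_mem (M := M) P a True
  rw [cd_true] at this
  rw [Set.mem_ofPred_eq, this]
  simp

theorem rec_iff_recP {P : α → Prop} : Rec M P ↔ RecP M P := ⟨Rec.recP, RecP.rec⟩

@[fun_prop]
theorem Rec.eq {f g : α → β} (hf : Rec M f) (hg : Rec M g) : Rec M (fun a => f a = g a) :=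
  (RecP.comp RecP.eq0 (Rec.prodMk hf hg)).rec

@[fun_prop]
theorem Rec.not {P : α → Prop} (h : Rec M P) : Rec M (fun a => ¬ P a) := h.recP.not.rec

@[fun_prop]
theorem Rec.and {P Q : α → Prop} (h : Rec M P) (h' : Rec M Q) : Rec M (fun a => P a ∧ Q a) :=
  (h.recP.and h'.recP).rec

@[fun_prop]
theorem Rec.or {P Q : α → Prop} (h : Rec M P) (h' : Rec M Q) : Rec M (fun a => P a ∨ Q a) := by
  refine Rec.congr (h.not.and h'.not).not ?_
  intro a
  simp only [eq_iff_iff]
  tauto

@[fun_prop]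
theorem Rec.imp {P Q : α → Prop} (h : Rec M P) (h' : Rec M Q) : Rec M (fun a => P a → Q a) := by
  refine Rec.congr (h.and h'.not).not ?_
  intro a
  simp only [eq_iff_iff]
  tauto

@[fun_prop]
theorem Rec.iff {P Q : α → Prop} (h : Rec M P) (h' : Rec M Q) : Rec M (fun a => P a ↔ Q a) := by
  refine Rec.congr ((h.imp h').and (h'.imp h)) ?_
  intro a
  simp only [eq_iff_iff]
  tauto

@[fun_prop]
theorem Rec.add {f g : α → M} (hf : Rec M f) (hg : Rec M g) : Rec M (fun a => f a + g a) := by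
  refine Rec.comp (g := fun p : M × M => p.1 + p.2) ?_ (Rec.prodMk hf hg)
  refine RecP.of_set raw_add ?_
  rintro ⟨⟨a, b⟩, c⟩
  simp only [Set.mem_ofPred_eq, cd_prod, pr_inj_iff, cd_self]
  constructor
  · rintro ⟨x, y, ⟨rfl, rfl⟩, h⟩
    exact h.symm
  · rintro rfl
    exact ⟨a, b, ⟨rfl, rfl⟩, rfl⟩

@[fun_prop]
theorem Rec.mul {f g : α → M} (hf : Rec M f) (hg : Rec M g) : Rec M (fun a => f a * g a) := by
  refine Rec.comp (g := fun p : M × M => p.1 * p.2) ?_ (Rec.prodMk hf hg)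
  refine RecP.of_set raw_mul ?_
  rintro ⟨⟨a, b⟩, c⟩
  simp only [Set.mem_ofPred_eq, cd_prod, pr_inj_iff, cd_self]
  constructor
  · rintro ⟨x, y, ⟨rfl, rfl⟩, h⟩
    exact h.symm
  · rintro rfl
    exact ⟨a, b, ⟨rfl, rfl⟩, rfl⟩

@[fun_prop]
theorem Rec.lt {f g : α → M} (hf : Rec M f) (hg : Rec M g) : Rec M (fun a => f a < g a) := by
  refine Rec.comp (g := fun p : M × M => p.1 < p.2) ?_ (Rec.prodMk hf hg)
  refine RecP.rec (RecP.of_set raw_lt ?_)
  rintro ⟨a, b⟩
  simp only [Set.mem_ofPred_eq, cd_prod, pr_inj_iff, cd_self]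
  constructor
  · rintro ⟨x, y, ⟨rfl, rfl⟩, h⟩
    exact h
  · intro h
    exact ⟨a, b, ⟨rfl, rfl⟩, h⟩

@[fun_prop]
theorem Rec.le {f g : α → M} (hf : Rec M f) (hg : Rec M g) : Rec M (fun a => f a ≤ g a) := by
  refine Rec.congr (hg.lt hf).not ?_
  intro a
  simp only [not_lt]

@[fun_prop]
theorem Rec.pr {f g : α → M} (hf : Rec M f) (hg : Rec M g) : Rec M (fun a => pr (f a) (g a)) := by
  unfold RM.pr
  fun_prop

@[fun_prop]
theorem Rec.ball {b : α → M} {P : α → M → Prop} (hb : Rec M b)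
    (hP : Rec M (fun p : α × M => P p.1 p.2)) : Rec M (fun a => ∀ x, x < b a → P a x) := by
  refine Rec.comp (g := fun p : α × M => ∀ x, x < p.2 → P p.1 x) ?_ (Rec.prodMk Rec.id hb)
  refine RecP.rec (RecP.of_set (raw_ball hP.recP) ?_)
  rintro ⟨a, c⟩
  simp only [Set.mem_ofPred_eq, cd_prod, pr_inj_iff, cd_self]
  have key : ∀ x, RM.pr (cd M a) x ∈ cset M (fun p : α × M => P p.1 p.2) ↔ P a x := by
    intro x
    have := cd_mem_cset (M := M) (P := fun p : α × M => P p.1 p.2) (a := (a, x))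
    simpa using this
  constructor
  · rintro ⟨x, y, ⟨rfl, rfl⟩, h⟩
    intro z hz
    exact (key z).1 (h z hz)
  · intro h
    exact ⟨_, _, ⟨rfl, rfl⟩, fun z hz => (key z).2 (h z hz)⟩

@[fun_prop]
theorem Rec.ball_le {b : α → M} {P : α → M → Prop} (hb : Rec M b)
    (hP : Rec M (fun p : α × M => P p.1 p.2)) : Rec M (fun a => ∀ x, x ≤ b a → P a x) := by
  refine Rec.congr (Rec.ball (hb.add (Rec.const 1)) hP) ?_
  intro a
  simp only [lt_succ_iff]

@[fun_prop]
theorem Rec.bex {b : α → M} {P : α → M → Prop} (hb : Rec M b)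
    (hP : Rec M (fun p : α × M => P p.1 p.2)) : Rec M (fun a => ∃ x, x < b a ∧ P a x) := by
  refine Rec.congr (Rec.ball (P := fun a x => ¬ P a x) hb hP.not).not ?_
  intro a
  simp

@[fun_prop]
theorem Rec.bex_le {b : α → M} {P : α → M → Prop} (hb : Rec M b)
    (hP : Rec M (fun p : α × M => P p.1 p.2)) : Rec M (fun a => ∃ x, x ≤ b a ∧ P a x) := by
  refine Rec.congr (Rec.bex (hb.add (Rec.const 1)) hP) ?_
  intro a
  simp only [lt_succ_iff]

@[fun_prop]
theorem Rec.cd {f : α → β} (hf : Rec M f) : Rec M (fun a => cd M (f a)) := by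
  refine Rec.comp (g := fun b : β => RM.cd M b) ?_ hf
  refine RecP.of_set (raw_diag (Coded.range_mem (M := M) (α := β))) ?_
  rintro ⟨a, b⟩
  simp only [Set.mem_ofPred_eq, cd_prod, pr_inj_iff, Set.mem_range, cd_self]
  constructor
  · rintro ⟨x, ⟨h1, h2⟩, _⟩
    exact h1.trans h2.symm
  · rintro rfl
    exact ⟨RM.cd M a, ⟨rfl, rfl⟩, a, rfl⟩

example : Rec M (fun p : M × M => ∃ x < p.1, p.1 + x = p.2) := by fun_prop
example : Rec M (fun p : M × M => ∀ x < p.1, p.1 + x = p.2) := by fun_prop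
example : Rec M (fun p : M × M => ∀ x : M, x < p.1 + 1→ ∃ y ≤ x, p.1 + x = p.2 + y) := by fun_prop

end basic

end Pool.Agent.H75.RM
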