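import Pool.Agent.H75.RM.HLI

universe u v w x

set_option linter.unusedSectionVars false

namespace Pool.Agent.H75.RM

section reversal
variable {M : Type u} [Model M]

/-- Strong `Σ⁰₁` bounding. -/
theorem strong_bounding {R : M × M → Prop} (hR : Rec M R) (l : M) :
    ∃ b, ∀ n, n < l → (∃ u, R (n, u)) → ∃ u, u < b ∧ R (n, u) := by
  classical
  obtain ⟨F, hF, hF0, hFs⟩ := exists_rec_fun (M := M) (f := fun _ : M => (0 : M))
    (h := fun p : M × M × M => p.2.2 + (if ∃ u, u < p.1 ∧ R (p.2.1, u) then 1 else 0))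
    (by fun_prop) (by fun_prop)
  have hle : ∀ b n, F b n ≤ n := by
    intro b
    refine rec_induction (P := fun n => F b n ≤ n) ?_ ?_ ?_
    · exact Rec.le (hF.comp (f := fun n : M => (b, n)) (by fun_prop)) (by fun_prop)
    · rw [hF0]
    · intro n ih
      rw [hFs]
      simp only
      split_ifs
      · gcongr
      · rw [add_zero]; exact ih.trans (le_of_lt (lt_succ_self n))
  have hmono : ∀ b b', b ≤ b' → ∀ n, F b n ≤ F b' n := by
    intro b b' hb
    refine rec_induction (P := fun n => F b n ≤ F b' n) ?_ ?_ ?_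
    · exact Rec.le (hF.comp (f := fun n : M => (b, n)) (by fun_prop))
        (hF.comp (f := fun n : M => (b', n)) (by fun_prop))
    · rw [hF0, hF0]
    · intro n ih
      rw [hFs, hFs]
      simp only
      by_cases h : ∃ u, u < b ∧ R (n, u)
      · have h' : ∃ u, u < b' ∧ R (n, u) := by
          obtain ⟨u, hu, hu'⟩ := h
          exact ⟨u, hu.trans_le hb, hu'⟩
        rw [if_pos h, if_pos h']
        gcongr
      · rw [if_neg h, add_zero]
        exact ih.trans (le_add_of_nonneg_right zero_le)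
  have hstrict : ∀ b b' n0, b ≤ b' → ¬ (∃ u, u < b ∧ R (n0, u)) → (∃ u, u < b' ∧ R (n0, u)) →
      ∀ n, n0 < n → F b n < F b' n := by
    intro b b' n0 hb h1 h2
    refine rec_induction (P := fun n => n0 < n → F b n < F b' n) ?_ ?_ ?_
    · exact Rec.imp (by fun_prop) (Rec.lt (hF.comp (f := fun n : M => (b, n)) (by fun_prop))
        (hF.comp (f := fun n : M => (b', n)) (by fun_prop)))
    · intro h
      exact absurd h (not_lt_zero' n0)
    · intro n ih hn
      rw [hFs, hFs]
      simp only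
      rcases (lt_succ_iff.1 hn).lt_or_eq with h3 | rfl
      · have ih' := ih h3
        by_cases h : ∃ u, u < b ∧ R (n, u)
        · have h' : ∃ u, u < b' ∧ R (n, u) := by
            obtain ⟨u, hu, hu'⟩ := h
            exact ⟨u, hu.trans_le hb, hu'⟩
          rw [if_pos h, if_pos h']
          gcongr
        · rw [if_neg h, add_zero]
          exact ih'.trans_le (le_add_of_nonneg_right zero_le)
      · rw [if_neg h1, if_pos h2, add_zero]
        exact lt_succ_iff.2 (hmono b b' hb n0)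
  -- a maximal value of the count
  have hmax : ∃ b, ∀ b', F b' l ≤ F b l := by
    by_contra hc
    push Not at hc
    have : ∀ c : M, ∃ b, c ≤ F b l := by
      refine sg_induction (P := fun c => ∃ b, c ≤ F b l) ?_ ⟨0, zero_le⟩ ?_
      · refine Sg.exM (P := fun c b => c ≤ F b l) (Rec.sg ?_)
        exact Rec.le (by fun_prop) (hF.comp (f := fun p : M × M => (p.2, l)) (by fun_prop))
      · rintro c ⟨b, hb⟩
        obtain ⟨b', hb'⟩ := hc b
        exact ⟨b', succ_le_iff.2 (lt_of_le_of_lt hb hb')⟩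
    obtain ⟨b, hb⟩ := this (l + 1)
    exact absurd (hb.trans (hle b l)) (not_le.2 (lt_succ_self l))
  obtain ⟨b, hb⟩ := hmax
  refine ⟨b, ?_⟩
  intro n hn hex
  by_contra h1
  obtain ⟨u, hu⟩ := hex
  have := hstrict b (max b (u + 1)) n (le_max_left _ _) h1
    ⟨u, lt_of_lt_of_le (lt_succ_self u) (le_max_right _ _), hu⟩ l hn
  exact absurd this (not_lt.2 (hb _))

/-- the maximal entry of a sequence -/
noncomputable def mx (s : Sq M) : M := mu (fun m => ∀ i, i < s.len → s.get i ≤ m)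

theorem mx_spec (s : Sq M) : ∀ i, i < s.len → s.get i ≤ mx s :=
  (mu_spec (P := fun m => ∀ i, i < s.len → s.get i ≤ m) (by fun_prop)
    ⟨s.val, fun i _ => get_le_val s i⟩).1

@[fun_prop]
theorem rec_mx {α : Type v} [Coded M α] {f : α → Sq M} (hf : Rec M f) : Rec M (fun a => mx (f a)) := by
  refine Rec.comp (g := fun s : Sq M => mx s) ?_ hf
  exact Rec.mu (R := fun (s : Sq M) m => ∀ i, i < s.len → s.get i ≤ m) (by fun_prop)
    (fun s => ⟨s.val, fun i _ => get_le_val s i⟩)

/-- the tree whose labels are the (least) witnesses -/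
def WT (R : M × M → Prop) (s : Sq M) : Prop :=
  ∀ i, i < s.len → (s.get i = 0 ∨ ∃ n, n ≤ i ∧ ∃ u, u < s.get i ∧
    (s.get i = u + 1 ∧ R (n, u) ∧ ∀ u', u' < u → ¬ R (n, u')))

theorem WT_snoc {R : M × M → Prop} {s : Sq M} {x : M} : WT R (s.snoc x) ↔ WT R s ∧
    (x = 0 ∨ ∃ n, n ≤ s.len ∧ ∃ u, x = u + 1 ∧ R (n, u) ∧ ∀ u', u' < u → ¬ R (n, u')) := by
  constructor
  · intro h
    constructor
    · intro i hi
      have := h i (by rw [Sq.snoc_len]; exact hi.trans (lt_succ_self _))
      rwa [Sq.snoc_get_lt hi] at this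
    · have := h s.len (by rw [Sq.snoc_len]; exact lt_succ_self _)
      rw [Sq.snoc_get_len] at this
      rcases this with h1 | ⟨n, hn, u, _, hu⟩
      · exact Or.inl h1
      · exact Or.inr ⟨n, hn, u, hu⟩
  · rintro ⟨h1, h2⟩ i hi
    rw [Sq.snoc_len] at hi
    rcases (lt_succ_iff.1 hi).lt_or_eq with h3 | rfl
    · rw [Sq.snoc_get_lt h3]
      exact h1 i h3
    · rw [Sq.snoc_get_len]
      rcases h2 with h2 | ⟨n, hn, u, hu⟩
      · exact Or.inl h2
      · exact Or.inr ⟨n, hn, u, by rw [hu.1]; exact lt_succ_self u, hu⟩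

theorem WT_tree {R : M × M → Prop} (hR : Rec M R) : TreeP (WT R) where
  hrec := by unfold WT; fun_prop
  nonempty := ⟨Sq.nil, fun i hi => absurd hi (by rw [Sq.nil_len]; exact not_lt_zero' i)⟩
  closed := by
    intro t ht s hst i hi
    rw [hst.2 i hi]
    exact ht i (lt_of_lt_of_le hi hst.1)
  fb := by
    intro s hs
    obtain ⟨b, hb⟩ := strong_bounding hR (s.len + 1)
    refine ⟨b + 1, ?_⟩
    intro x hx
    rcases (WT_snoc.1 hx).2 with h1 | ⟨n, hn, u, hu, hu', hu''⟩
    · rw [h1]; exact lt_of_le_of_lt zero_le (lt_succ_self b)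
    · obtain ⟨u', h2, h3⟩ := hb n (lt_succ_iff.2 hn) ⟨u, hu'⟩
      have : u ≤ u' := by
        by_contra h4
        exact hu'' u' (not_le.1 h4) h3
      rw [hu]
      have h5 : u + 1 ≤ b := succ_le_iff.2 (lt_of_le_of_lt this h2)
      exact lt_succ_iff.2 h5
  nt := by
    intro s hs
    exact ⟨0, WT_snoc.2 ⟨hs, Or.inl rfl⟩⟩

variable (M) in
/-- the sets of the model are closed under unbounded number quantification -/
def Jump : Prop := ∀ R : M × M → Prop, Rec M R → Rec M (fun n => ∃ u, R (n, u))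

theorem exists_next {A : M → Prop} (hA : Rec M A) (hinf : ∀ b, ∃ a, A a ∧ b < a) {a : M} (ha : A a) :
    ∃ b, Consecutive {x | A x} a b := by
  obtain ⟨x, hx⟩ := hinf a
  obtain ⟨b, ⟨hb1, hb2⟩, hb3⟩ := exists_least (P := fun x => A x ∧ a < x) (by fun_prop) ⟨x, hx⟩
  refine ⟨b, ha, hb1, hb2, ?_⟩
  rintro y hy ⟨h1, h2⟩
  exact hb3 y h2 ⟨hy, h1⟩

theorem jump_of_HLi {full : Bool} {d : ℕ} (hd : 2 ≤ d) (h : HLi M full d) : Jump M := by
  classical
  intro R hR
  let i0 : Fin d := ⟨0, by omega⟩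
  let i1 : Fin d := ⟨1, by omega⟩
  have h01 : i0 ≠ i1 := by
    intro h
    have := congrArg Fin.val h
    simp [i0, i1] at this
  obtain ⟨A, hA, hinf, S', hS', j, hj, hmono⟩ := h (fun _ => WT R) (fun _ => WT_tree hR) (1 + 1)
    (le_add_of_nonneg_right zero_le) (fun v => if mx (v i0) < mx (v i1) then 0 else 1) (by fun_prop)
    (by
      intro v _
      split_ifs
      · exact lt_of_lt_of_le zero_lt_one (le_add_of_nonneg_right zero_le)
      · exact lt_succ_self 1)
  have hpq : ∃ p q : Fin d, p ≠ q ∧ ∀ v, LP S' v → mx (v p) ≤ mx (v q) := by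
    rcases eq_or_ne j 0 with rfl | hj0
    · refine ⟨i0, i1, h01, fun v hv => ?_⟩
      have := hmono v hv
      by_contra hc
      rw [if_neg (fun h => hc h.le)] at this
      exact one_ne_zero this
    · refine ⟨i1, i0, h01.symm, fun v hv => ?_⟩
      have := hmono v hv
      by_contra hc
      rw [if_pos (not_le.1 hc)] at this
      exact hj0 this.symm
  obtain ⟨p, q, hpq, hm⟩ := hpq
  have key : ∀ n a (t : Sq M), n ≤ a → Consecutive {x | A x} a t.len → S' q t →
      ∀ u0, R (n, u0) → (∀ u', u' < u0 → ¬ R (n, u')) → u0 < mx t := by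
    intro n a t hna hcons ht u0 hu0 hmin
    obtain ⟨s, hs, hsl⟩ := (hS' p).2.nonempty_level a hcons.1
    have hsT : WT R s := (hS' p).2.subset s hs
    have h1 : WT R (s.snoc (u0 + 1)) :=
      WT_snoc.2 ⟨hsT, Or.inr ⟨n, hsl ▸ hna, u0, rfl, hu0, hmin⟩⟩
    obtain ⟨u', ⟨hu1, hu2, hu3⟩, _⟩ := (hS' p).2.branching a _ hcons s hs hsl _ h1
    -- complete to a tuple
    have h2 : ∀ i, ∃ w, S' i w ∧ w.len = t.len := fun i =>
      (hS' i).2.nonempty_level t.len hcons.2.1
    choose w hw1 hw2 using h2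
    have h3 := hm (Function.update (Function.update w p u') q t) ⟨by
      intro i
      by_cases hiq : i = q
      · subst hiq; simpa using ht
      · rw [Function.update_of_ne hiq]
        by_cases hip : i = p
        · subst hip; simpa using hu1
        · rw [Function.update_of_ne hip]; exact hw1 i, t.len, by
      intro i
      by_cases hiq : i = q
      · subst hiq; simp
      · rw [Function.update_of_ne hiq]
        by_cases hip : i = p
        · subst hip; simpa using hu2
        · rw [Function.update_of_ne hip]; exact hw2 i⟩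
    rw [Function.update_self, Function.update_of_ne hpq, Function.update_self] at h3
    have h4 : u'.get s.len = u0 + 1 := by
      rw [← hu3.2 s.len (by rw [Sq.snoc_len]; exact lt_succ_self _), Sq.snoc_get_len]
    have h5 : u0 + 1 ≤ mx u' := by
      rw [← h4]
      apply mx_spec
      exact lt_of_lt_of_le (by rw [Sq.snoc_len]; exact lt_succ_self _) hu3.1
    exact succ_le_iff.1 (h5.trans h3)
  refine rec_of_sg (Sg.exM (P := fun n u => R (n, u)) (Rec.sg (by fun_prop))) ?_
  have hSq : Rec M (S' q) := (hS' q).1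
  have hsg : Sg M (fun n : M => ∃ (t : Sq M) (a : M), (n ≤ a ∧ A a ∧ A t.len ∧ a < t.len ∧
      ∀ x, x < t.len → A x → ¬ a < x) ∧ S' q t ∧ ∀ u, u < mx t → ¬ R (n, u)) := by
    refine Sg.ex (P := fun (n : M) (t : Sq M) => ∃ a, (n ≤ a ∧ A a ∧ A t.len ∧ a < t.len ∧
      ∀ x, x < t.len → A x → ¬ a < x) ∧ S' q t ∧ ∀ u, u < mx t → ¬ R (n, u)) ?_
    refine Sg.exM (P := fun (p : M × Sq M) a => (p.1 ≤ a ∧ A a ∧ A p.2.len ∧ a < p.2.len ∧
      ∀ x, x < p.2.len → A x → ¬ a < x) ∧ S' q p.2 ∧ ∀ u, u < mx p.2 → ¬ R (p.1, u)) ?_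
    refine Rec.sg ?_
    fun_prop
  refine hsg.congr ?_
  intro n
  constructor
  · rintro ⟨t, a, ⟨h1, h2, h3, h4, h5⟩, h6, h7⟩ ⟨u, hu⟩
    obtain ⟨u0, hu0, hmin⟩ := exists_least (P := fun u => R (n, u)) (by fun_prop) ⟨u, hu⟩
    have hcons : Consecutive {x | A x} a t.len := ⟨h2, h3, h4, fun x hx hx' => h5 x hx'.2 hx hx'.1⟩
    exact h7 u0 (key n a t h1 hcons h6 u0 hu0 hmin) hu0
  · intro hno
    obtain ⟨a, ha, hna⟩ := hinf n
    obtain ⟨b, hcons⟩ := exists_next hA hinf ha
    obtain ⟨t, ht, htl⟩ := (hS' q).2.nonempty_level b hcons.2.1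
    subst htl
    exact ⟨t, a, ⟨hna.le, ha, hcons.2.1, hcons.2.2.1, fun x hx hAx hax => hcons.2.2.2 x hAx ⟨hax, hx⟩⟩,
      ht, fun u _ hu => hno ⟨u, hu⟩⟩

end reversal

end Pool.Agent.H75.RM
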