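import Pool.Agent.H75.RM.Beta

universe u v w x

set_option linter.unusedSectionVars false

namespace Pool.Agent.H75.RM

section codes
variable {M : Type u} [Model M]
variable {α : Type v} {β : Type w} {γ : Type x} [Coded M α] [Coded M β] [Coded M γ]

theorem len_unique {s l l' : M} (h : Len s l) (h' : Len s l') : l = l' := by
  obtain ⟨a, b, h⟩ := h
  obtain ⟨a', b', h'⟩ := h'
  exact (pr_inj (h.symm.trans h')).1

theorem len_iff_bdd {s l : M} : Len s l ↔ ∃ a, a ≤ s ∧ ∃ b, b ≤ s ∧ s = pr l (pr a b) := by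
  constructor
  · rintro ⟨a, b, h⟩
    refine ⟨a, ?_, b, ?_, h⟩
    · rw [h]; exact (le_pr_left a b).trans (le_pr_right _ _)
    · rw [h]; exact (le_pr_right a b).trans (le_pr_right _ _)
  · rintro ⟨a, _, b, _, h⟩
    exact ⟨a, b, h⟩

@[fun_prop]
theorem Rec.Len {s l : α → M} (hs : Rec M s) (hl : Rec M l) :
    Rec M (fun z => Len (s z) (l z)) := by
  refine Rec.congr (f := fun z => ∃ a, a ≤ s z ∧ ∃ b, b ≤ s z ∧ s z = RM.pr (l z) (RM.pr a b))
    (by fun_prop) ?_
  intro z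
  rw [len_iff_bdd]

theorem len_le {s l : M} (h : Len s l) : l ≤ s := by
  obtain ⟨a, b, h⟩ := h
  rw [h]; exact le_pr_left _ _

theorem ent_iff_bdd {s i x : M} : Ent s i x ↔ ∃ l, l ≤ s ∧ ∃ a, a ≤ s ∧ ∃ b, b ≤ s ∧
    (s = pr l (pr a b) ∧ i < l ∧ IsRem a (1 + (i + 1) * b) x) := by
  constructor
  · rintro ⟨l, a, b, h, h'⟩
    refine ⟨l, h ▸ le_pr_left _ _, a, ?_, b, ?_, h, h'⟩
    · rw [h]; exact (le_pr_left a b).trans (le_pr_right _ _)
    · rw [h]; exact (le_pr_right a b).trans (le_pr_right _ _)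
  · rintro ⟨l, _, a, _, b, _, h⟩
    exact ⟨l, a, b, h⟩

@[fun_prop]
theorem Rec.Ent {s i x : α → M} (hs : Rec M s) (hi : Rec M i) (hx : Rec M x) :
    Rec M (fun z => Ent (s z) (i z) (x z)) := by
  refine Rec.congr (f := fun z => ∃ l, l ≤ s z ∧ ∃ a, a ≤ s z ∧ ∃ b, b ≤ s z ∧
    (s z = RM.pr l (RM.pr a b) ∧ i z < l ∧ IsRem a (1 + (i z + 1) * b) (x z)))
    (by fun_prop) ?_
  intro z
  rw [ent_iff_bdd]

theorem ent_unique {s i x x' : M} (h : Ent s i x) (h' : Ent s i x') : x = x' := by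
  obtain ⟨l, a, b, h1, h2, h3⟩ := h
  obtain ⟨l', a', b', h1', h2', h3'⟩ := h'
  have e := pr_inj (h1.symm.trans h1')
  have e' := pr_inj e.2
  rw [← e'.1, ← e'.2] at h3'
  exact isRem_unique h3 h3'

theorem ent_le {s i x : M} (h : Ent s i x) : x ≤ s := by
  obtain ⟨l, a, b, h1, h2, h3, q, hq⟩ := h
  calc x ≤ a := by rw [hq]; exact le_add_of_nonneg_left zero_le
    _ ≤ pr a b := le_pr_left _ _
    _ ≤ s := by rw [h1]; exact le_pr_right _ _

/-- the length of (the sequence coded by) `s` -/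
noncomputable def ln (s : M) : M := mu (fun l => Len s l ∨ ¬ ∃ l', l' ≤ s ∧ Len s l')

/-- the entries of (the sequence coded by) `s` -/
noncomputable def gt (s i : M) : M := mu (fun x => Ent s i x ∨ ¬ ∃ x', x' ≤ s ∧ Ent s i x')

theorem ln_eq {s l : M} (h : Len s l) : ln s = l := by
  refine mu_eq (P := fun l => Len s l ∨ ¬ ∃ l', l' ≤ s ∧ Len s l') (Or.inl h) ?_
  rintro y hy (h1 | h1)
  · exact absurd (len_unique h h1) (ne_of_gt hy)
  · exact h1 ⟨l, len_le h, h⟩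

theorem gt_eq {s i x : M} (h : Ent s i x) : gt s i = x := by
  refine mu_eq (P := fun x => Ent s i x ∨ ¬ ∃ x', x' ≤ s ∧ Ent s i x') (Or.inl h) ?_
  rintro y hy (h1 | h1)
  · exact absurd (ent_unique h h1) (ne_of_gt hy)
  · exact h1 ⟨x, ent_le h, h⟩

theorem len_ln {s : M} (h : ∃ l, Len s l) : Len s (ln s) := by
  obtain ⟨l, h⟩ := h
  rw [ln_eq h]; exact h

theorem exists_ent {s i : M} (h : ∃ l, Len s l) (hi : i < ln s) : ∃ x, Ent s i x := by
  obtain ⟨a, b, hs⟩ := len_ln h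
  obtain ⟨r, hr⟩ := exists_rem (m := 1 + (i + 1) * b)
    (lt_of_lt_of_le zero_lt_one (le_add_of_nonneg_right zero_le)) a
  exact ⟨r, _, a, b, hs, hi, hr⟩

theorem ent_iff {s i x : M} (h : ∃ l, Len s l) : Ent s i x ↔ i < ln s ∧ gt s i = x := by
  constructor
  · intro h1
    refine ⟨?_, gt_eq h1⟩
    obtain ⟨l, a, b, h2, h3, h4⟩ := h1
    rw [ln_eq ⟨a, b, h2⟩]; exact h3
  · rintro ⟨h1, rfl⟩
    obtain ⟨x, hx⟩ := exists_ent h h1
    rw [gt_eq hx]; exact hx

theorem gt_of_le {s i : M} (h : ∃ l, Len s l) (hi : ln s ≤ i) : gt s i = 0 := by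
  apply mu_eq
  · right
    rintro ⟨x, _, hx⟩
    exact absurd ((ent_iff h).1 hx).1 (not_lt.2 hi)
  · intro y hy
    exact absurd hy (not_lt_zero' y)

theorem Rec.ln0 : Rec M (fun s : M => ln s) := by
  refine Rec.mu (R := fun s l : M => RM.Len s l ∨ ¬ ∃ l', l' ≤ s ∧ RM.Len s l') (by fun_prop) ?_
  intro s
  by_cases h : ∃ l', l' ≤ s ∧ RM.Len s l'
  · obtain ⟨l, _, h⟩ := h
    exact ⟨l, Or.inl h⟩
  · exact ⟨0, Or.inr h⟩

@[fun_prop]
theorem Rec.ln {f : α → M} (hf : Rec M f) : Rec M (fun a => ln (f a)) := Rec.ln0.comp hf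

theorem Rec.gt0 : Rec M (fun p : M × M => gt p.1 p.2) := by
  refine Rec.mu (R := fun (p : M × M) x => RM.Ent p.1 p.2 x ∨ ¬ ∃ x', x' ≤ p.1 ∧ RM.Ent p.1 p.2 x')
    (by fun_prop) ?_
  rintro ⟨s, i⟩
  by_cases h : ∃ x', x' ≤ s ∧ RM.Ent s i x'
  · obtain ⟨l, _, h⟩ := h
    exact ⟨l, Or.inl h⟩
  · exact ⟨0, Or.inr h⟩

@[fun_prop]
theorem Rec.gt {f g : α → M} (hf : Rec M f) (hg : Rec M g) : Rec M (fun a => gt (f a) (g a)) :=
  Rec.gt0.comp (hf.prodMk hg)

theorem ext_iff {s t : M} : Ext s t ↔ ((∃ l, l ≤ s ∧ Len s l) ∧ (∃ l, l ≤ t ∧ Len t l)) ∧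
    ln s ≤ ln t ∧ ∀ i, i < ln s → gt s i = gt t i := by
  constructor
  · rintro ⟨l, k, hl, hk, h1, h2⟩
    refine ⟨⟨⟨l, len_le hl, hl⟩, ⟨k, len_le hk, hk⟩⟩, ?_, ?_⟩
    · rw [ln_eq hl, ln_eq hk]; exact h1
    · intro i hi
      obtain ⟨x, hx⟩ := exists_ent ⟨l, hl⟩ hi
      rw [gt_eq hx, gt_eq ((h2 i (by rwa [ln_eq hl] at hi) x).1 hx)]
  · rintro ⟨⟨⟨l, _, hl⟩, ⟨k, _, hk⟩⟩, h1, h2⟩
    rw [ln_eq hl, ln_eq hk] at h1
    rw [ln_eq hl] at h2
    refine ⟨l, k, hl, hk, h1, ?_⟩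
    intro i hi x
    rw [ent_iff ⟨l, hl⟩, ent_iff ⟨k, hk⟩, ln_eq hl, ln_eq hk, h2 i hi]
    constructor
    · rintro ⟨_, h⟩
      exact ⟨lt_of_lt_of_le hi h1, h⟩
    · rintro ⟨_, h⟩
      exact ⟨hi, h⟩

@[fun_prop]
theorem Rec.Ext {f g : α → M} (hf : Rec M f) (hg : Rec M g) : Rec M (fun a => Ext (f a) (g a)) := by
  refine Rec.congr (f := fun z => ((∃ l, l ≤ f z ∧ RM.Len (f z) l) ∧ (∃ l, l ≤ g z ∧ RM.Len (g z) l)) ∧
    RM.ln (f z) ≤ RM.ln (g z) ∧ ∀ i, i < RM.ln (f z) → RM.gt (f z) i = RM.gt (g z) i) (by fun_prop) ?_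
  intro z
  rw [ext_iff]

@[fun_prop]
theorem Rec.IsSeq {f : α → M} (hf : Rec M f) : Rec M (fun a => IsSeq (f a)) := by
  refine Rec.congr (f := fun z => (∃ l, l ≤ f z ∧ RM.Len (f z) l) ∧
    ∀ t, t < f z → ¬ (RM.Ext (f z) t ∧ RM.Ext t (f z))) (by fun_prop) ?_
  intro z
  unfold RM.IsSeq
  simp only [eq_iff_iff]
  constructor
  · rintro ⟨⟨l, _, hl⟩, h⟩
    exact ⟨⟨l, hl⟩, h⟩
  · rintro ⟨⟨l, hl⟩, h⟩
    exact ⟨⟨l, len_le hl, hl⟩, h⟩

end codes

/-- (Canonical codes of) finite sequences in the sense of the model. -/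
structure Sq (M : Type u) [Model M] where
  val : M
  isSeq : IsSeq val

namespace Sq

variable {M : Type u} [Model M]
variable {α : Type v} {β : Type w} {γ : Type x} [Coded M α] [Coded M β] [Coded M γ]

theorem val_inj {s t : Sq M} (h : s.val = t.val) : s = t := by
  cases s; cases t; cases h; rfl

instance : Coded M (Sq M) where
  code := Sq.val
  inj := fun _ _ h => val_inj h
  range_mem := by
    have h : Rec M (fun s : M => IsSeq s) := by fun_prop
    have := h.recP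
    unfold RecP at this
    convert this using 1
    ext s
    simp only [Set.mem_range, mem_cset, cd_self, exists_eq_left]
    constructor
    · rintro ⟨s, rfl⟩
      exact s.isSeq
    · intro hs
      exact ⟨⟨s, hs⟩, rfl⟩

theorem cd_eq (s : Sq M) : cd M s = s.val := rfl

/-- length -/
noncomputable def len (s : Sq M) : M := ln s.val
/-- entries -/
noncomputable def get (s : Sq M) (i : M) : M := gt s.val i

@[fun_prop]
theorem rec_len {f : α → Sq M} (hf : Rec M f) : Rec M (fun a => (f a).len) := by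
  have : Rec M (fun a => ln (cd M (f a))) := by fun_prop
  exact this

@[fun_prop]
theorem rec_val {f : α → Sq M} (hf : Rec M f) : Rec M (fun a => (f a).val) := by
  have : Rec M (fun a => (cd M (f a))) := by fun_prop
  exact this

@[fun_prop]
theorem rec_get {f : α → Sq M} {g : α → M} (hf : Rec M f) (hg : Rec M g) :
    Rec M (fun a => (f a).get (g a)) := by
  have : Rec M (fun a => gt (cd M (f a)) (g a)) := by fun_prop
  exact this

theorem Len_val (s : Sq M) : Len s.val s.len := len_ln s.isSeq.1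

theorem Len_iff {s : Sq M} {l : M} : Len s.val l ↔ s.len = l :=
  ⟨fun h => ln_eq h, fun h => h ▸ s.Len_val⟩

theorem get_of_le {s : Sq M} {i : M} (h : s.len ≤ i) : s.get i = 0 := gt_of_le s.isSeq.1 h

/-- initial segment relation -/
instance : LE (Sq M) := ⟨fun s t => s.len ≤ t.len ∧ ∀ i, i < s.len → s.get i = t.get i⟩

theorem le_def {s t : Sq M} : s ≤ t ↔ s.len ≤ t.len ∧ ∀ i, i < s.len → s.get i = t.get i := Iff.rfl

theorem Ext_iff {s t : Sq M} : Ext s.val t.val ↔ s ≤ t := by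
  rw [ext_iff, le_def]
  constructor
  · rintro ⟨_, h⟩
    exact h
  · intro h
    exact ⟨⟨⟨_, len_le s.Len_val, s.Len_val⟩, ⟨_, len_le t.Len_val, t.Len_val⟩⟩, h⟩

theorem ext {s t : Sq M} (h : s.len = t.len) (h' : ∀ i, i < s.len → s.get i = t.get i) : s = t := by
  have h1 : s ≤ t := ⟨h.le, h'⟩
  have h2 : t ≤ s := ⟨h.ge, fun i hi => (h' i (h ▸ hi)).symm⟩
  apply val_inj
  rcases lt_trichotomy s.val t.val with h3 | h3 | h3
  · exact absurd ⟨Ext_iff.2 h2, Ext_iff.2 h1⟩ (t.isSeq.2 _ h3)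
  · exact h3
  · exact absurd ⟨Ext_iff.2 h1, Ext_iff.2 h2⟩ (s.isSeq.2 _ h3)

@[refl] theorem le_refl' (s : Sq M) : s ≤ s := ⟨le_rfl, fun _ _ => rfl⟩

theorem le_trans' {s t r : Sq M} (h : s ≤ t) (h' : t ≤ r) : s ≤ r :=
  ⟨h.1.trans h'.1, fun i hi => (h.2 i hi).trans (h'.2 i (lt_of_lt_of_le hi h.1))⟩

theorem le_antisymm' {s t : Sq M} (h : s ≤ t) (h' : t ≤ s) : s = t :=
  ext (le_antisymm h.1 h'.1) h.2

instance : PartialOrder (Sq M) where
  le_refl := le_refl'
  le_trans := fun _ _ _ => le_trans'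
  le_antisymm := fun _ _ => le_antisymm'

/-- two initial segments of the same sequence are comparable -/
theorem comparable {s t r : Sq M} (h : s ≤ r) (h' : t ≤ r) (hl : s.len ≤ t.len) : s ≤ t :=
  ⟨hl, fun i hi => (h.2 i hi).trans (h'.2 i (lt_of_lt_of_le hi hl)).symm⟩

@[fun_prop]
theorem rec_le {f g : α → Sq M} (hf : Rec M f) (hg : Rec M g) : Rec M (fun a => f a ≤ g a) := by
  refine Rec.congr (f := fun a => (f a).len ≤ (g a).len ∧ ∀ i, i < (f a).len →
    (f a).get i = (g a).get i) (by fun_prop) ?_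
  intro a
  rw [le_def]

theorem exists_of_code {c : M} (h : ∃ l, Len c l) :
    ∃ s : Sq M, s.len = ln c ∧ ∀ i, i < ln c → s.get i = gt c i := by
  have hc : Ext c c := ext_iff.2 ⟨⟨⟨_, len_le (len_ln h), len_ln h⟩, ⟨_, len_le (len_ln h), len_ln h⟩⟩,
    le_rfl, fun _ _ => rfl⟩
  obtain ⟨t, ⟨h1, h2⟩, h3⟩ := exists_least (P := fun t => Ext c t ∧ Ext t c) (by fun_prop) ⟨c, hc, hc⟩
  have h1' := ext_iff.1 h1
  have h2' := ext_iff.1 h2
  have hs : IsSeq t := by
    refine ⟨?_, ?_⟩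
    · obtain ⟨l, _, hl⟩ := h1'.1.2
      exact ⟨l, hl⟩
    · rintro r hr ⟨h4, h5⟩
      refine h3 r hr ⟨?_, ?_⟩
      · have h4' := ext_iff.1 h4
        refine ext_iff.2 ⟨⟨h1'.1.1, h4'.1.2⟩, h1'.2.1.trans h4'.2.1, ?_⟩
        intro i hi
        exact (h1'.2.2 i hi).trans (h4'.2.2 i (lt_of_lt_of_le hi h1'.2.1))
      · have h5' := ext_iff.1 h5
        refine ext_iff.2 ⟨⟨h5'.1.1, h1'.1.1⟩, h5'.2.1.trans h2'.2.1, ?_⟩
        intro i hi
        exact (h5'.2.2 i hi).trans (h2'.2.2 i (lt_of_lt_of_le hi h5'.2.1))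
  refine ⟨⟨t, hs⟩, ?_, ?_⟩
  · exact le_antisymm h2'.2.1 h1'.2.1
  · intro i hi
    exact (h1'.2.2 i hi).symm

theorem exists_of_rec {f : M → M} (hf : Rec M f) (n : M) :
    ∃ s : Sq M, s.len = n ∧ ∀ i, i < n → s.get i = f i := by
  obtain ⟨a, b, h⟩ := beta_lemma hf n
  have hc : Len (pr n (pr a b)) n := ⟨a, b, rfl⟩
  obtain ⟨s, h1, h2⟩ := exists_of_code ⟨n, hc⟩
  rw [ln_eq hc] at h1 h2
  refine ⟨s, h1, ?_⟩
  intro i hi
  rw [h2 i hi]
  exact gt_eq ⟨n, a, b, rfl, hi, h i hi⟩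

open Classical in
/-- the sequence `⟨f 0, …, f (n-1)⟩` -/
noncomputable def mk' (f : M → M) (n : M) : Sq M :=
  if h : ∃ s : Sq M, s.len = n ∧ ∀ i, i < n → s.get i = f i then h.choose
  else (exists_of_rec (M := M) (f := fun _ => 0) (by fun_prop) 0).choose

theorem mk'_len {f : M → M} (hf : Rec M f) (n : M) : (mk' f n).len = n := by
  unfold mk'
  rw [dif_pos (exists_of_rec hf n)]
  exact (exists_of_rec hf n).choose_spec.1

theorem mk'_get {f : M → M} (hf : Rec M f) {n i : M} (hi : i < n) : (mk' f n).get i = f i := by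
  unfold mk'
  rw [dif_pos (exists_of_rec hf n)]
  exact (exists_of_rec hf n).choose_spec.2 i hi

theorem mk'_eq {f : M → M} {n : M} {s : Sq M} (h : s.len = n) (h' : ∀ i, i < n → s.get i = f i) :
    mk' f n = s := by
  have hex : ∃ s : Sq M, s.len = n ∧ ∀ i, i < n → s.get i = f i := ⟨s, h, h'⟩
  unfold mk'
  rw [dif_pos hex]
  have := hex.choose_spec
  apply ext (this.1.trans h.symm)
  intro i hi
  rw [this.1] at hi
  rw [this.2 i hi, h' i hi]

theorem rec_mk' {f : α → M → M} {n : α → M} (hf : Rec M (fun p : α × M => f p.1 p.2))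
    (hn : Rec M n) : Rec M (fun a => mk' (f a) (n a)) := by
  refine rec_of_rel (R := fun a s => s.len = n a ∧ ∀ i, i < n a → s.get i = f a i) (by fun_prop) ?_ ?_
  · intro a
    have : Rec M (f a) := hf.comp (f := fun x : M => (a, x)) (by fun_prop)
    exact ⟨mk'_len this _, fun i hi => mk'_get this hi⟩
  · rintro a s ⟨h1, h2⟩
    exact mk'_eq h1 h2

/-- the empty sequence -/
noncomputable def nil : Sq M := mk' (fun _ => 0) 0

@[simp] theorem nil_len : (nil : Sq M).len = 0 := mk'_len (by fun_prop) 0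

/-- append one entry -/
noncomputable def snoc (s : Sq M) (x : M) : Sq M :=
  mk' (fun i => if i < s.len then s.get i else x) (s.len + 1)

@[simp] theorem snoc_len (s : Sq M) (x : M) : (s.snoc x).len = s.len + 1 := mk'_len (by fun_prop) _

theorem snoc_get_lt {s : Sq M} {x i : M} (h : i < s.len) : (s.snoc x).get i = s.get i := by
  unfold snoc
  rw [mk'_get (by fun_prop) (h.trans (lt_succ_self _)), if_pos h]

@[simp] theorem snoc_get_len {s : Sq M} {x : M} : (s.snoc x).get s.len = x := by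
  unfold snoc
  rw [mk'_get (by fun_prop) (lt_succ_self _), if_neg (lt_irrefl _)]

@[fun_prop]
theorem rec_snoc {f : α → Sq M} {g : α → M} (hf : Rec M f) (hg : Rec M g) :
    Rec M (fun a => (f a).snoc (g a)) := by
  unfold snoc
  exact rec_mk' (f := fun a i => if i < (f a).len then (f a).get i else g a) (by fun_prop)
    (by fun_prop)

/-- the initial segment of length `n` -/
noncomputable def take (s : Sq M) (n : M) : Sq M := mk' s.get (min n s.len)

@[fun_prop]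
theorem rec_min {f g : α → M} (hf : Rec M f) (hg : Rec M g) : Rec M (fun a => min (f a) (g a)) := by
  refine Rec.congr (f := fun a => if f a ≤ g a then f a else g a) (by fun_prop) ?_
  intro a
  rw [min_def]

@[fun_prop]
theorem rec_take {f : α → Sq M} {g : α → M} (hf : Rec M f) (hg : Rec M g) :
    Rec M (fun a => (f a).take (g a)) := by
  unfold take
  exact rec_mk' (f := fun a i => (f a).get i) (by fun_prop) (by fun_prop)

theorem take_len {s : Sq M} {n : M} (h : n ≤ s.len) : (s.take n).len = n := by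
  unfold take
  rw [mk'_len (by fun_prop), min_eq_left h]

theorem take_get {s : Sq M} {n i : M} (h : n ≤ s.len) (hi : i < n) : (s.take n).get i = s.get i := by
  unfold take
  rw [mk'_get (by fun_prop)]
  rwa [min_eq_left h]

theorem take_le (s : Sq M) (n : M) : s.take n ≤ s := by
  unfold take
  refine ⟨?_, ?_⟩
  · rw [mk'_len (by fun_prop)]; exact min_le_right _ _
  · intro i hi
    rw [mk'_len (by fun_prop)] at hi
    rw [mk'_get (by fun_prop) hi]

theorem le_snoc (s : Sq M) (x : M) : s ≤ s.snoc x :=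
  ⟨by rw [snoc_len]; exact le_of_lt (lt_succ_self _), fun i hi => (snoc_get_lt hi).symm⟩

theorem le_iff_take {s t : Sq M} : s ≤ t ↔ s.len ≤ t.len ∧ t.take s.len = s := by
  constructor
  · intro h
    refine ⟨h.1, ?_⟩
    apply ext (take_len h.1)
    intro i hi
    rw [take_len h.1] at hi
    rw [take_get h.1 hi, h.2 i hi]
  · rintro ⟨h1, h2⟩
    rw [← h2]
    exact take_le _ _

theorem IsSucc_iff {s t : Sq M} : IsSucc s.val t.val ↔ s ≤ t ∧ t.len = s.len + 1 := by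
  unfold IsSucc
  rw [Ext_iff]
  constructor
  · rintro ⟨h, l, h1, h2⟩
    rw [Len_iff] at h1 h2
    exact ⟨h, by rw [h1, h2]⟩
  · rintro ⟨h, h'⟩
    exact ⟨h, s.len, s.Len_val, h' ▸ t.Len_val⟩

theorem succ_eq_snoc {s t : Sq M} (h : s ≤ t) (h' : t.len = s.len + 1) :
    t = s.snoc (t.get s.len) := by
  apply ext
  · rw [snoc_len, h']
  · intro i hi
    rw [h'] at hi
    rcases (lt_succ_iff.1 hi).lt_or_eq with h1 | rfl
    · rw [snoc_get_lt h1, h.2 i h1]
    · rw [snoc_get_len]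

theorem snoc_inj {s t : Sq M} {x y : M} (h : s.snoc x = t.snoc y) : s = t ∧ x = y := by
  have hl : s.len = t.len := by
    have := congrArg len h
    simpa using this
  constructor
  · apply ext hl
    intro i hi
    have := congrArg (fun r : Sq M => r.get i) h
    simp only [snoc_get_lt hi, snoc_get_lt (hl ▸ hi)] at this
    exact this
  · have := congrArg (fun r : Sq M => r.get s.len) h
    simp only [snoc_get_len] at this
    rw [hl] at this
    simpa using this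

end Sq

end Pool.Agent.H75.RM
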