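import Pool.Agent.H75.RM.Rec

universe u v w x

set_option linter.unusedSectionVars false

namespace Pool.Agent.H75.RM

section sigma
variable {M : Type u} [Model M]
variable {α : Type v} {β : Type w} {γ : Type x} [Coded M α] [Coded M β] [Coded M γ]

variable (M) in
/-- `Σ⁰₁` in the sense of the model -/
def Sg (P : α → Prop) : Prop := ∃ R : α × M → Prop, Rec M R ∧ ∀ a, P a ↔ ∃ m, R (a, m)

theorem Sg.congr {P Q : α → Prop} (h : Sg M P) (e : ∀ a, P a ↔ Q a) : Sg M Q := by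
  have : P = Q := funext fun a => propext (e a)
  rwa [← this]

theorem Rec.sg {P : α → Prop} (h : Rec M P) : Sg M P :=
  ⟨fun p => P p.1, by fun_prop, fun a => by simp⟩

theorem Sg.and {P Q : α → Prop} (h : Sg M P) (h' : Sg M Q) : Sg M (fun a => P a ∧ Q a) := by
  obtain ⟨R, hR, e⟩ := h
  obtain ⟨R', hR', e'⟩ := h'
  refine ⟨fun p => ∃ x, x ≤ p.2 ∧ ∃ y, y ≤ p.2 ∧ R (p.1, x) ∧ R' (p.1, y), by fun_prop, ?_⟩
  intro a
  beta_reduce
  rw [e, e']
  constructor
  · rintro ⟨⟨x, hx⟩, ⟨y, hy⟩⟩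
    exact ⟨max x y, x, le_max_left _ _, y, le_max_right _ _, hx, hy⟩
  · rintro ⟨m, x, _, y, _, hx, hy⟩
    exact ⟨⟨x, hx⟩, ⟨y, hy⟩⟩

theorem Sg.or {P Q : α → Prop} (h : Sg M P) (h' : Sg M Q) : Sg M (fun a => P a ∨ Q a) := by
  obtain ⟨R, hR, e⟩ := h
  obtain ⟨R', hR', e'⟩ := h'
  refine ⟨fun p => R p ∨ R' p, by fun_prop, ?_⟩
  intro a
  beta_reduce
  rw [e, e', exists_or]

theorem Sg.comp {P : β → Prop} {f : α → β} (h : Sg M P) (hf : Rec M f) :
    Sg M (fun a => P (f a)) := by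
  obtain ⟨R, hR, e⟩ := h
  refine ⟨fun p => R (f p.1, p.2), by fun_prop, ?_⟩
  intro a
  beta_reduce
  rw [e]

/-- replacing an element by its code -/
theorem Rec.ex_code {P : α × β → Prop} (h : Rec M P) :
    Rec M (fun p : α × M => ∃ b, RM.cd M b = p.2 ∧ P (p.1, b)) := by
  refine RecP.rec (RecP.of_set h.recP ?_)
  rintro ⟨a, x⟩
  simp only [cd_prod, cd_self, mem_cset, Prod.exists]
  constructor
  · rintro ⟨a', b, h1, h2⟩
    have := pr_inj h1
    rw [cd_inj] at this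
    obtain ⟨rfl, rfl⟩ := this
    exact ⟨b, rfl, h2⟩
  · rintro ⟨b, rfl, h⟩
    exact ⟨a, b, rfl, h⟩

theorem Rec.ex_code0 {P : α → Prop} (h : Rec M P) :
    Rec M (fun p : M => ∃ b, RM.cd M b = p ∧ P b) := by
  refine RecP.rec (RecP.of_set h.recP ?_)
  intro a
  simp only [cd_self, mem_cset]

theorem Sg.exM {P : α → M → Prop} (h : Sg M (fun p : α × M => P p.1 p.2)) :
    Sg M (fun a => ∃ x, P a x) := by
  obtain ⟨R, hR, e⟩ := h
  refine ⟨fun p => ∃ x, x ≤ p.2 ∧ ∃ y, y ≤ p.2 ∧ R ((p.1, x), y), by fun_prop, ?_⟩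
  intro a
  constructor
  · rintro ⟨x, hx⟩
    obtain ⟨y, hy⟩ := (e (a, x)).1 hx
    exact ⟨max x y, x, le_max_left _ _, y, le_max_right _ _, hy⟩
  · rintro ⟨m, x, _, y, _, hy⟩
    exact ⟨x, (e (a, x)).2 ⟨y, hy⟩⟩

theorem Sg.ex {P : α → β → Prop} (h : Sg M (fun p : α × β => P p.1 p.2)) :
    Sg M (fun a => ∃ b, P a b) := by
  obtain ⟨R, hR, e⟩ := h
  have h1 : Rec M (fun p : (α × M) × M => ∃ b, RM.cd M b = p.1.2 ∧ R ((p.1.1, b), p.2)) := by
    have := Rec.ex_code (P := fun p : (α × M) × β => R ((p.1.1, p.2), p.1.2)) (by fun_prop)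
    exact this.comp (f := fun p : (α × M) × M => ((p.1.1, p.2), p.1.2)) (by fun_prop)
  have h2 : Sg M (fun p : α × M => ∃ m, ∃ b, RM.cd M b = p.2 ∧ R ((p.1, b), m)) := by
    refine Sg.exM (P := fun (p : α × M) m => ∃ b, RM.cd M b = p.2 ∧ R ((p.1, b), m)) ?_
    exact h1.sg
  refine (Sg.exM (P := fun a x => ∃ m, ∃ b, RM.cd M b = x ∧ R ((a, b), m)) h2).congr ?_
  intro a
  constructor
  · rintro ⟨x, m, b, hb, hR⟩
    exact ⟨b, (e (a, b)).2 ⟨m, hR⟩⟩
  · rintro ⟨b, hb⟩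
    obtain ⟨m, hm⟩ := (e (a, b)).1 hb
    exact ⟨_, m, b, rfl, hm⟩

theorem sg_induction {P : M → Prop} (h : Sg M P) (h0 : P 0) (hs : ∀ n, P n → P (n + 1)) :
    ∀ n, P n := by
  obtain ⟨R, hR, e⟩ := h
  have key : ∀ x m, pr x m ∈ cset M R ↔ R (x, m) := by
    intro x m
    have := cd_mem_cset (M := M) (P := R) (a := (x, m))
    simpa using this
  have := sigma_ind (X := cset M R) hR.recP
    (by simpa only [key, ← e] using h0) (by simpa only [key, ← e] using hs)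
  simpa only [key, ← e] using this

theorem rec_induction {P : M → Prop} (h : Rec M P) (h0 : P 0) (hs : ∀ n, P n → P (n + 1)) :
    ∀ n, P n := sg_induction h.sg h0 hs

theorem rec_strong_induction {P : M → Prop} (h : Rec M P) (hs : ∀ n, (∀ m, m < n → P m) → P n) :
    ∀ n, P n := by
  have : ∀ n, ∀ m, m < n → P m := by
    refine rec_induction (P := fun n => ∀ m, m < n → P m) (by fun_prop) ?_ ?_
    · intro m hm
      exact absurd hm (not_lt_zero' m)
    · intro n ih m hm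
      rcases (lt_succ_iff.1 hm).lt_or_eq with h1 | rfl
      · exact ih m h1
      · exact hs m ih
  intro n
  exact this (n + 1) n (lt_succ_self n)

theorem exists_least {P : M → Prop} (h : Rec M P) (hex : ∃ x, P x) :
    ∃ x, P x ∧ ∀ y, y < x → ¬ P y := by
  by_contra hc
  push Not at hc
  obtain ⟨x, hx⟩ := hex
  have : ∀ n, ¬ P n := by
    refine rec_strong_induction (P := fun n => ¬ P n) (by fun_prop) ?_
    intro n ih hn
    obtain ⟨y, hy, hPy⟩ := hc n hn
    exact ih y hy hPy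
  exact this x hx

theorem sg_collection {P : M → M → Prop} (h : Sg M (fun p : M × M => P p.1 p.2)) (b : M)
    (hb : ∀ x, x < b → ∃ m, P x m) : ∃ B, ∀ x, x < b → ∃ m, m < B ∧ P x m := by
  obtain ⟨R, hR, e⟩ := h
  have h1 : ∀ n, n ≤ b → ∃ B, ∀ x, x < n → ∃ m, m < B ∧ ∃ y, y < B ∧ R ((x, m), y) := by
    refine sg_induction (P := fun n => n ≤ b → ∃ B, ∀ x, x < n → ∃ m, m < B ∧ ∃ y, y < B ∧ R ((x, m), y)) ?_ ?_ ?_
    · have : Sg M (fun n : M => b < n ∨ ∃ B, ∀ x, x < n → ∃ m, m < B ∧ ∃ y, y < B ∧ R ((x, m), y)) := by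
        refine Sg.or (Rec.sg (by fun_prop)) (Sg.exM (Rec.sg (by fun_prop)))
      refine this.congr ?_
      intro n
      rw [← not_le]
      tauto
    · intro _
      exact ⟨0, fun x hx => absurd hx (not_lt_zero' x)⟩
    · intro n ih hn
      obtain ⟨B, hB⟩ := ih ((le_of_lt (lt_succ_self n)).trans hn)
      obtain ⟨m, hm⟩ := hb n (succ_le_iff.1 hn)
      obtain ⟨y, hy⟩ := (e (n, m)).1 hm
      refine ⟨max B (max m y + 1), ?_⟩
      intro x hx
      rcases (lt_succ_iff.1 hx).lt_or_eq with h1 | rfl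
      · obtain ⟨m', hm', y', hy', h2⟩ := hB x h1
        exact ⟨m', lt_of_lt_of_le hm' (le_max_left _ _), y', lt_of_lt_of_le hy' (le_max_left _ _), h2⟩
      · refine ⟨m, ?_, y, ?_, hy⟩
        · exact lt_of_lt_of_le (lt_succ_iff.2 (le_max_left _ _)) (le_max_right _ _)
        · exact lt_of_lt_of_le (lt_succ_iff.2 (le_max_right _ _)) (le_max_right _ _)
  obtain ⟨B, hB⟩ := h1 b le_rfl
  refine ⟨B, ?_⟩
  intro x hx
  obtain ⟨m, hm, y, _, h2⟩ := hB x hx
  exact ⟨m, hm, (e (x, m)).2 ⟨y, h2⟩⟩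

theorem Sg.ball {b : α → M} {P : α → M → Prop} (hb : Rec M b)
    (hP : Sg M (fun p : α × M => P p.1 p.2)) : Sg M (fun a => ∀ x, x < b a → P a x) := by
  obtain ⟨R, hR, e⟩ := hP
  refine ⟨fun p => ∀ x, x < b p.1 → ∃ y, y < p.2 ∧ R ((p.1, x), y), by fun_prop, ?_⟩
  intro a
  constructor
  · intro h
    have h1 := sg_collection (P := fun x y => R ((a, x), y)) (Rec.sg (by fun_prop)) (b a)
      (fun x hx => (e (a, x)).1 (h x hx))
    exact h1
  · rintro ⟨B, hB⟩ x hx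
    obtain ⟨y, _, hy⟩ := hB x hx
    exact (e (a, x)).2 ⟨y, hy⟩

theorem Sg.ball_le {b : α → M} {P : α → M → Prop} (hb : Rec M b)
    (hP : Sg M (fun p : α × M => P p.1 p.2)) : Sg M (fun a => ∀ x, x ≤ b a → P a x) := by
  refine (Sg.ball (b := fun a => b a + 1) (by fun_prop) hP).congr ?_
  intro a
  simp only [lt_succ_iff]

theorem rec_of_sg {P : α → Prop} (h : Sg M P) (h' : Sg M (fun a => ¬ P a)) : Rec M P := by
  obtain ⟨R, hR, e⟩ := h
  obtain ⟨R', hR', e'⟩ := h'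
  -- work with codes
  have h1 : Rec M (fun p : M × M => ∃ a, RM.cd M a = p.1 ∧ R (a, p.2)) := by
    have := Rec.ex_code (P := fun p : M × α => R (p.2, p.1)) (by fun_prop)
    exact this.comp (f := fun p : M × M => (p.2, p.1)) (by fun_prop)
  have h2 : Rec M (fun p : M × M => ¬ (∃ a : α, RM.cd M a = p.1 ∧ True) ∨
      ∃ a, RM.cd M a = p.1 ∧ R' (a, p.2)) := by
    have := Rec.ex_code (P := fun p : M × α => R' (p.2, p.1)) (by fun_prop)
    have h3 := this.comp (f := fun p : M × M => (p.2, p.1)) (by fun_prop)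
    have h4 := Rec.ex_code0 (M := M) (P := fun _ : α => True) (by fun_prop)
    have h5 := h4.comp (f := fun p : M × M => p.1) (by fun_prop)
    exact Rec.or (Rec.not h5) h3
  have k1 : ∀ x m, pr x m ∈ cset M (fun p : M × M => ∃ a, RM.cd M a = p.1 ∧ R (a, p.2)) ↔
      ∃ a, RM.cd M a = x ∧ R (a, m) := by
    intro x m
    have := cd_mem_cset (M := M) (P := fun p : M × M => ∃ a, RM.cd M a = p.1 ∧ R (a, p.2)) (a := (x, m))
    simpa using this
  have k2 : ∀ x m, pr x m ∈ cset M (fun p : M × M => ¬ (∃ a : α, RM.cd M a = p.1 ∧ True) ∨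
      ∃ a, RM.cd M a = p.1 ∧ R' (a, p.2)) ↔
      (¬ (∃ a : α, RM.cd M a = x) ∨ ∃ a, RM.cd M a = x ∧ R' (a, m)) := by
    intro x m
    have := cd_mem_cset (M := M) (P := fun p : M × M => ¬ (∃ a : α, RM.cd M a = p.1 ∧ True) ∨
      ∃ a, RM.cd M a = p.1 ∧ R' (a, p.2)) (a := (x, m))
    simpa using this
  have := mkSet1 h1.recP h2.recP (by
    intro x
    simp only [k1, k2]
    constructor
    · rintro ⟨m, a, rfl, hm⟩ ⟨m', h3 | ⟨a', h3, h4⟩⟩
      · exact h3 ⟨a, rfl⟩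
      · rw [cd_inj] at h3
        subst h3
        exact (e' a').2 ⟨m', h4⟩ ((e a').2 ⟨m, hm⟩)
    · intro h
      push Not at h
      obtain ⟨a, ha⟩ := (h 0).1
      by_cases hp : P a
      · obtain ⟨m, hm⟩ := (e a).1 hp
        exact ⟨m, a, ha, hm⟩
      · obtain ⟨m, hm⟩ := (e' a).1 hp
        exact absurd hm ((h m).2 a ha))
  refine RecP.rec (RecP.of_set this ?_)
  intro a
  simp only [Set.mem_ofPred_eq, k1, e a]
  constructor
  · rintro ⟨m, a', h3, h4⟩
    rw [cd_inj] at h3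
    subst h3
    exact ⟨m, h4⟩
  · rintro ⟨m, hm⟩
    exact ⟨m, a, rfl, hm⟩

theorem rec_of_sg_graph {f : α → β} (h : Sg M (fun p : α × β => f p.1 = p.2)) : Rec M f := by
  refine Rec.recP (rec_of_sg h ?_)
  have : Sg M (fun p : α × β => ∃ b, b ≠ p.2 ∧ f p.1 = b) := by
    refine Sg.ex (P := fun (p : α × β) b => b ≠ p.2 ∧ f p.1 = b) (Sg.and (Rec.sg (by fun_prop)) ?_)
    exact h.comp (f := fun p : (α × β) × β => (p.1.1, p.2)) (by fun_prop)
  refine this.congr ?_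
  rintro ⟨a, b⟩
  constructor
  · rintro ⟨b', h1, h2⟩ h3
    exact h1 (h2.symm.trans h3)
  · intro h
    exact ⟨f a, h, rfl⟩

/-- a function with a `Σ⁰₁` defining relation is computable -/
theorem rec_of_sg_rel {f : α → β} {R : α → β → Prop} (h : Sg M (fun p : α × β => R p.1 p.2))
    (h1 : ∀ a, R a (f a)) (h2 : ∀ a b, R a b → f a = b) : Rec M f := by
  refine rec_of_sg_graph (h.congr ?_)
  rintro ⟨a, b⟩
  simp only
  constructor
  · exact h2 a b
  · rintro rfl
    exact h1 a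

theorem rec_of_rel {f : α → β} {R : α → β → Prop} (h : Rec M (fun p : α × β => R p.1 p.2))
    (h1 : ∀ a, R a (f a)) (h2 : ∀ a b, R a b → f a = b) : Rec M f :=
  rec_of_sg_rel h.sg h1 h2

open Classical in
/-- the least number with property `P` -/
noncomputable def mu (P : M → Prop) : M := if h : ∃ x, P x ∧ ∀ y, y < x → ¬ P y then h.choose else 0

theorem mu_spec {P : M → Prop} (h : Rec M P) (hex : ∃ x, P x) :
    P (mu P) ∧ ∀ y, y < mu P → ¬ P y := by
  have := exists_least h hex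
  unfold mu
  rw [dif_pos this]
  exact this.choose_spec

theorem mu_eq {P : M → Prop} {x : M} (hx : P x) (hl : ∀ y, y < x → ¬ P y) : mu P = x := by
  have h : ∃ x, P x ∧ ∀ y, y < x → ¬ P y := ⟨x, hx, hl⟩
  unfold mu
  rw [dif_pos h]
  have := h.choose_spec
  rcases lt_trichotomy h.choose x with h1 | h1 | h1
  · exact absurd this.1 (hl _ h1)
  · exact h1
  · exact absurd hx (this.2 _ h1)

theorem Rec.mu {R : α → M → Prop} (hR : Rec M (fun p : α × M => R p.1 p.2))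
    (hex : ∀ a, ∃ m, R a m) : Rec M (fun a => mu (R a)) := by
  refine rec_of_rel (R := fun a m => R a m ∧ ∀ y, y < m → ¬ R a y) (by fun_prop) ?_ ?_
  · intro a
    exact mu_spec (by fun_prop) (hex a)
  · rintro a b ⟨h1, h2⟩
    exact mu_eq h1 h2

@[fun_prop]
theorem Rec.ite {P : α → Prop} [DecidablePred P] {f g : α → β} (hP : Rec M P) (hf : Rec M f)
    (hg : Rec M g) : Rec M (fun a => if P a then f a else g a) := by
  refine rec_of_rel (R := fun a b => (P a ∧ f a = b) ∨ (¬ P a ∧ g a = b)) (by fun_prop) ?_ ?_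
  · intro a
    by_cases h : P a <;> simp [h]
  · intro a b
    by_cases h : P a <;> simp [h]

@[fun_prop]
theorem Rec.max {f g : α → M} (hf : Rec M f) (hg : Rec M g) : Rec M (fun a => max (f a) (g a)) := by
  refine Rec.congr (f := fun a => if f a ≤ g a then g a else f a) (by fun_prop) ?_
  intro a
  rw [max_def]

end sigma

end Pool.Agent.H75.RM
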