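import Pool.Agent.H75.RM.FHL

universe u v w x

set_option linter.unusedSectionVars false

namespace Pool.Agent.H75.RM

section strong
variable {M : Type u} [ACAModel M]

/-- `X` is an `n`-dense matrix above `t` of level `m ≥ n`, monochromatic of colour `j`. -/
def DMat {N : ℕ} (T : Fin N → Sq M → Prop) (c : (Fin N → Sq M) → M) (t : Fin N → Sq M) (j n m : M)
    (X : Fin N → FS M (Sq M)) : Prop :=
  n ≤ m ∧ (∀ i x, x ∈ X i → T i x ∧ x.len = m) ∧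
    (∀ i v, T i v → t i ≤ v → v.len = max n (t i).len → ∃ x, x ∈ X i ∧ v ≤ x) ∧
    ∀ v, (∀ i, v i ∈ X i) → c v = j

variable (M) in
/-- the dense-matrix form of the Halpern-Läuchli theorem -/
def DM (N : ℕ) : Prop :=
  ∀ T : Fin N → Sq M → Prop, (∀ i, TreeP (T i)) → ∀ k : M,
    ∀ c : (Fin N → Sq M) → M, Rec M c → (∀ v, LP T v → c v < k) →
      ∃ t : Fin N → Sq M, (∀ i, T i (t i)) ∧ ∃ j, j < k ∧ ∀ n : M, ∃ m X, DMat T c t j n m X

theorem hli_of_dm {full : Bool} {d : ℕ} (h : DM M (d + 1)) : HLi M full (d + 1) := by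
  intro T hT k hk c hc hck
  obtain ⟨t, ht, j, hj, hD⟩ := h T hT k c hc hck
  have hTrec := fun i => (hT i).hrec
  have : Inhabited M := ⟨0⟩
  obtain ⟨G, hG, hG'⟩ := rec_choice (M := M)
    (R := fun (n : M) (p : M × (Fin (d + 1) → FS M (Sq M))) => DMat T c t j n p.1 p.2) (by
      unfold DMat
      fun_prop)
  have hGD : ∀ n, DMat T c t j n (G n).1 (G n).2 := by
    intro n
    obtain ⟨m, X, hX⟩ := hD n
    exact hG' n ⟨(m, X), hX⟩
  obtain ⟨b, hb⟩ : ∃ b, ∀ i, (t i).len ≤ b := exists_bound_fin (P := fun i b => (t i).len ≤ b)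
    (fun i => ⟨_, le_rfl⟩) (fun i b b' h1 h2 => h2.trans h1)
  have hx0 : ∀ i, ∃ x, x ∈ (G b).2 i ∧ t i ≤ x := by
    intro i
    obtain ⟨v, h1, h2, h3⟩ := (hT i).extend (ht i) (max b (t i).len) (le_max_right _ _)
    obtain ⟨x, h4, h5⟩ := (hGD b).2.2.1 i v h1 h2 h3
    exact ⟨x, h4, h2.trans h5⟩
  choose x0 hx0 hx0' using hx0
  let SP : Fin (d + 1) → (M × (Fin (d + 1) → FS M (Sq M))) → Sq M → Prop := fun i p x =>
    ∃ v, T i v ∧ v.len = p.1 + 1 ∧ (∃ u, u ∈ p.2 i ∧ u ≤ v) ∧ x ∈ (G (p.1 + 1)).2 i ∧ v ≤ x ∧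
      ∀ x', x' ∈ (G (p.1 + 1)).2 i → v ≤ x' → cd M x ≤ cd M x'
  have hSP : ∀ i, Rec M (fun p : (M × (Fin (d + 1) → FS M (Sq M))) × Sq M => SP i p.1 p.2) := by
    intro i
    have h1 := hTrec i
    fun_prop
  obtain ⟨F, hF, hF0, hFs⟩ := exists_rec_fun' (M := M)
    (x0 := ((G b).1, fun i => fs M (fun x => x = x0 i)))
    (h := fun p : M × (M × (Fin (d + 1) → FS M (Sq M))) => ((G (p.2.1 + 1)).1,
      fun i => fs M (SP i p.2))) (by fun_prop)
  have hmemS : ∀ r i x, x ∈ (F (r + 1)).2 i ↔ SP i (F r) x := by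
    intro r i x
    rw [hFs]
    refine mem_fs ((hSP i).comp (f := fun x => (F r, x)) (by fun_prop)) ?_
    refine ((G ((F r).1 + 1)).2 i).bdd_mem.mono ?_
    rintro x ⟨v, _, _, _, h1, _⟩
    exact h1
  have hmem0 : ∀ i x, x ∈ (F 0).2 i ↔ x = x0 i := by
    intro i x
    rw [hF0]
    exact mem_fs (by fun_prop) (Bdd.eq (x0 i))
  have hlt1 : ∀ r, (F r).1 < (F (r + 1)).1 := by
    intro r
    rw [hFs]
    exact succ_le_iff.1 (hGD ((F r).1 + 1)).1
  have hlt : ∀ r' r, r < r' → (F r).1 < (F r').1 := by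
    refine rec_induction (P := fun r' => ∀ r, r < r' → (F r).1 < (F r').1) (by fun_prop) ?_ ?_
    · intro r hr
      exact absurd hr (not_lt_zero' _)
    · intro r' ih r hr
      rcases (lt_succ_iff.1 hr).lt_or_eq with h1 | h1
      · exact (ih r h1).trans (hlt1 r')
      · rw [h1]; exact hlt1 r'
  have hinj : ∀ r r', (F r).1 = (F r').1 → r = r' := by
    intro r r' h1
    rcases lt_trichotomy r r' with h2 | h2 | h2
    · exact absurd h1 (hlt _ _ h2).ne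
    · exact h2
    · exact absurd h1 (hlt _ _ h2).ne'
  have hge : ∀ r, r ≤ (F r).1 := by
    refine rec_induction (P := fun r => r ≤ (F r).1) (by fun_prop) zero_le ?_
    intro r ih
    exact succ_le_iff.2 (ih.trans_lt (hlt1 r))
  have hG3 : ∀ r, ∃ n, (F r).1 = (G n).1 ∧ ∀ i x, x ∈ (F r).2 i → x ∈ (G n).2 i := by
    intro r
    rcases zero_or_succ r with h1 | ⟨r', h1⟩
    · subst h1
      refine ⟨b, by rw [hF0], ?_⟩
      intro i x hx
      rw [(hmem0 i x).1 hx]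
      exact hx0 i
    · subst h1
      refine ⟨(F r').1 + 1, by rw [hFs], ?_⟩
      intro i x hx
      obtain ⟨v, _, _, _, h2, _⟩ := (hmemS r' i x).1 hx
      exact h2
  have hlen : ∀ r i x, x ∈ (F r).2 i → T i x ∧ x.len = (F r).1 := by
    intro r i x hx
    obtain ⟨n, h1, h2⟩ := hG3 r
    rw [h1]
    exact (hGD n).2.1 i x (h2 i x hx)
  have habove : ∀ r i x, x ∈ (F r).2 i → t i ≤ x := by
    refine rec_induction (P := fun r => ∀ i x, x ∈ (F r).2 i → t i ≤ x) (by fun_prop) ?_ ?_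
    · intro i x hx
      rw [(hmem0 i x).1 hx]
      exact hx0' i
    · intro r ih i x hx
      obtain ⟨v, _, _, ⟨u, h3, h4⟩, h5, h6, _⟩ := (hmemS r i x).1 hx
      exact ((ih i u h3).trans h4).trans h6
  have hbranch : ∀ r i s, s ∈ (F r).2 i → ∀ y, T i (s.snoc y) →
      ∃ u, u ∈ (F (r + 1)).2 i ∧ s.snoc y ≤ u := by
    intro r i s hs y hy
    have h1 := hlen r i s hs
    have h2 : t i ≤ s.snoc y := (habove r i s hs).trans (Sq.le_snoc s y)
    have h3 : (s.snoc y).len = (F r).1 + 1 := by rw [Sq.snoc_len, h1.2]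
    obtain ⟨x, h4, h5⟩ := (hGD ((F r).1 + 1)).2.2.1 i _ hy h2 (by
      rw [h3]
      have := h2.1
      rw [h3] at this
      exact (max_eq_left this).symm)
    obtain ⟨x', ⟨h6, h7⟩, h8⟩ := exists_least_code (M := M)
      (P := fun x => x ∈ (G ((F r).1 + 1)).2 i ∧ s.snoc y ≤ x) (by fun_prop) ⟨x, h4, h5⟩
    refine ⟨x', (hmemS r i x').2 ⟨s.snoc y, hy, h3, ⟨s, hs, Sq.le_snoc s y⟩, h6, h7, ?_⟩, h7⟩
    intro x'' h9 h10
    exact h8 x'' ⟨h9, h10⟩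
  have hne : ∀ r i, ∃ s, s ∈ (F r).2 i := by
    refine rec_induction (P := fun r => ∀ i, ∃ s, s ∈ (F r).2 i) (by fun_prop) ?_ ?_
    · intro i
      exact ⟨x0 i, (hmem0 i _).2 rfl⟩
    · intro r ih i
      obtain ⟨s, hs⟩ := ih i
      obtain ⟨y, hy⟩ := (hT i).nt s (hlen r i s hs).1
      obtain ⟨u, hu, _⟩ := hbranch r i s hs y hy
      exact ⟨u, hu⟩
  have hcons : ∀ a b, Consecutive {a | ∃ r, (F r).1 = a} a b →
      ∃ r, a = (F r).1 ∧ b = (F (r + 1)).1 := by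
    rintro a b ⟨⟨r, hr⟩, ⟨r', hr'⟩, h1, h2⟩
    refine ⟨r, hr.symm, ?_⟩
    rw [← hr, ← hr'] at h1
    have h3 : r < r' := by
      by_contra h4
      rcases (not_lt.1 h4).lt_or_eq with h5 | h5
      · exact absurd h1 (hlt _ _ h5).le.not_gt
      · rw [h5] at h1; exact lt_irrefl _ h1
    rcases (succ_le_iff.2 h3).lt_or_eq with h4 | h4
    · exact absurd ⟨hr ▸ hlt1 r, hr' ▸ hlt _ _ h4⟩ (h2 _ ⟨r + 1, rfl⟩)
    · rw [h4, hr']
  have hlevel : ∀ r i s, (∃ r', s ∈ (F r').2 i) → s.len = (F r).1 → s ∈ (F r).2 i := by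
    rintro r i s ⟨r', hs⟩ h1
    have h2 := (hlen r' i s hs).2
    rw [h1] at h2
    rw [hinj _ _ h2]
    exact hs
  refine ⟨fun a => ∃ r, (F r).1 = a, by fun_prop, ?_, fun i s => ∃ r, s ∈ (F r).2 i, ?_, j, hj, ?_⟩
  · intro b
    exact ⟨_, ⟨b + 1, rfl⟩, (lt_succ_self b).trans_le (hge (b + 1))⟩
  · intro i
    refine ⟨by fun_prop, ?_⟩
    refine ⟨?_, ?_, ?_, ?_, ?_, ?_⟩
    · rintro s ⟨r, hs⟩
      exact (hlen r i s hs).1
    · rintro s ⟨r, hs⟩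
      exact ⟨r, (hlen r i s hs).2.symm⟩
    · rintro _ ⟨r, rfl⟩
      obtain ⟨s, hs⟩ := hne r i
      exact ⟨s, ⟨r, hs⟩, (hlen r i s hs).2⟩
    · rintro _ ⟨r, rfl⟩ hmin s s' hs hs' h1 h2
      have h3 : r = 0 := by
        by_contra h4
        have := hlt r 0 (pos_iff.2 h4)
        exact absurd (hmin _ ⟨0, rfl⟩) (not_le.2 this)
      subst h3
      rw [(hmem0 i s).1 (hlevel 0 i s hs h1), (hmem0 i s').1 (hlevel 0 i s' hs' h2)]
    · intro a b hab s hs hsa y hy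
      obtain ⟨r, rfl, rfl⟩ := hcons a b hab
      have hs1 := hlevel r i s hs hsa
      obtain ⟨u, h1, h2⟩ := hbranch r i s hs1 y hy
      refine ⟨u, ⟨⟨r + 1, h1⟩, (hlen _ _ _ h1).2, h2⟩, ?_⟩
      rintro u' ⟨h3, h4, h5⟩
      have h6 := hlevel (r + 1) i u' h3 h4
      obtain ⟨v, k1, k2, k3, k4, k5, k6⟩ := (hmemS r i u).1 h1
      obtain ⟨v', l1, l2, l3, l4, l5, l6⟩ := (hmemS r i u').1 h6
      have h7 : v = s.snoc y := Sq.eq_of_le k5 h2 (by rw [k2, Sq.snoc_len, hsa])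
      have h8 : v' = s.snoc y := Sq.eq_of_le l5 h5 (by rw [l2, Sq.snoc_len, hsa])
      subst h7
      subst h8
      exact (cd_inj (M := M)).1 (le_antisymm (l6 u k4 k5) (k6 u' l4 l5))
    · intro _ a b hab u hu hub
      obtain ⟨r, rfl, rfl⟩ := hcons a b hab
      obtain ⟨v, k1, k2, ⟨s, k3, k3'⟩, k4, k5, k6⟩ := (hmemS r i u).1 (hlevel (r + 1) i u hu hub)
      exact ⟨s, ⟨r, k3⟩, (hlen r i s k3).2, k3'.trans k5⟩
  · rintro v ⟨h1, n, h2⟩
    obtain ⟨r, hr⟩ := h1 0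
    have h3 := (hlen r 0 _ hr).2
    have h4 : ∀ i, v i ∈ (F r).2 i := fun i => hlevel r i _ (h1 i) (by rw [h2 i, ← h2 0, h3])
    obtain ⟨n, _, h5⟩ := hG3 r
    exact (hGD n).2.2.2 v (fun i => h5 i _ (h4 i))

end strong

end Pool.Agent.H75.RM
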