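import Pool.Agent.H75.RM.FS

universe u v w x

set_option linter.unusedSectionVars false

namespace Pool.Agent.H75.RM

section tree
variable {M : Type u} [ACAModel M]
variable {α : Type v} {β : Type w} {γ : Type x} [Coded M α] [Coded M β] [Coded M γ]

theorem Sq.le_len {s t : Sq M} (h : s ≤ t) : s.len ≤ t.len := h.1

theorem Sq.eq_of_le {s t r : Sq M} (h : s ≤ r) (h' : t ≤ r) (hl : s.len = t.len) : s = t :=
  le_antisymm (Sq.comparable h h' hl.le) (Sq.comparable h' h hl.ge)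

theorem Sq.eq_of_le' {s t : Sq M} (h : s ≤ t) (hl : s.len = t.len) : s = t :=
  Sq.eq_of_le h le_rfl hl

theorem Sq.nil_le (s : Sq M) : (Sq.nil : Sq M) ≤ s := by
  rw [Sq.le_def, Sq.nil_len]
  exact ⟨zero_le, fun i hi => absurd hi (not_lt_zero' _)⟩

theorem Sq.le_total' {s t r : Sq M} (h : s ≤ r) (h' : t ≤ r) : s ≤ t ∨ t ≤ s := by
  rcases le_total s.len t.len with hl | hl
  · exact Or.inl (Sq.comparable h h' hl)
  · exact Or.inr (Sq.comparable h' h hl)

theorem TreeP.nil_mem {T : Sq M → Prop} (hT : TreeP T) : T Sq.nil := by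
  obtain ⟨s, hs⟩ := hT.nonempty
  exact hT.closed s hs _ (Sq.nil_le s)

theorem TreeP.extend {T : Sq M → Prop} (hT : TreeP T) {s : Sq M} (hs : T s) (m : M)
    (hm : s.len ≤ m) : ∃ t, T t ∧ s ≤ t ∧ t.len = m := by
  have hr := hT.hrec
  revert hm
  refine rec_induction (P := fun m => s.len ≤ m → ∃ t, T t ∧ s ≤ t ∧ t.len = m) (by fun_prop)
    ?_ ?_ m
  · intro h
    exact ⟨s, hs, le_rfl, le_antisymm h zero_le⟩
  · intro m ih h
    rcases h.lt_or_eq with h1 | h1
    · obtain ⟨t, h2, h3, h4⟩ := ih (lt_succ_iff.1 h1)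
      obtain ⟨x, hx⟩ := hT.nt t h2
      exact ⟨t.snoc x, hx, h3.trans (Sq.le_snoc t x), by rw [Sq.snoc_len, h4]⟩
    · exact ⟨s, hs, le_rfl, h1⟩

theorem TreeP.bdd_level {T : Sq M → Prop} (hT : TreeP T) (n : M) :
    Bdd M (fun s => T s ∧ s.len = n) := by
  have hr := hT.hrec
  refine rec_induction (P := fun n => Bdd M (fun s => T s ∧ s.len = n)) ?_ ?_ ?_ n
  · unfold Bdd
    fun_prop
  · refine (Bdd.eq (Sq.nil : Sq M)).mono ?_
    rintro s ⟨_, hs⟩
    exact (Sq.eq_of_le' (Sq.nil_le s) (by rw [hs, Sq.nil_len])).symm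
  · intro n ih
    refine (Bdd.biUnion (P := fun s => T s ∧ s.len = n) (by fun_prop) ih
      (R := fun s t => ∃ x, t = s.snoc x ∧ T t) (by fun_prop) ?_).mono ?_
    · rintro s ⟨hs, _⟩
      obtain ⟨b, hb⟩ := hT.fb s hs
      refine (Bdd.image (P := fun x => x < b) (by fun_prop) (Bdd.lt b) (f := fun x => s.snoc x)
        (by fun_prop)).mono ?_
      rintro t ⟨x, rfl, ht⟩
      exact ⟨x, hb x ht, rfl⟩
    · rintro t ⟨ht, hl⟩
      have h1 : (t.take n).len = n := Sq.take_len (by rw [hl]; exact (lt_succ_self n).le)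
      refine ⟨t.take n, ⟨hT.closed t ht _ (Sq.take_le t n), h1⟩, t.get n, ?_, ht⟩
      have := Sq.succ_eq_snoc (Sq.take_le t n) (by rw [hl, h1])
      rwa [h1] at this

theorem TreeP.exists_take {T : Sq M → Prop} (hT : TreeP T) {s : Sq M} (hs : T s) {n : M}
    (hn : n ≤ s.len) : ∃ t, T t ∧ t ≤ s ∧ t.len = n :=
  ⟨s.take n, hT.closed s hs _ (Sq.take_le s n), Sq.take_le s n, Sq.take_len hn⟩

/-- elements of a finite set of sequences have bounded length -/
theorem FS.exists_len_bound (X : FS M (Sq M)) : ∃ b : M, ∀ x, x ∈ X → x.len ≤ b := by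
  have h := Bdd.image (M := M) (P := fun x => x ∈ X) (by fun_prop) X.bdd_mem (f := fun x : Sq M => x.len)
    (by fun_prop)
  obtain ⟨b, hb⟩ := h
  exact ⟨b, fun x hx => (hb _ ⟨x, hx, rfl⟩).le⟩

theorem exists_bound_fin {d : ℕ} {P : Fin d → M → Prop} (h : ∀ i, ∃ b, P i b)
    (hm : ∀ i b b', b ≤ b' → P i b → P i b') : ∃ b, ∀ i, P i b := by
  choose b hb using h
  induction d with
  | zero => exact ⟨0, fun i => i.elim0⟩
  | succ d ih =>
    obtain ⟨B, hB⟩ := ih (P := fun i => P i.succ) (fun i => hm i.succ) (fun i => b i.succ)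
      (fun i => hb i.succ)
    refine ⟨max B (b 0), ?_⟩
    refine Fin.cases ?_ ?_
    · exact hm 0 _ _ (le_max_right _ _) (hb 0)
    · intro i
      exact hm i.succ _ _ (le_max_left _ _) (hB i)

end tree

end Pool.Agent.H75.RM
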