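import Pool.Agent.H75.RM.PrimRec

universe u v w x

set_option linter.unusedSectionVars false

namespace Pool.Agent.H75.RM

section tuple
variable {M : Type u} [Model M]
variable {α : Type v} {β : Type w} {γ : Type x} [Coded M α] [Coded M β] [Coded M γ]

theorem tup_inj : ∀ {d : ℕ} {v v' : Fin d → M}, tup v = tup v' → v = v'
  | 0, _, _, _ => funext fun i => i.elim0
  | d + 1, v, v', h => by
    have h1 := pr_inj (h : pr (v 0) (tup (Fin.tail v)) = pr (v' 0) (tup (Fin.tail v')))
    have h2 := tup_inj h1.2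
    funext i
    refine Fin.cases h1.1 (fun j => ?_) i
    exact congrFun h2 j

theorem inS_range_tup : ∀ d : ℕ, InS (Set.range (fun v : Fin d → α => tup (fun i => cd M (v i))))
  | 0 => by
    have : Set.range (fun v : Fin 0 → α => tup (fun i => cd M (v i))) = {(0 : M)} := by
      ext m
      simp only [Set.mem_range, Set.mem_singleton_iff, tup]
      constructor
      · rintro ⟨_, rfl⟩
        rfl
      · rintro rfl
        exact ⟨fun i => i.elim0, rfl⟩
    rw [this]
    have h : Rec M (fun m : M => m = 0) := by fun_prop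
    have h2 := h.recP
    unfold RecP at h2
    convert h2 using 1
    ext m
    simp only [Set.mem_singleton_iff, mem_cset, cd_self, exists_eq_left]
  | d + 1 => by
    convert raw_prod (Coded.range_mem (M := M) (α := α)) (inS_range_tup d) using 1
    ext m
    simp only [Set.mem_range, Set.mem_ofPred_eq]
    constructor
    · rintro ⟨v, rfl⟩
      exact ⟨cd M (v 0), tup (fun i => cd M (v i.succ)), rfl, ⟨v 0, rfl⟩, ⟨Fin.tail v, rfl⟩⟩
    · rintro ⟨x, y, rfl, ⟨a, rfl⟩, ⟨v, rfl⟩⟩
      exact ⟨Fin.cons a v, rfl⟩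

instance instCodedPi {d : ℕ} : Coded M (Fin d → α) where
  code := fun v => tup (fun i => cd M (v i))
  inj := by
    intro v v' h
    have := tup_inj h
    funext i
    exact (cd_inj (M := M)).1 (congrFun this i)
  range_mem := inS_range_tup d

theorem cd_pi {d : ℕ} (v : Fin d → α) : cd M v = tup (fun i => cd M (v i)) := rfl

theorem cd_pi_succ {d : ℕ} (v : Fin (d + 1) → α) :
    cd M v = pr (cd M (v 0)) (cd M (Fin.tail v)) := rfl

/-- maps preserving codes are computable -/
theorem Rec.of_cd_eq {f : α → β} (h : ∀ a, RM.cd M (f a) = RM.cd M a) : Rec M f := by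
  refine RecP.of_set (raw_diag (Coded.range_mem (M := M) (α := α))) ?_
  rintro ⟨a, b⟩
  simp only [Set.mem_ofPred_eq, cd_prod, pr_inj_iff, Set.mem_range]
  constructor
  · rintro ⟨x, ⟨h1, h2⟩, _⟩
    apply (cd_inj (M := M)).1
    rw [h a, h1, h2]
  · rintro rfl
    exact ⟨RM.cd M a, ⟨rfl, h a⟩, a, rfl⟩

theorem Rec.proj : ∀ {d : ℕ} (i : Fin d), Rec M (fun v : Fin d → α => v i)
  | 0, i => i.elim0
  | d + 1, i => by
    have h1 : Rec M (fun v : Fin (d + 1) → α => (v 0, Fin.tail v)) :=
      Rec.of_cd_eq (fun v => rfl)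
    refine Fin.cases ?_ (fun j => ?_) i
    · exact h1.fst
    · exact (Rec.proj j).comp h1.snd

@[fun_prop]
theorem Rec.apply {d : ℕ} (i : Fin d) : Rec M (fun v : Fin d → α => v i) := Rec.proj i

@[fun_prop]
theorem Rec.pi : ∀ {d : ℕ} {f : β → Fin d → α} (_ : ∀ i, Rec M (fun a => f a i)),
    Rec M (fun a i => f a i)
  | 0, f, _ => by
    refine Rec.congr (f := fun _ => (fun i => i.elim0)) (by
      exact Rec.const (M := M) (α := β) (β := Fin 0 → α) (fun i => i.elim0)) ?_
    intro a
    funext i
    exact i.elim0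
  | d + 1, f, h => by
    have h1 : Rec M (fun p : α × (Fin d → α) => (Fin.cons p.1 p.2 : Fin (d + 1) → α)) :=
      Rec.of_cd_eq (fun v => rfl)
    have h2 : Rec M (fun a => (fun i => f a i.succ : Fin d → α)) := Rec.pi (fun i => h i.succ)
    refine Rec.congr (h1.comp ((h 0).prodMk h2)) ?_
    intro a
    funext i
    refine Fin.cases rfl (fun j => rfl) i

@[fun_prop]
theorem Rec.allFin : ∀ {d : ℕ} {P : β → Fin d → Prop} (_ : ∀ i, Rec M (fun a => P a i)),
    Rec M (fun a => ∀ i, P a i)
  | 0, P, _ => by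
    refine Rec.congr (f := fun _ => True) (by fun_prop) ?_
    intro a
    simp
  | d + 1, P, h => by
    have h2 : Rec M (fun a => ∀ i : Fin d, P a i.succ) := Rec.allFin (fun i => h i.succ)
    refine Rec.congr ((h 0).and h2) ?_
    intro a
    rw [eq_iff_iff, Fin.forall_fin_succ]

@[fun_prop]
theorem Rec.exFin {d : ℕ} {P : β → Fin d → Prop} (h : ∀ i, Rec M (fun a => P a i)) :
    Rec M (fun a => ∃ i, P a i) := by
  refine Rec.congr (f := fun a => ¬ ∀ i, ¬ P a i) (by fun_prop) ?_
  intro a
  simp

@[fun_prop]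
theorem Rec.update {d : ℕ} {f : β → Fin d → α} {g : β → α} (i : Fin d) (hf : Rec M f)
    (hg : Rec M g) : Rec M (fun a => Function.update (f a) i (g a)) := by
  refine Rec.pi (f := fun a => Function.update (f a) i (g a)) ?_
  intro j
  by_cases h : j = i
  · subst h
    simp only [Function.update_self]
    exact hg
  · simp only [Function.update_of_ne h]
    fun_prop

example {d : ℕ} : Rec M (fun p : (Fin d → M) × M => ∀ i, p.1 i < p.2) := by fun_prop
example {d : ℕ} (i : Fin d) : Rec M (fun p : (Fin d → M) × M => p.1 i < p.2) := by fun_prop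
example {d : ℕ} : Rec M (fun p : (Fin d → M) × M => fun i => p.1 i + p.2) := by fun_prop

instance instCodedUnit : Coded M PUnit.{v+1} where
  code := fun _ => 0
  inj := fun _ _ _ => rfl
  range_mem := by
    have h : Rec M (fun m : M => m = 0) := by fun_prop
    have h2 := h.recP
    unfold RecP at h2
    convert h2 using 1
    ext m
    simp only [Set.mem_range, mem_cset, cd_self, exists_eq_left]
    constructor
    · rintro ⟨_, rfl⟩
      rfl
    · rintro rfl
      exact ⟨PUnit.unit, rfl⟩

end tuple

end Pool.Agent.H75.RM
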